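import Pool.Agent.Lib.MP_f80667_ag.Rw.Iso
import Pool.Agent.Lib.MP_f80667_ag.Rl.Top
import Pool.Agent.Lib.MP_f80667_ag.Fa.Lift
import Pool.Agent.Lib.MP_f80667_ag.ZC.RkC

/-! The push-forward modulo norms at a real place for families of quadrics. -/

open scoped LinearAlgebra.Projectivization
open MvPolynomial

namespace Rw

open ZC

section alg

variable {k : Type} [Field k] {N n : ℕ} {κ : Type} {h : κ → MvPolynomial (Fin N) k}
  {A : Fin 1 → Matrix (Fin n) (Fin n) (MvPolynomial (Fin N) k)}

theorem cst_self (E : Type) [Field E] [Algebra k E] :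
    Fa.Cst k E (Polynomial.X : Polynomial k) (0 : E) where
  monic := Polynomial.monic_X
  sep := Polynomial.separable_X
  root := by simp
  min := by
    intro p hp h0
    rw [Polynomial.degree_X] at hp
    have h1 := Polynomial.eq_C_of_degree_le_zero (Nat.WithBot.lt_one_iff_le_zero.1 hp)
    rw [h1, Polynomial.aeval_C] at h0
    rw [h1, show p.coeff 0 = 0 from h0, Polynomial.C_0]
  gen := fun y => ⟨Polynomial.C y, by simp⟩

/-- Relations on the base lift to the family. -/
theorem lift (e : k ≃+* ℝ) (hn : 3 ≤ n)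
    (hne : ∀ w : Fin N → k, w ≠ 0 → Zer h k w → ∃ x : Fin n → k, x ≠ 0 ∧ Zer2 h A k w x)
    {z : ℙ (AlgebraicClosure k) (Fin N → AlgebraicClosure k) →₀ ℤ}
    (hz : z ∈ ratEq (AlgebraicClosure k) h) :
    ∃ y ∈ ratEq2 (AlgebraicClosure k) h A, pushW (AlgebraicClosure k) y = z := by
  induction hz using AddSubgroup.closure_induction with
  | zero => exact ⟨0, zero_mem _, map_zero _⟩
  | add a b _ _ ha hb =>
    obtain ⟨y, hy, hyz⟩ := ha
    obtain ⟨y', hy', hyz'⟩ := hb
    exact ⟨y + y', add_mem hy hy', by rw [map_add, hyz, hyz']⟩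
  | neg a _ ha =>
    obtain ⟨y, hy, hyz⟩ := ha
    exact ⟨-y, neg_mem hy, by rw [map_neg, hyz]⟩
  | mem z hz =>
    obtain ⟨E, _, _, hE, g, w, hg, hw, hZ, hP⟩ := hz
    obtain ⟨p, hp, hpz⟩ := iso_fun e hE hn h (A 0) w hw hZ (fun w hw hZ => by
      obtain ⟨x, hx, hxz⟩ := hne w hw hZ
      exact ⟨x, hx, hxz.2 0⟩)
    obtain ⟨y, hy1, hy2⟩ := lift_push (cst_self (k := k) E) hE hP hp
    rw [Polynomial.natDegree_X, one_smul] at hy1
    refine ⟨y, AddSubgroup.subset_closure ⟨E, inferInstance, inferInstance, hE, g, w, p, hg, hw, hp,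
      ⟨hZ, fun i => ?_⟩, hy2⟩, hy1⟩
    rw [Fin.fin_one_eq_zero i]
    exact hpz

/-- Quadratic forms in at least two variables over an algebraically closed field have zeros. -/
theorem exists_zero_one {Ω : Type} [Field Ω] [IsAlgClosed Ω] (hn : 2 ≤ n)
    (B : Matrix (Fin n) (Fin n) Ω) : ∃ x : Fin n → Ω, x ≠ 0 ∧ dotProduct x (B.mulVec x) = 0 := by
  obtain ⟨x, hx, h0⟩ := exists_common_zero (ι := Fin 1) (σ := Fin n) (by simp; omega)
    (fun _ => ∑ i, ∑ j, MvPolynomial.C (B i j) * X i * X j : Fin 1 → MvPolynomial (Fin n) Ω)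
    (by intro i; simp)
  refine ⟨x, hx, ?_⟩
  have h1 := h0 0
  simp only [map_sum, map_mul, eval_C, eval_X] at h1
  rw [← h1]
  simp only [dotProduct, Matrix.mulVec, Finset.mul_sum]
  refine Finset.sum_congr rfl fun i _ => Finset.sum_congr rfl fun j _ => by ring

/-- Norms on the base lift to the family. -/
theorem lift_norm (hn : 2 ≤ n) (hA : ∀ i, ∃ e, ∀ a b, (A i a b).IsHomogeneous e)
    (hh : ∀ j, ∃ d, (h j).IsHomogeneous d)
    {z : ℙ (AlgebraicClosure k) (Fin N → AlgebraicClosure k) →₀ ℤ}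
    (hz : z ∈ normCyc (AlgebraicClosure k) h) :
    ∃ y ∈ nrm2 k h A, pushW (AlgebraicClosure k) y = z := by
  induction hz using AddSubgroup.closure_induction with
  | zero => exact ⟨0, zero_mem _, map_zero _⟩
  | add a b _ _ ha hb =>
    obtain ⟨y, hy, hyz⟩ := ha
    obtain ⟨y', hy', hyz'⟩ := hb
    exact ⟨y + y', add_mem hy hy', by rw [map_add, hyz, hyz']⟩
  | neg a _ ha =>
    obtain ⟨y, hy, hyz⟩ := ha
    exact ⟨-y, neg_mem hy, by rw [map_neg, hyz]⟩
  | mem z hz =>
    obtain ⟨P, hP, rfl⟩ := hz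
    obtain ⟨x, hx, hx0⟩ := exists_zero_one hn ((A 0).map (aeval P.rep))
    have h1 : Zer2 h A (AlgebraicClosure k) P.rep
        (Projectivization.mk (AlgebraicClosure k) x hx).rep := by
      have h2 := (zer2_mk_iff hh hA P.rep P.rep_nonzero x hx).2 ⟨hP, fun i => by
        rw [Fin.fin_one_eq_zero i]
        exact hx0⟩
      rwa [Projectivization.mk_rep] at h2
    set y : Pt2 (AlgebraicClosure k) N n := (P, Projectivization.mk _ x hx) with hy
    refine ⟨_, AddSubgroup.subset_closure ⟨y, h1, rfl⟩, ?_⟩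
    by_cases hfin : Finite (AlgebraicClosure k ≃ₐ[k] AlgebraicClosure k)
    · rw [AddMonoidHom.map_finsum _ (Set.toFinite _)]
      simp only [pushW_single]
      rfl
    · have : Infinite (AlgebraicClosure k ≃ₐ[k] AlgebraicClosure k) := not_finite_iff_infinite.1 hfin
      rw [finsum_of_infinite_support, finsum_of_infinite_support, map_zero]
      · have h3 : (Function.support fun σ : AlgebraicClosure k ≃ₐ[k] AlgebraicClosure k =>
            Finsupp.single (mapPt (σ : AlgebraicClosure k →+* AlgebraicClosure k) P) (1 : ℤ)) =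
            Set.univ := by
          rw [Set.eq_univ_iff_forall]
          intro σ
          rw [Function.mem_support, Ne, Finsupp.single_eq_zero]
          exact one_ne_zero
        rw [h3]
        exact Set.infinite_univ
      · have h3 : (Function.support fun σ : AlgebraicClosure k ≃ₐ[k] AlgebraicClosure k =>
            Finsupp.single (mapPt2 (σ : AlgebraicClosure k →+* AlgebraicClosure k) y) (1 : ℤ)) =
            Set.univ := by
          rw [Set.eq_univ_iff_forall]
          intro σ
          rw [Function.mem_support, Ne, Finsupp.single_eq_zero]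
          exact one_ne_zero
        rw [h3]
        exact Set.infinite_univ

theorem iso_zero (M : Type) [Field M] : Iso M 0 := by
  intro m hm A
  refine ⟨fun _ => 1, ?_, fun i => i.elim0⟩
  intro h1
  exact one_ne_zero (congrFun h1 ⟨0, by omega⟩)

theorem tr2_self (P : ℙ k (Fin N → k)) (Q : ℙ k (Fin n → k)) :
    ZCTr.tr2 k (AlgebraicClosure k) P Q = Finsupp.single
      (mapPt (algebraMap k (AlgebraicClosure k)) P, mapPt (algebraMap k (AlgebraicClosure k)) Q)
      1 := by
  unfold ZCTr.tr2 ZCTr.trG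
  rw [Fintype.sum_subsingleton _ (Algebra.ofId k (AlgebraicClosure k))]
  rfl

/-- Two points of the same fibre over `k` are rationally equivalent. -/
theorem join_one (hn : 3 ≤ n) {w : Fin N → k} (hw : w ≠ 0) {x x' : Fin n → k} (hx : x ≠ 0)
    (hx' : x' ≠ 0) (hz : Zer2 h A k w x) (hz' : Zer2 h A k w x') :
    Rl.cp h A (Rl.rp w hw x hx) = Rl.cp h A (Rl.rp w hw x' hx') := by
  have h1 := join2 (Ω := AlgebraicClosure k) (s := 0) h A hn (iso_zero k) w hw x x' hx hx' hz hz'
  rw [tr2_self, tr2_self] at h1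
  rw [Rl.cp, Rl.cp, QuotientAddGroup.eq_iff_sub_mem]
  exact AddSubgroup.mem_sup_left h1

/-- Norms are zero-cycles of the family. -/
theorem nrm2_le (e : k ≃+* ℝ) (hh : ∀ j, ∃ d, (h j).IsHomogeneous d)
    (hA : ∀ i, ∃ e, ∀ a b, (A i a b).IsHomogeneous e) :
    nrm2 k h A ≤ cyc2 (AlgebraicClosure k) h A := by
  classical
  have hch : CharZero k := charZero_of_injective_ringHom (f := e.symm.toRingHom) e.symm.injective
  have h2 : Module.finrank k (AlgebraicClosure k) = 2 := finrank_two k (AlgebraicClosure k) e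
  obtain ⟨s, hs, hs'⟩ := Ct.exists_conj (k := k) (Ω := AlgebraicClosure k) h2
  have hss : s * s = 1 := by
    rcases hs' (s * s) with h | h
    · exact h
    · exact absurd (mul_eq_left.1 h) hs
  set τ : Pt2 (AlgebraicClosure k) N n → Pt2 (AlgebraicClosure k) N n :=
    mapPt2 (s : AlgebraicClosure k →+* AlgebraicClosure k) with hτ
  have hττ : ∀ y, τ (τ y) = y := Rl.conj_conj hss
  refine (AddSubgroup.closure_le _).2 ?_
  rintro z ⟨y, hy, rfl⟩
  rw [Rl.norm_eq2 h2 hs hs' y]
  refine ⟨fun x hx => ?_, fun σ x => ?_⟩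
  · have h3 := Finsupp.support_add hx
    rcases Finset.mem_union.1 h3 with h4 | h4
    · have h5 : x = y := by simpa using Finsupp.support_single_subset h4
      rw [h5]
      exact hy
    · have h5 : x = τ y := by simpa using Finsupp.support_single_subset h4
      rw [h5]
      exact (zer2_mapPt_iff hh hA (s : AlgebraicClosure k →ₐ[k] AlgebraicClosure k) y).2 hy
  · rcases hs' σ with rfl | rfl
    · rw [Rl.mapPt2_one]
    · have h5 : (y = τ x) ↔ (τ y = x) :=
        ⟨fun h => by rw [h, hττ], fun h => by rw [← h, hττ]⟩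
      have h6 : (τ y = τ x) ↔ (y = x) :=
        ⟨fun h => by rw [← hττ y, h, hττ], fun h => by rw [h]⟩
      change (Finsupp.single y (1 : ℤ) + Finsupp.single (τ y) 1 : _ →₀ ℤ) (τ x) =
        (Finsupp.single y (1 : ℤ) + Finsupp.single (τ y) 1 : _ →₀ ℤ) x
      rw [Finsupp.add_apply, Finsupp.add_apply, Finsupp.single_apply, Finsupp.single_apply,
        Finsupp.single_apply, Finsupp.single_apply, if_congr h5 rfl rfl, if_congr h6 rfl rfl,
        add_comm]

/-- The multiplicity of a norm at a real point is even. -/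
theorem even_norm (e : k ≃+* ℝ) {f : κ → MvPolynomial (Fin N) k}
    {z : ℙ (AlgebraicClosure k) (Fin N → AlgebraicClosure k) →₀ ℤ}
    (hz : z ∈ normCyc (AlgebraicClosure k) f) (P : ℙ k (Fin N → k)) :
    Even (z (mapPt (algebraMap k (AlgebraicClosure k)) P)) := by
  classical
  have hch : CharZero k := charZero_of_injective_ringHom (f := e.symm.toRingHom) e.symm.injective
  have h2 : Module.finrank k (AlgebraicClosure k) = 2 := finrank_two k (AlgebraicClosure k) e
  obtain ⟨s, hs, hs'⟩ := Ct.exists_conj (k := k) (Ω := AlgebraicClosure k) h2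
  induction hz using AddSubgroup.closure_induction with
  | zero => simp
  | add a b _ _ ha hb => rw [Finsupp.add_apply]; exact ha.add hb
  | neg a _ ha => rw [Finsupp.neg_apply]; exact ha.neg
  | mem z hz =>
    obtain ⟨y, hy, rfl⟩ := hz
    rw [Ct.norm_eq h2 hs hs' y, Finsupp.add_apply, Finsupp.single_apply, Finsupp.single_apply]
    by_cases h3 : y = mapPt (algebraMap k (AlgebraicClosure k)) P
    · rw [if_pos h3, if_pos (by rw [h3, Ct.mapPt_alg])]
      exact ⟨1, rfl⟩
    · rw [if_neg h3, if_neg]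
      · exact ⟨0, rfl⟩
      · intro h4
        apply h3
        apply mapPt_injective (s : AlgebraicClosure k →+* AlgebraicClosure k)
        rw [h4, Ct.mapPt_alg]

/-- Zero-cycles with vanishing push-forward are equivalent to norms. -/
theorem ker (e : k ≃+* ℝ) (hn : 3 ≤ n) (hh : ∀ j, ∃ d, (h j).IsHomogeneous d)
    (hA : ∀ i, ∃ e, ∀ a b, (A i a b).IsHomogeneous e)
    {z : Pt2 (AlgebraicClosure k) N n →₀ ℤ} (hz : z ∈ cyc2 (AlgebraicClosure k) h A)
    (h0 : pushW (AlgebraicClosure k) z = 0) :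
    z ∈ ratEq2 (AlgebraicClosure k) h A ⊔ nrm2 k h A := by
  classical
  change z ∈ Rl.HH h A
  have hch : CharZero k := charZero_of_injective_ringHom (f := e.symm.toRingHom) e.symm.injective
  have h2 : Module.finrank k (AlgebraicClosure k) = 2 := finrank_two k (AlgebraicClosure k) e
  obtain ⟨s, hs, hs'⟩ := Ct.exists_conj (k := k) (Ω := AlgebraicClosure k) h2
  have hss : s * s = 1 := by
    rcases hs' (s * s) with h | h
    · exact h
    · exact absurd (mul_eq_left.1 h) hs
  set τ : Pt2 (AlgebraicClosure k) N n → Pt2 (AlgebraicClosure k) N n :=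
    mapPt2 (s : AlgebraicClosure k →+* AlgebraicClosure k) with hτ
  set zr := z.filter (fun y => τ y = y) with hzr
  have h3 : z - zr ∈ nrm2 k h A := by
    refine Rl.fix_part τ (Rl.conj_conj hss) (nrm2 k h A)
      (fun y => Zer2 h A (AlgebraicClosure k) y.1.rep y.2.rep) ?_ _ z le_rfl hz.1 (hz.2 s)
    intro y hy
    exact AddSubgroup.subset_closure ⟨y, hy, (Rl.norm_eq2 h2 hs hs' y).symm⟩
  -- the real points
  have hreal : ∀ y ∈ zr.support, ∃ (w : Fin N → k) (hw : w ≠ 0) (x : Fin n → k) (hx : x ≠ 0),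
      y = Rl.rp w hw x hx ∧ Zer2 h A k w x := by
    intro y hy
    rw [hzr, Finsupp.support_filter, Finset.mem_filter] at hy
    obtain ⟨w, hw, x, hx, rfl⟩ := Rl.exists_rp h2 hs' y hy.2
    exact ⟨w, hw, x, hx, rfl, (Rl.zer_rp hh hA hw hx).1 (hz.1 _ hy.1)⟩
  have hsum : ∀ P : ℙ (AlgebraicClosure k) (Fin N → AlgebraicClosure k),
      pushW (AlgebraicClosure k) zr P = ∑ y ∈ zr.support with y.1 = P, zr y := by
    intro P
    have h6 : pushW (AlgebraicClosure k) zr =
        ∑ y ∈ zr.support, Finsupp.single y.1 (zr y) := by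
      conv_lhs => rw [← Finsupp.sum_single zr]
      rw [Finsupp.sum, map_sum]
      simp only [pushW_single]
    rw [h6, Finsupp.finsetSum_apply, Finset.sum_filter]
    refine Finset.sum_congr rfl fun y _ => ?_
    rw [Finsupp.single_apply]
  -- the multiplicities are even
  have hev : ∀ y ∈ zr.support, Even (∑ y' ∈ zr.support with y'.1 = y.1, zr y') := by
    intro y hy
    obtain ⟨w, hw, x, hx, rfl, hzx⟩ := hreal y hy
    rw [← hsum]
    have h5 : pushW (AlgebraicClosure k) zr =
        pushW (AlgebraicClosure k) z - pushW (AlgebraicClosure k) (z - zr) := by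
      rw [← map_sub]
      congr 1
      abel
    rw [h5, h0, zero_sub, Finsupp.neg_apply]
    exact (even_norm e (pushW_norm h3) _).neg
  -- conclusion
  have h8 : (QuotientAddGroup.mk zr : (Pt2 (AlgebraicClosure k) N n →₀ ℤ) ⧸ Rl.HH h A) = 0 := by
    have h9 : (QuotientAddGroup.mk zr : (Pt2 (AlgebraicClosure k) N n →₀ ℤ) ⧸ Rl.HH h A) =
        ∑ y ∈ zr.support, zr y • Rl.cp h A y := by
      conv_lhs => rw [← Finsupp.sum_single zr]
      rw [Finsupp.sum]
      change (QuotientAddGroup.mk' (Rl.HH h A)) (∑ y ∈ zr.support, Finsupp.single y (zr y)) = _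
      rw [map_sum]
      refine Finset.sum_congr rfl fun y _ => ?_
      change _ = zr y • (QuotientAddGroup.mk' (Rl.HH h A)) (Finsupp.single y 1)
      rw [← map_zsmul, Finsupp.smul_single, smul_eq_mul, mul_one]
    rw [h9, ← Finset.sum_fiberwise_of_maps_to (s := zr.support)
      (t := zr.support.image (Prod.fst : Pt2 (AlgebraicClosure k) N n → _))
      (g := Prod.fst) (fun y hy => Finset.mem_image_of_mem _ hy)]
    refine Finset.sum_eq_zero fun c hc => ?_
    obtain ⟨y₀, hy₀, rfl⟩ := Finset.mem_image.1 hc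
    have hcp : ∀ y ∈ zr.support, y.1 = y₀.1 → Rl.cp h A y = Rl.cp h A y₀ := by
      intro y hy hy1
      obtain ⟨w, hw, x, hx, rfl, hzx⟩ := hreal y hy
      obtain ⟨w', hw', x', hx', rfl, hzx'⟩ := hreal y₀ hy₀
      have h10 : Projectivization.mk k w hw = Projectivization.mk k w' hw' :=
        mapPt_injective (algebraMap k (AlgebraicClosure k)) hy1
      rw [Projectivization.mk_eq_mk_iff'] at h10
      obtain ⟨a, ha⟩ := h10
      have ha0 : a ≠ 0 := by
        rintro rfl
        apply hw
        rw [← ha, zero_smul]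
      have h11 : Rl.rp w hw x hx = Rl.rp w' hw' x hx :=
        Rl.rp_congr (c := a) (d := 1) ha.symm (one_smul _ _).symm
      have h12 : Zer2 h A k w' x := by
        have h13 := hzx.smul hh hA a⁻¹ 1
        rwa [← ha, smul_smul, inv_mul_cancel₀ ha0, one_smul, one_smul] at h13
      rw [h11]
      exact join_one hn hw' hx hx' h12 hzx'
    have h10 : ∑ y ∈ zr.support with y.1 = y₀.1, zr y • Rl.cp h A y =
        (∑ y ∈ zr.support with y.1 = y₀.1, zr y) • Rl.cp h A y₀ := by
      have h14 := map_sum (zmultiplesHom _ (Rl.cp h A y₀)) (fun y => zr y)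
        (zr.support.filter fun y => y.1 = y₀.1)
      simp only [zmultiplesHom_apply] at h14
      rw [h14]
      refine Finset.sum_congr rfl fun y hy => ?_
      rw [hcp y (Finset.mem_filter.1 hy).1 (Finset.mem_filter.1 hy).2]
    rw [h10]
    obtain ⟨m, hm⟩ := hev y₀ hy₀
    have h11 : (2 : ℤ) • Rl.cp h A y₀ = 0 := by
      obtain ⟨w, hw, x, hx, rfl, hzx⟩ := hreal y₀ hy₀
      change (2 : ℤ) • (QuotientAddGroup.mk' (Rl.HH h A)) (Finsupp.single (Rl.rp w hw x hx) 1) = 0
      rw [← map_zsmul, Finsupp.smul_single, smul_eq_mul, mul_one]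
      exact (QuotientAddGroup.eq_zero_iff _).2
        (AddSubgroup.mem_sup_right (Rl.two_rp hh hA h2 hw hx hzx))
    rw [hm, ← two_mul, mul_comm, mul_smul, h11, smul_zero]
  have h12 := (QuotientAddGroup.eq_zero_iff _).1 h8
  have h13 : z = (z - zr) + zr := by abel
  rw [h13]
  exact add_mem (AddSubgroup.mem_sup_right h3) h12

/-- The push-forward is bijective modulo norms over a field isomorphic to `ℝ` if the fibres over the
real points of the base have real points. -/
theorem pfBijN_one (e : k ≃+* ℝ) (hn : 3 ≤ n) (hh : ∀ j, ∃ d, (h j).IsHomogeneous d)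
    (hA : ∀ i, ∃ e, ∀ a b, (A i a b).IsHomogeneous e)
    (hne : ∀ w : Fin N → k, w ≠ 0 → Zer h k w → ∃ x : Fin n → k, x ≠ 0 ∧ Zer2 h A k w x) :
    PfBijN k h A := by
  constructor
  · intro c
    obtain ⟨y, hy, hyn⟩ := Rl.sur_top e hh hA hne c.2
    refine ⟨⟨y, hy⟩, ?_⟩
    refine (QuotientAddGroup.eq_iff_sub_mem).2 ?_
    exact AddSubgroup.mem_sup_right hyn
  · intro c hc
    have h1 := (QuotientAddGroup.eq_zero_iff _).1 hc
    refine (QuotientAddGroup.eq_zero_iff _).2 ?_
    obtain ⟨a, ha, b, hb, hab⟩ := AddSubgroup.mem_sup.1 (AddSubgroup.mem_addSubgroupOf.1 h1)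
    obtain ⟨a', ha', haa⟩ := lift e hn hne ha
    obtain ⟨b', hb', hbb⟩ := lift_norm (A := A) (by omega) hA hh hb
    have h2 : c.1 - a' - b' ∈ cyc2 (AlgebraicClosure k) h A :=
      sub_mem (sub_mem (AddSubgroup.mem_inf.1 c.2).1 (ratEq2_le hh hA ha')) (nrm2_le e hh hA hb')
    have h3 := ker e hn hh hA h2 (by
      rw [map_sub, map_sub, haa, hbb, sub_sub, hab]
      exact sub_self _)
    refine AddSubgroup.mem_addSubgroupOf.2 ?_
    have h4 : c.1 = (c.1 - a' - b') + (a' + b') := by abel
    change c.1 ∈ _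
    rw [h4]
    exact add_mem h3 (add_mem (AddSubgroup.mem_sup_left ha') (AddSubgroup.mem_sup_right hb'))

end alg

end Rw
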