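import Pool.Agent.Lib.MP_f80667_ag.Rw.Core

/-! The theorem of Artin and Lang for function fields of one variable. -/

namespace Rw

open ZC Polynomial

private theorem al_alg {k M E : Type} [Field k] [Field M] [Algebra k M] [Field E] [Algebra M E]
    [Algebra k E] [IsScalarTower k M E] [Algebra.IsAlgebraic M E] {x : M}
    (hf : FiniteDimensional (IntermediateField.adjoin k {x}) M) :
    Algebra.IsAlgebraic (IntermediateField.adjoin k {algebraMap M E x}) E := by
  set K₁ := IntermediateField.adjoin k {x}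
  set K₂ := IntermediateField.adjoin k {algebraMap M E x} with hK₂
  have hmem : ∀ z ∈ K₁, algebraMap M E z ∈ K₂ := by
    intro z hz
    have h1 : (IsScalarTower.toAlgHom k M E) z ∈ K₁.map (IsScalarTower.toAlgHom k M E) :=
      ⟨z, hz, rfl⟩
    rw [IntermediateField.adjoin_map, Set.image_singleton] at h1
    exact h1
  let j : K₁ →+* K₂ := ((algebraMap M E).comp (algebraMap K₁ M)).codRestrict K₂
    fun z => hmem z z.2
  have hM : ∀ m : M, algebraMap M E m ∈ algebraicClosure K₂ E := by
    intro m
    rw [mem_algebraicClosure_iff]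
    have hm : IsAlgebraic K₁ m := Algebra.IsAlgebraic.isAlgebraic m
    exact hm.ringHom_of_comp_eq j (algebraMap M E) j.injective (by ext z; rfl)
  let j' : M →+* algebraicClosure K₂ E := (algebraMap M E).codRestrict (algebraicClosure K₂ E) hM
  refine ⟨fun w => ?_⟩
  have hw : IsAlgebraic M w := Algebra.IsAlgebraic.isAlgebraic w
  have hw' : IsAlgebraic (algebraicClosure K₂ E) w :=
    hw.ringHom_of_comp_eq j' (RingHom.id E) j'.injective (by ext z; rfl)
  exact hw'.restrictScalars K₂

private theorem al_prim {R K E : Type} [CommRing R] [IsDomain R] [Field K] [CharZero K]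
    [Algebra R K] [IsFractionRing R K] [Field E] [Algebra R E] [Algebra K E] [IsScalarTower R K E]
    [Algebra.IsAlgebraic K E] (T : Finset E) : ∃ y : E, IsIntegral R y ∧ ∃ h : R, h ≠ 0 ∧
      ∀ w ∈ T, ∃ g : R[X], algebraMap R E h * w = aeval y g := by
  classical
  set L := IntermediateField.adjoin K (T : Set E)
  have hL : FiniteDimensional K L :=
    IntermediateField.finiteDimensional_adjoin fun x _ => Algebra.IsIntegral.isIntegral x
  obtain ⟨α, hα⟩ := Field.exists_primitive_element K L
  have hal : IsAlgebraic R (α : E) := by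
    rw [IsFractionRing.isAlgebraic_iff R K E]
    exact Algebra.IsAlgebraic.isAlgebraic _
  have hinj : Function.Injective (algebraMap R E) := by
    rw [IsScalarTower.algebraMap_eq R K E]
    exact (algebraMap K E).injective.comp (IsFractionRing.injective R K)
  obtain ⟨r, hr, hy⟩ := hal.exists_integral_multiple
  have key : ∀ w ∈ T, ∃ b : R, b ≠ 0 ∧ ∃ g : R[X], algebraMap R E b * w = aeval (r • (α : E)) g := by
    intro w hw
    have hwL : w ∈ L := IntermediateField.subset_adjoin K _ hw
    have h1 : (⟨w, hwL⟩ : L) ∈ (IntermediateField.adjoin K {α}).toSubalgebra := by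
      rw [hα]
      trivial
    rw [IntermediateField.adjoin_simple_toSubalgebra_of_isAlgebraic
      (Algebra.IsAlgebraic.isAlgebraic α), Algebra.adjoin_singleton_eq_range_aeval] at h1
    obtain ⟨p, hp⟩ := h1
    have hp' : aeval (α : E) p = w := by
      have hp2 : aeval α p = (⟨w, hwL⟩ : L) := hp
      have := congrArg (algebraMap L E) hp2
      rw [← aeval_algebraMap_apply] at this
      exact this
    set rk : K := algebraMap R K r
    have hrk : rk ≠ 0 := by
      simpa [rk] using hr
    set q : K[X] := p.comp (C rk⁻¹ * X)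
    have hq : aeval (r • (α : E)) q = w := by
      rw [← hp', aeval_comp, map_mul, aeval_C, aeval_X, Algebra.smul_def,
        IsScalarTower.algebraMap_apply R K E, ← mul_assoc, ← map_mul, inv_mul_cancel₀ hrk, map_one,
        one_mul]
    obtain ⟨b, hb⟩ := IsLocalization.integerNormalization_map_to_map (nonZeroDivisors R) q
    refine ⟨b, nonZeroDivisors.coe_ne_zero b,
      IsLocalization.integerNormalization (nonZeroDivisors R) q, ?_⟩
    have h3 := aeval_map_algebraMap K (r • (α : E))
      (IsLocalization.integerNormalization (nonZeroDivisors R) q)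
    rw [← h3, hb, algebra_compatible_smul K (b : R) q, map_smul, hq, Algebra.smul_def,
      ← IsScalarTower.algebraMap_apply]
  choose! b hb0 g hg using key
  refine ⟨_, hy, ∏ w ∈ T, b w, Finset.prod_ne_zero_iff.2 hb0, fun w hw => ?_⟩
  obtain ⟨c, hc⟩ := Finset.dvd_prod_of_mem b hw
  refine ⟨C c * g w, ?_⟩
  rw [hc, map_mul, mul_right_comm, hg w hw, map_mul, aeval_C, mul_comm]

private theorem al_hom {k E : Type} [Field k] [Field E] [Algebra k E] [Algebra k[X] E]
    [IsScalarTower k k[X] E] [FaithfulSMul k[X] E] {y : E} (hy : IsIntegral k[X] y) {h : k[X]}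
    (hh : h ≠ 0) {t₀ y₀ : k} (h0 : h.eval t₀ ≠ 0)
    (hy0 : ((minpoly k[X] y).map (evalRingHom t₀)).IsRoot y₀) :
    ∃ (B : Type) (_ : CommRing B) (_ : Algebra k B) (a : B →ₐ[k] E) (b : B →ₐ[k] k),
      Function.Injective a ∧
      ∀ w : E, (∃ g : k[X][X], algebraMap k[X] E h * w = aeval y g) → ∃ β, a β = w := by
  set f := minpoly k[X] y with hf
  have hfa : f.eval₂ (IsScalarTower.toAlgHom k k[X] E) y = 0 := by
    have := minpoly.aeval k[X] y
    rw [aeval_def] at this
    exact this
  have hfb : f.eval₂ (aeval t₀ : k[X] →ₐ[k] k) y₀ = 0 := by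
    have h1 := hy0
    rw [IsRoot, eval_map] at h1
    have h2 : ((aeval t₀ : k[X] →ₐ[k] k) : k[X] →+* k) = evalRingHom t₀ := by
      ext <;> simp
    rw [h2]
    exact h1
  let a₀ : AdjoinRoot f →ₐ[k] E := AdjoinRoot.liftAlgHom f (IsScalarTower.toAlgHom k k[X] E) y hfa
  let b₀ : AdjoinRoot f →ₐ[k] k := AdjoinRoot.liftAlgHom f (aeval t₀ : k[X] →ₐ[k] k) y₀ hfb
  have ha₀ : ∀ g : k[X][X], a₀ (AdjoinRoot.mk f g) = aeval y g := by
    intro g
    rw [aeval_def]
    exact AdjoinRoot.lift_mk hfa g
  have hinj : Function.Injective a₀ := by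
    rw [injective_iff_map_eq_zero]
    intro c hc
    induction c using AdjoinRoot.induction_on with
    | ih g =>
      rw [ha₀] at hc
      rw [AdjoinRoot.mk_eq_zero]
      exact minpoly.isIntegrallyClosed_dvd hy hc
  have haof : ∀ p : k[X], a₀ (AdjoinRoot.of f p) = algebraMap k[X] E p := by
    intro p
    have := ha₀ (C p)
    rw [aeval_C] at this
    exact this
  have hbof : ∀ p : k[X], b₀ (AdjoinRoot.of f p) = p.eval t₀ := by
    intro p
    have : b₀ (AdjoinRoot.of f p) = aeval t₀ p := AdjoinRoot.lift_of hfb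
    rw [this, coe_aeval_eq_eval]
  have hau : IsUnit (a₀ (AdjoinRoot.of f h)) := by
    rw [haof, isUnit_iff_ne_zero]
    exact (map_ne_zero_iff _ (FaithfulSMul.algebraMap_injective k[X] E)).2 hh
  have hbu : IsUnit (b₀ (AdjoinRoot.of f h)) := by
    rw [hbof, isUnit_iff_ne_zero]
    exact h0
  have hau' : ∀ z : Submonoid.powers (AdjoinRoot.of f h), IsUnit (a₀ z) := by
    rintro ⟨_, n, rfl⟩
    simpa using hau.pow n
  have hbu' : ∀ z : Submonoid.powers (AdjoinRoot.of f h), IsUnit (b₀ z) := by
    rintro ⟨_, n, rfl⟩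
    simpa using hbu.pow n
  let a : Localization.Away (AdjoinRoot.of f h) →ₐ[k] E := IsLocalization.liftAlgHom hau'
  let b : Localization.Away (AdjoinRoot.of f h) →ₐ[k] k := IsLocalization.liftAlgHom hbu'
  have ha : ∀ c, a (algebraMap _ _ c) = a₀ c := fun c => IsLocalization.lift_eq _ c
  refine ⟨Localization.Away (AdjoinRoot.of f h), inferInstance, inferInstance, a, b, ?_, ?_⟩
  · rw [injective_iff_map_eq_zero]
    intro z hz
    obtain ⟨⟨c, s⟩, hc⟩ := IsLocalization.surj (Submonoid.powers (AdjoinRoot.of f h)) z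
    have h1 := congrArg a hc
    simp only [map_mul, hz, zero_mul, ha] at h1
    have h2 : c = 0 := hinj (by rw [← h1, map_zero])
    rw [h2, map_zero] at hc
    exact (IsLocalization.map_units _ s).mul_left_eq_zero.1 hc
  · rintro w ⟨g, hg⟩
    obtain ⟨u, hu⟩ := IsLocalization.Away.algebraMap_isUnit (S := Localization.Away (AdjoinRoot.of f h))
      (AdjoinRoot.of f h)
    have h1 : a u = algebraMap k[X] E h := by
      rw [hu, ha, haof]
    have h2 : a ((u⁻¹ : (Localization.Away (AdjoinRoot.of f h))ˣ) : Localization.Away (AdjoinRoot.of f h)) * algebraMap k[X] E h = 1 := by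
      rw [← h1, ← map_mul, Units.inv_mul, map_one]
    refine ⟨((u⁻¹ : (Localization.Away (AdjoinRoot.of f h))ˣ) : Localization.Away (AdjoinRoot.of f h)) * algebraMap _ _ (AdjoinRoot.mk f g), ?_⟩
    rw [map_mul, ha, ha₀, ← hg, ← mul_assoc, h2, one_mul]

/-- **Artin–Lang** in transcendence degree one: a finitely generated subalgebra of a function field
`M` of one variable over `k ≃ ℝ` has a homomorphism to `k` with the signs which are given by an
embedding of `M` in a real closed field. (Adjoin square roots `r_s` of `± s`, `s ∈ S`, inside `E`;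
`M' = k(t)(y)` with `t` a positive infinitesimal and `y` integral over `k[t]`; `core` gives
`k[t, 1/h][y] → k`.) -/
theorem artin_lang {k M : Type} [Field k] (e : k ≃+* ℝ) [Field M] [Algebra k M]
    (hM : IsFunField k M) {E : Type} [Field E] [Algebra M E] [Algebra.IsAlgebraic M E] (hE : RC E)
    (S : Finset M) : ∃ φ : Algebra.adjoin k (S : Set M) →ₐ[k] k,
      ∀ s (hs : s ∈ S), (s ≠ 0 → φ ⟨s, Algebra.subset_adjoin hs⟩ ≠ 0) ∧
        (IsSquare (algebraMap M E s) ↔ IsSquare (φ ⟨s, Algebra.subset_adjoin hs⟩)) := by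
  classical
  let : Algebra k E := ((algebraMap M E).comp (algebraMap k M)).toAlgebra
  have : IsScalarTower k M E := IsScalarTower.of_algebraMap_eq fun _ => rfl
  have : CharZero k := charZero_of_injective_ringHom (f := (e.symm : ℝ →+* k)) e.symm.injective
  have : CharZero E := charZero_of_injective_algebraMap (algebraMap k E).injective
  obtain ⟨tM, htM, hfin⟩ := hM
  have hx : Transcendental k (algebraMap M E tM) :=
    (transcendental_algebraMap_iff (algebraMap M E).injective).2 htM
  obtain ⟨t, ht, htr, hadj⟩ := exists_infml e hE hx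
  have halg : Algebra.IsAlgebraic (IntermediateField.adjoin k {t}) E := by
    rw [hadj]
    exact al_alg hfin
  -- the structures on `E`
  let : Algebra k[X] E := (aeval t : k[X] →ₐ[k] E).toRingHom.toAlgebra
  have hmap : ∀ p : k[X], algebraMap k[X] E p = aeval t p := fun _ => rfl
  have hinj : Function.Injective (algebraMap k[X] E) :=
    transcendental_iff_injective.1 htr
  have : IsScalarTower k k[X] E := IsScalarTower.of_algebraMap_eq fun c => by
    rw [hmap, Polynomial.algebraMap_eq, aeval_C]
  have : FaithfulSMul k[X] E := (faithfulSMul_iff_algebraMap_injective _ _).2 hinj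
  let : Algebra (RatFunc k) E := (IsFractionRing.lift hinj : RatFunc k →+* E).toAlgebra
  have : IsScalarTower k[X] (RatFunc k) E := IsScalarTower.of_algebraMap_eq fun p =>
    (IsFractionRing.lift_algebraMap hinj p).symm
  have : IsScalarTower k (RatFunc k) E := IsScalarTower.of_algebraMap_eq fun c => by
    rw [IsScalarTower.algebraMap_apply k k[X] (RatFunc k), ← IsScalarTower.algebraMap_apply k[X] (RatFunc k) E,
      ← IsScalarTower.algebraMap_apply k k[X] E]
  have : CharZero (RatFunc k) := charZero_of_injective_algebraMap (algebraMap k (RatFunc k)).injective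
  have : Algebra.IsAlgebraic (RatFunc k) E := by
    set F : RatFunc k →ₐ[k] E := IsScalarTower.toAlgHom k (RatFunc k) E
    have hle : IntermediateField.adjoin k {t} ≤ F.fieldRange := by
      rw [IntermediateField.adjoin_le_iff, Set.singleton_subset_iff]
      refine ⟨algebraMap k[X] (RatFunc k) X, ?_⟩
      change algebraMap (RatFunc k) E (algebraMap k[X] (RatFunc k) X) = t
      rw [← IsScalarTower.algebraMap_apply, hmap, aeval_X]
    refine ⟨fun w => ?_⟩
    have hw : IsAlgebraic (IntermediateField.adjoin k {t}) w := Algebra.IsAlgebraic.isAlgebraic w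
    have hw' : IsAlgebraic F.fieldRange w :=
      hw.ringHom_of_comp_eq (IntermediateField.inclusion hle) (RingHom.id E)
        (IntermediateField.inclusion hle).injective (by ext z; rfl)
    refine hw'.of_ringHom_of_comp_eq (F.rangeRestrict : RatFunc k →+* F.range) (RingHom.id E) ?_
      Function.injective_id (by ext z; rfl)
    exact AlgHom.rangeRestrict_surjective F
  -- square roots
  have hr : ∀ s : M, ∃ r : E, r ^ 2 = algebraMap M E s ∨ r ^ 2 = -algebraMap M E s := by
    intro s
    rcases hE.sq (algebraMap M E s) with ⟨r, hr⟩ | ⟨r, hr⟩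
    · exact ⟨r, Or.inl (by rw [hr, sq])⟩
    · exact ⟨r, Or.inr (by rw [hr, sq])⟩
  choose r hr using hr
  obtain ⟨y, hy, h, hh, hg⟩ := al_prim (R := k[X]) (K := RatFunc k)
    (S.image (algebraMap M E) ∪ S.image r ∪ S.image fun s => (algebraMap M E s)⁻¹)
  have hsep : ((minpoly k[X] y).map (algebraMap k[X] (RatFunc k))).Separable := by
    rw [← minpoly.isIntegrallyClosed_eq_field_fractions' (RatFunc k) hy]
    exact (minpoly.irreducible (Algebra.IsIntegral.isIntegral y)).separable
  have hroot : ((minpoly k[X] y).map (aeval t : k[X] →ₐ[k] E).toRingHom).IsRoot y := by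
    rw [IsRoot, eval_map]
    have := minpoly.aeval k[X] y
    rw [aeval_def] at this
    exact this
  obtain ⟨δ, hδ, hcore⟩ := core e hE ht htr (minpoly k[X] y) (minpoly.monic hy) hsep hroot
  obtain ⟨δ', hδ', hsgn⟩ := sgn e hE ht hh
  have hm : 0 < min δ δ' / 2 := by positivity
  have hm1 : min δ δ' / 2 < δ := (half_lt_self (lt_min hδ hδ')).trans_le (min_le_left _ _)
  have hm2 : min δ δ' / 2 < δ' := (half_lt_self (lt_min hδ hδ')).trans_le (min_le_right _ _)
  obtain ⟨y₀, hy₀⟩ := hcore (e.symm (min δ δ' / 2)) (by simpa using hm) (by simpa using hm1)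
  have h0 := (hsgn (e.symm (min δ δ' / 2)) (by simpa using hm) (by simpa using hm2)).1
  obtain ⟨B, _, _, a, b, ha, hab⟩ := al_hom hy hh h0 hy₀
  have hS : ∀ s ∈ S, ∃ β, a β = algebraMap M E s := fun s hs =>
    hab _ (hg _ (by simp only [Finset.mem_union, Finset.mem_image]; exact Or.inl (Or.inl ⟨s, hs, rfl⟩)))
  have hle : Algebra.adjoin k (S : Set M) ≤ a.range.comap (IsScalarTower.toAlgHom k M E) := by
    rw [Algebra.adjoin_le_iff]
    intro s hs
    exact hS s hs
  let ψ : Algebra.adjoin k (S : Set M) →ₐ[k] a.range :=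
    ((IsScalarTower.toAlgHom k M E).comp (Algebra.adjoin k (S : Set M)).val).codRestrict a.range
      fun z => hle z.2
  let φ : Algebra.adjoin k (S : Set M) →ₐ[k] k :=
    (b.comp ((AlgEquiv.ofInjective a ha).symm : a.range →ₐ[k] B)).comp ψ
  have hφ : ∀ (s : M) (hs : s ∈ S) (β : B), a β = algebraMap M E s →
      φ ⟨s, Algebra.subset_adjoin hs⟩ = b β := by
    intro s hs β hβ
    change b ((AlgEquiv.ofInjective a ha).symm (ψ ⟨s, Algebra.subset_adjoin hs⟩)) = b β
    congr 1
    rw [AlgEquiv.symm_apply_eq]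
    ext
    exact hβ.symm
  refine ⟨φ, fun s hs => ?_⟩
  obtain ⟨β, hβ⟩ := hS s hs
  obtain ⟨ρ, hρ⟩ := hab (r s) (hg _ (by
    simp only [Finset.mem_union, Finset.mem_image]; exact Or.inl (Or.inr ⟨s, hs, rfl⟩)))
  obtain ⟨ι, hι⟩ := hab (algebraMap M E s)⁻¹ (hg _ (by
    simp only [Finset.mem_union, Finset.mem_image]; exact Or.inr ⟨s, hs, rfl⟩))
  rw [hφ s hs β hβ]
  have hne : s ≠ 0 → b β ≠ 0 := by
    intro hs0 hb
    have h1 : β * ι = 1 := ha (by
      rw [map_mul, hβ, hι, map_one, mul_inv_cancel₀]
      exact (_root_.map_ne_zero _).2 hs0)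
    have h2 := congrArg b h1
    rw [map_mul, hb, zero_mul, map_one] at h2
    exact zero_ne_one h2
  refine ⟨hne, ?_⟩
  by_cases hs0 : s = 0
  · have h1 : β = 0 := ha (by rw [hβ, hs0, map_zero, map_zero])
    rw [h1, hs0, map_zero, map_zero]
    exact iff_of_true ⟨0, (mul_zero 0).symm⟩ ⟨0, (mul_zero 0).symm⟩
  · rcases hr s with h1 | h1
    · have h2 : ρ ^ 2 = β := ha (by rw [map_pow, hρ, hβ, h1])
      refine iff_of_true ⟨r s, by rw [← h1, sq]⟩ ⟨b ρ, by rw [← h2, map_pow, sq]⟩
    · have h2 : ρ ^ 2 = -β := ha (by rw [map_pow, hρ, map_neg, hβ, h1])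
      have h3 : b ρ ^ 2 = -b β := by rw [← map_pow, h2, map_neg]
      refine iff_of_false ?_ ?_
      · rintro ⟨q, hq⟩
        have hq0 : q ≠ 0 := by
          rintro rfl
          exact hs0 ((map_eq_zero (algebraMap M E)).1 (by rw [hq, mul_zero]))
        refine hE.neg_one ⟨r s / q, ?_⟩
        field_simp
        linear_combination hq - h1
      · rintro ⟨q, hq⟩
        have hq0 : q ≠ 0 := by
          rintro rfl
          exact hne hs0 (by rw [hq, mul_zero])
        refine (rc_real e).neg_one ⟨b ρ / q, ?_⟩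
        field_simp
        linear_combination hq - h3

end Rw
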