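import Mathlib

/-! The power sums of the roots of a monic polynomial specialise; the matrix of the traces. -/

namespace Rw

open Polynomial

universe u v

/-- The trace of a power of the root, by the remainders of the powers of `X`. -/
private theorem tr_eq {R : Type u} [CommRing R] (f : R[X]) (hf : f.Monic) (m : ℕ) :
    Algebra.trace R (AdjoinRoot f) (AdjoinRoot.root f ^ m) =
      ∑ i ∈ Finset.range f.natDegree, (X ^ (m + i) %ₘ f).coeff i := by
  classical
  rw [Algebra.trace_eq_matrix_trace (AdjoinRoot.powerBasis' hf).basis, Matrix.trace]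
  have h1 : (AdjoinRoot.powerBasis' hf).dim = f.natDegree := rfl
  have h2 : ∀ i : Fin (AdjoinRoot.powerBasis' hf).dim,
      (Algebra.leftMulMatrix (AdjoinRoot.powerBasis' hf).basis (AdjoinRoot.root f ^ m)).diag i =
        (X ^ (m + (i : ℕ)) %ₘ f).coeff i := by
    intro i
    rw [Matrix.diag_apply, Algebra.leftMulMatrix_eq_repr_mul, PowerBasis.basis_eq_pow]
    have h3 : AdjoinRoot.root f ^ m * (AdjoinRoot.powerBasis' hf).gen ^ (i : ℕ) =
        AdjoinRoot.mk f (X ^ (m + (i : ℕ))) := by
      rw [map_pow, AdjoinRoot.mk_X, pow_add]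
      rfl
    rw [h3]
    have h4 := AdjoinRoot.powerBasisAux'_repr_apply_to_fun hf
      (AdjoinRoot.mk f (X ^ (m + (i : ℕ)))) i
    rw [AdjoinRoot.modByMonicHom_mk] at h4
    exact h4
  rw [Finset.sum_congr rfl fun i _ => h2 i]
  exact Fin.sum_univ_eq_sum_range (fun i => (X ^ (m + i) %ₘ f).coeff i) f.natDegree

private theorem tr_map {R : Type u} [CommRing R] (f : R[X]) (hf : f.Monic)
    (L : Type v) [Field L] (φ : R →+* L) (m : ℕ) :
    Algebra.trace L (AdjoinRoot (f.map φ)) (AdjoinRoot.root (f.map φ) ^ m) =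
      φ (Algebra.trace R (AdjoinRoot f) (AdjoinRoot.root f ^ m)) := by
  rw [tr_eq f hf m, tr_eq (f.map φ) (hf.map φ) m, map_sum, hf.natDegree_map φ]
  refine Finset.sum_congr rfl fun i _ => ?_
  rw [← coeff_map, map_modByMonic φ hf, Polynomial.map_pow, map_X]

/-- The traces of the powers of the root of a monic polynomial are images of elements of the base
ring. (Use the trace over the base ring of `AdjoinRoot f`, with its power basis, or the companion
matrix, or Newton's identities.) -/
theorem trace_spec {R : Type u} [CommRing R] (f : R[X]) (hf : f.Monic) :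
    ∃ c : ℕ → R, ∀ (L : Type v) [Field L] (φ : R →+* L) (m : ℕ),
      Algebra.trace L (AdjoinRoot (f.map φ)) (AdjoinRoot.root (f.map φ) ^ m) = φ (c m) :=
  ⟨fun m => Algebra.trace R (AdjoinRoot f) (AdjoinRoot.root f ^ m),
    fun L _ φ m => tr_map f hf L φ m⟩

/-- An enumeration of the roots. -/
private theorem enum_roots {L : Type u} [Field L] [IsAlgClosed L] (g : L[X])
    (hs : g.Separable) :
    ∃ r : Fin g.natDegree → L, Function.Injective r ∧
      (Finset.univ.val.map r : Multiset L) = g.roots := by
  classical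
  have h1 : g.roots.Nodup := nodup_roots hs
  have h2 : Multiset.card g.roots = g.natDegree :=
    (splits_iff_card_roots.mp (IsAlgClosed.splits g))
  have h3 : g.roots.toFinset.card = g.natDegree := by
    rw [Multiset.toFinset_card_of_nodup h1, h2]
  obtain ⟨e⟩ : Nonempty (Fin g.natDegree ≃ g.roots.toFinset) :=
    ⟨(Finset.equivFinOfCardEq h3).symm⟩
  refine ⟨fun i => (e i : L), fun i j h => e.injective (Subtype.ext h), ?_⟩
  have h4 : (Finset.univ : Finset (Fin g.natDegree)).map
      (e.toEmbedding.trans (Function.Embedding.subtype _)) = g.roots.toFinset := by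
    ext x
    simp only [Finset.mem_map, Finset.mem_univ, true_and, Function.Embedding.trans_apply,
      Equiv.coe_toEmbedding, Function.Embedding.subtype_apply]
    constructor
    · rintro ⟨i, rfl⟩
      exact (e i).2
    · intro hx
      exact ⟨e.symm ⟨x, hx⟩, by rw [Equiv.apply_symm_apply]⟩
  have h5 := congrArg Finset.val h4
  rw [Finset.map_val, Multiset.toFinset_val, Multiset.dedup_eq_self.mpr h1] at h5
  exact h5

/-- The trace of a power of the root is the sum of the powers of the roots of the polynomial.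
(`AdjoinRoot g` is isomorphic to the algebra of functions on the set of roots.) -/
theorem trace_roots {L : Type u} [Field L] [IsAlgClosed L] (g : L[X]) (hg : g.Monic)
    (hs : g.Separable) (m : ℕ) :
    Algebra.trace L (AdjoinRoot g) (AdjoinRoot.root g ^ m) = (g.roots.map fun x => x ^ m).sum := by
  classical
  obtain ⟨r, hr, hrr⟩ := enum_roots g hs
  have hroot : ∀ k, g.eval (r k) = 0 := by
    intro k
    have : r k ∈ g.roots := by
      rw [← hrr]
      exact Multiset.mem_map_of_mem r (Finset.mem_univ_val k)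
    exact (mem_roots'.mp this).2
  rw [tr_eq g hg m]
  set V : Matrix (Fin g.natDegree) (Fin g.natDegree) L := Matrix.vandermonde r with hV
  have hdet : IsUnit V.det := isUnit_iff_ne_zero.mpr (Matrix.det_vandermonde_ne_zero_iff.mpr hr)
  let M : Matrix (Fin g.natDegree) (Fin g.natDegree) L :=
    Matrix.of fun i j => (X ^ (m + (j : ℕ)) %ₘ g).coeff (i : ℕ)
  have hVM : V * M = Matrix.diagonal (fun k => r k ^ m) * V := by
    ext k j
    rw [Matrix.diagonal_mul, Matrix.mul_apply]
    have h1 : (X ^ (m + (j : ℕ)) %ₘ g).eval (r k) = r k ^ (m + (j : ℕ)) := by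
      have h2 := modByMonic_add_div (X ^ (m + (j : ℕ)) : L[X]) g
      have h3 := congrArg (eval (r k)) h2
      rw [eval_add, eval_mul, hroot k, zero_mul, add_zero, eval_pow, eval_X] at h3
      exact h3
    have h4 : (X ^ (m + (j : ℕ)) %ₘ g).eval (r k) =
        ∑ i ∈ Finset.range g.natDegree, (X ^ (m + (j : ℕ)) %ₘ g).coeff i * r k ^ i := by
      by_cases h1g : g = 1
      · subst h1g
        simp
      · exact eval_eq_sum_range' (natDegree_modByMonic_lt _ hg h1g) (r k)
    have h5 : ∑ i : Fin g.natDegree, V k i * M i j =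
        ∑ i ∈ Finset.range g.natDegree, (X ^ (m + (j : ℕ)) %ₘ g).coeff i * r k ^ i := by
      rw [← Fin.sum_univ_eq_sum_range
        (fun i => (X ^ (m + (j : ℕ)) %ₘ g).coeff i * r k ^ i) g.natDegree]
      refine Finset.sum_congr rfl fun i _ => ?_
      rw [hV, Matrix.vandermonde_apply, mul_comm]
      rfl
    rw [h5, ← h4, h1, hV, Matrix.vandermonde_apply, pow_add]
  have hM : M = V⁻¹ * (Matrix.diagonal (fun k => r k ^ m) * V) := by
    rw [← hVM, ← Matrix.mul_assoc, Matrix.nonsing_inv_mul V hdet, Matrix.one_mul]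
  have htr : M.trace = ∑ k, r k ^ m := by
    rw [hM, Matrix.trace_mul_comm, Matrix.mul_assoc, Matrix.mul_nonsing_inv V hdet,
      Matrix.mul_one, Matrix.trace_diagonal]
  have htr2 : M.trace = ∑ i ∈ Finset.range g.natDegree, (X ^ (m + i) %ₘ g).coeff i := by
    rw [← Fin.sum_univ_eq_sum_range (fun i => (X ^ (m + i) %ₘ g).coeff i) g.natDegree]
    rfl
  rw [← htr2, htr, ← hrr, Multiset.map_map]
  rfl

/-- The trace form is nondegenerate for separable polynomials. (Over an algebraic closure its matrix
is `Vᵀ V` with the Vandermonde matrix `V` of the roots.) -/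
theorem trace_det {L : Type u} [Field L] (g : L[X]) (hg : g.Monic) (hs : g.Separable) :
    (Matrix.of fun i j : Fin g.natDegree =>
      Algebra.trace L (AdjoinRoot g) (AdjoinRoot.root g ^ ((i : ℕ) + j))).det ≠ 0 := by
  classical
  set Ω := AlgebraicClosure L
  set φ : L →+* Ω := algebraMap L Ω
  intro h0
  have hs' : (g.map φ).Separable := hs.map
  obtain ⟨r, hr, hrr⟩ := enum_roots (g.map φ) hs'
  have hn : (g.map φ).natDegree = g.natDegree := hg.natDegree_map φ
  have h1 : (φ.mapMatrix (Matrix.of fun i j : Fin g.natDegree =>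
      Algebra.trace L (AdjoinRoot g) (AdjoinRoot.root g ^ ((i : ℕ) + j)))).det = 0 := by
    rw [← RingHom.map_det, h0, map_zero]
  have h2 : φ.mapMatrix (Matrix.of fun i j : Fin g.natDegree =>
      Algebra.trace L (AdjoinRoot g) (AdjoinRoot.root g ^ ((i : ℕ) + j))) =
        ((Matrix.vandermonde r).transpose * Matrix.vandermonde r).submatrix
          (finCongr hn.symm) (finCongr hn.symm) := by
    ext i j
    rw [RingHom.mapMatrix_apply, Matrix.map_apply, Matrix.of_apply, Matrix.submatrix_apply,
      Matrix.vandermonde_transpose_mul_vandermonde, ← tr_map g hg Ω φ,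
      trace_roots (g.map φ) (hg.map φ) hs', ← hrr, Multiset.map_map]
    rfl
  rw [h2, Matrix.det_submatrix_equiv_self, Matrix.det_mul, Matrix.det_transpose] at h1
  exact (Matrix.det_vandermonde_ne_zero_iff.mpr hr) (mul_self_eq_zero.mp h1)

end Rw
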