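import Pool.Agent.Lib.MP_f80667_ag.Rw.Fta
import Pool.Agent.Lib.MP_f80667_ag.Rw.Trs

/-! Hermite's form. -/

namespace Rw

open QuadraticAlgebra

section ev

variable {E : Type} [Field E] {d : ℕ}

/-- The value of the polynomial with the coefficients `u` at `z`. -/
private noncomputable def ev (d : ℕ) (z : QuadraticAlgebra E (-1) 0) :
    (Fin d → E) →ₗ[E] QuadraticAlgebra E (-1) 0 :=
  ∑ i : Fin d, (LinearMap.proj i).smulRight (z ^ (i : ℕ))

private theorem ev_apply (z : QuadraticAlgebra E (-1) 0) (u : Fin d → E) :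
    ev d z u = ∑ i, u i • z ^ (i : ℕ) := by
  simp [ev]

private theorem ev_star (z : QuadraticAlgebra E (-1) 0) (u : Fin d → E) :
    ev d (star z) u = star (ev d z u) := by
  rw [ev_apply, ev_apply, star_sum]
  refine Finset.sum_congr rfl fun i _ => ?_
  have h := star_pow z (i : ℕ)
  rw [← h]
  generalize z ^ (i : ℕ) = w
  ext <;> simp

private theorem star_alg (x : E) : star (algebraMap E (QuadraticAlgebra E (-1) 0) x) =
    algebraMap E (QuadraticAlgebra E (-1) 0) x := by
  ext <;> simp

private theorem re_sq (w : QuadraticAlgebra E (-1) 0) : (w ^ 2).re = w.re ^ 2 - w.im ^ 2 := by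
  rw [sq, re_mul]
  ring

private theorem ev_im [CharZero E] (z : QuadraticAlgebra E (-1) 0) (hz : z.im = 0)
    (u : Fin d → E) : (ev d z u).im = 0 := by
  have h : star z = z := by
    ext <;> simp [hz]
  have h1 := ev_star z u
  rw [h] at h1
  have h2 := congrArg QuadraticAlgebra.im h1
  rw [im_star] at h2
  have h3 : (2 : E) * (ev d z u).im = 0 := by linear_combination h2
  exact (mul_eq_zero.1 h3).resolve_left two_ne_zero

private theorem sum_sq (z : QuadraticAlgebra E (-1) 0) (u : Fin d → E) :
    ∑ i : Fin d, ∑ j : Fin d, (u i * u j) • z ^ ((i : ℕ) + j) = ev d z u ^ 2 := by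
  rw [ev_apply, sq, Finset.sum_mul_sum]
  refine Finset.sum_congr rfl fun i _ => Finset.sum_congr rfl fun j _ => ?_
  rw [pow_add, smul_mul_smul_comm]

end ev

/-- Over a real closed field the trace form of `E[X]/(f)` is a sum of `r` squares (`r` the number of
roots in `E`) and of `s` differences of two squares, `deg f = r + 2 s`: over `E(i)` the trace of
`u(root)²` is the sum of `u(λ)²` over the roots `λ`; `2` is a square in `E`. -/
theorem hermite {E : Type} [Field E] [CharZero E] (hE : RC E) (f : Polynomial E) (hf : f.Monic)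
    (hsep : f.Separable) : ∃ (r s : ℕ) (l : Fin r → (Fin f.natDegree → E) →ₗ[E] E)
      (p q : Fin s → (Fin f.natDegree → E) →ₗ[E] E), f.natDegree = r + 2 * s ∧
      ((∃ x, f.IsRoot x) ↔ 0 < r) ∧
      ∀ u : Fin f.natDegree → E, ∑ i : Fin f.natDegree, ∑ j : Fin f.natDegree, u i * u j *
        (Algebra.trace E (AdjoinRoot f) (AdjoinRoot.root f ^ ((i : ℕ) + j))) =
        ∑ a, l a u ^ 2 + ∑ b, p b u ^ 2 - ∑ b, q b u ^ 2 := by
  classical
  have hfact : Fact (∀ r : E, r ^ 2 ≠ -1 + 0 * r) :=
    ⟨fun r h => hE.neg_one ⟨r, by linear_combination -h⟩⟩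
  have hac : IsAlgClosed (QuadraticAlgebra E (-1) 0) :=
    RC.isAlgClosed hE omega (by rw [sq, omega_mul_omega_eq_mk]; ext <;> simp)
      fun z => ⟨z.re, z.im, by ext <;> simp⟩
  set K := QuadraticAlgebra E (-1) 0 with hK
  set φ : E →+* K := algebraMap E K with hφ
  have hφinj : Function.Injective φ := φ.injective
  set g := f.map φ with hg
  have gm : g.Monic := hf.map φ
  have gs : g.Separable := hsep.map
  have gd : g.natDegree = f.natDegree := hf.natDegree_map φ
  have hnd : g.roots.Nodup := Polynomial.nodup_roots gs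
  have hcard : g.roots.card = f.natDegree := by
    rw [← gd]
    exact (IsAlgClosed.splits g).natDegree_eq_card_roots.symm
  set S := g.roots.toFinset with hS
  have hSc : S.card = f.natDegree := by
    rw [hS, Multiset.toFinset_card_of_nodup hnd, hcard]
  have memS : ∀ z : K, z ∈ S ↔ g.IsRoot z := fun z => by
    rw [hS, Multiset.mem_toFinset, Polynomial.mem_roots gm.ne_zero]
  have hstar : ∀ z ∈ S, star z ∈ S := by
    intro z hz
    rw [memS] at hz ⊢
    have h1 : star (Polynomial.eval z g) = Polynomial.eval (star z) g := by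
      rw [hg, Polynomial.eval_map, Polynomial.eval_map, Polynomial.eval₂_eq_sum_range,
        Polynomial.eval₂_eq_sum_range, star_sum]
      refine Finset.sum_congr rfl fun i _ => ?_
      rw [StarMul.star_mul, star_pow, mul_comm]
      rw [hφ, star_alg]
    rw [Polynomial.IsRoot, ← h1, hz]
    exact star_zero _
  -- the decomposition of the set of the roots
  set Sr := S.filter fun z => z.im = 0 with hSr
  set T := S.filter fun z => ¬ z.im = 0 with hT
  set Sp := T.filter fun z => IsSquare z.im with hSp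
  set Sn := T.filter fun z => ¬ IsSquare z.im with hSn
  have hpn : ∀ z ∈ Sp, star z ∈ Sn := by
    intro z hz
    simp only [hSp, hSn, hT, Finset.mem_filter] at hz ⊢
    obtain ⟨⟨h1, h2⟩, a, ha⟩ := hz
    refine ⟨⟨hstar z h1, by rwa [im_star, neg_eq_zero]⟩, ?_⟩
    rintro ⟨b, hb⟩
    rw [im_star] at hb
    have ha0 : a ≠ 0 := by
      rintro rfl
      exact h2 (by rw [ha, mul_zero])
    refine hE.neg_one ⟨b / a, ?_⟩
    field_simp
    linear_combination hb + ha
  have hnp : ∀ z ∈ Sn, star z ∈ Sp := by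
    intro z hz
    simp only [hSp, hSn, hT, Finset.mem_filter] at hz ⊢
    obtain ⟨⟨h1, h2⟩, h3⟩ := hz
    refine ⟨⟨hstar z h1, by rwa [im_star, neg_eq_zero]⟩, ?_⟩
    rw [im_star]
    exact (hE.sq z.im).resolve_left h3
  have hsum : ∀ {A : Type} [AddCommMonoid A] (F : K → A), ∑ z ∈ S, F z =
      ∑ z ∈ Sr, F z + (∑ z ∈ Sp, F z + ∑ z ∈ Sp, F (star z)) := by
    intro A _ F
    have h1 := Finset.sum_filter_add_sum_filter_not S (fun z => z.im = 0) F
    have h2 := Finset.sum_filter_add_sum_filter_not T (fun z => IsSquare z.im) F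
    rw [← h1, ← h2]
    congr 2
    refine Finset.sum_nbij' star star hnp hpn (fun z _ => star_star z) (fun z _ => star_star z)
      fun z _ => ?_
    rw [star_star]
  -- the trace form
  obtain ⟨c, hc⟩ := trace_spec f hf
  have hc1 : ∀ m, Algebra.trace E (AdjoinRoot f) (AdjoinRoot.root f ^ m) = c m := by
    intro m
    have h := hc E (RingHom.id E) m
    rw [Polynomial.map_id] at h
    exact h
  have hc2 : ∀ m, φ (c m) = ∑ z ∈ S, z ^ m := by
    intro m
    rw [← hc K φ m, trace_roots g gm gs m, Finset.sum, hS, Multiset.toFinset_val,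
      Multiset.dedup_eq_self.2 hnd]
  have main : ∀ u : Fin f.natDegree → E, ∑ i : Fin f.natDegree, ∑ j : Fin f.natDegree, u i * u j *
      (Algebra.trace E (AdjoinRoot f) (AdjoinRoot.root f ^ ((i : ℕ) + j))) =
      ∑ z ∈ S, ((ev f.natDegree z u).re ^ 2 - (ev f.natDegree z u).im ^ 2) := by
    intro u
    have h1 : φ (∑ i : Fin f.natDegree, ∑ j : Fin f.natDegree, u i * u j *
        (Algebra.trace E (AdjoinRoot f) (AdjoinRoot.root f ^ ((i : ℕ) + j)))) =
        ∑ z ∈ S, ev f.natDegree z u ^ 2 := by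
      simp only [map_sum, map_mul, hc1, hc2]
      simp only [← sum_sq]
      rw [Finset.sum_comm (s := S)]
      refine Finset.sum_congr rfl fun i _ => ?_
      rw [Finset.sum_comm (s := S)]
      refine Finset.sum_congr rfl fun j _ => ?_
      rw [Finset.mul_sum]
      refine Finset.sum_congr rfl fun z _ => ?_
      rw [Algebra.smul_def, map_mul]
    have h2 := congrArg (reₗ (-1 : E) 0) h1
    have h3 : ∀ x : E, reₗ (-1 : E) 0 (φ x) = x := fun x => rfl
    rw [h3, map_sum] at h2
    rw [h2]
    exact Finset.sum_congr rfl fun z _ => re_sq _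
  obtain ⟨t, ht⟩ := hE.add 1 1
  have ht2 : t ^ 2 = 2 := by linear_combination -ht
  have hcd := hsum (fun _ => (1 : ℕ))
  simp only [Finset.sum_const, smul_eq_mul, mul_one] at hcd
  refine ⟨Sr.card, Sp.card, fun a => (reₗ (-1 : E) 0).comp (ev f.natDegree (Sr.equivFin.symm a)),
    fun b => t • (reₗ (-1 : E) 0).comp (ev f.natDegree (Sp.equivFin.symm b)),
    fun b => t • (imₗ (-1 : E) 0).comp (ev f.natDegree (Sp.equivFin.symm b)), by omega, ?_, ?_⟩
  · rw [Finset.card_pos]
    constructor
    · rintro ⟨x, hx⟩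
      refine ⟨φ x, ?_⟩
      rw [hSr, Finset.mem_filter, memS]
      exact ⟨Polynomial.IsRoot.map hx, rfl⟩
    · rintro ⟨z, hz⟩
      rw [hSr, Finset.mem_filter, memS] at hz
      refine ⟨z.re, ?_⟩
      have h1 : z = φ z.re := by
        apply QuadraticAlgebra.ext
        · rfl
        · exact hz.2
      rw [h1] at hz
      exact Polynomial.IsRoot.of_map hz.1 hφinj
  · intro u
    have e1 : ∀ (W : Finset K) (F : K → E), ∑ a : Fin W.card, F (W.equivFin.symm a) =
        ∑ z ∈ W, F z := by
      intro W F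
      rw [← Finset.sum_coe_sort W F]
      exact Equiv.sum_comp W.equivFin.symm fun z : W => F z
    simp only [LinearMap.comp_apply, LinearMap.smul_apply, smul_eq_mul]
    rw [e1 Sr fun z => (reₗ (-1 : E) 0 (ev f.natDegree z u)) ^ 2,
      e1 Sp fun z => (t * reₗ (-1 : E) 0 (ev f.natDegree z u)) ^ 2,
      e1 Sp fun z => (t * imₗ (-1 : E) 0 (ev f.natDegree z u)) ^ 2, main, hsum,
      add_sub_assoc, ← Finset.sum_sub_distrib, ← Finset.sum_add_distrib]
    congr 1
    · refine Finset.sum_congr rfl fun z hz => ?_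
      rw [hSr, Finset.mem_filter] at hz
      rw [ev_im z hz.2]
      change _ = (ev f.natDegree z u).re ^ 2
      ring
    · refine Finset.sum_congr rfl fun z _ => ?_
      rw [ev_star, re_star, im_star]
      change _ = (t * (ev f.natDegree z u).re) ^ 2 - (t * (ev f.natDegree z u).im) ^ 2
      linear_combination -((ev f.natDegree z u).re ^ 2 - (ev f.natDegree z u).im ^ 2) * ht2

end Rw
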