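import Pool.Agent.Lib.MP_f80667_ag.Rw.Defs

/-! Fields isomorphic to the real numbers are real closed. -/

namespace Rw

theorem rc_real {k : Type} [Field k] (e : k ≃+* ℝ) : RC k := by
  have hsq : ∀ x : k, IsSquare x ↔ IsSquare (e x) := fun x =>
    ⟨fun h => h.map e, fun h => by simpa using h.map e.symm⟩
  refine ⟨?_, ?_, ?_, ?_⟩
  · rw [hsq, map_neg, map_one, Real.isSquare_iff]
    norm_num
  · intro x
    rw [hsq, hsq, map_neg, Real.isSquare_iff, Real.isSquare_iff]
    rcases le_total 0 (e x) with h | h
    · exact Or.inl h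
    · exact Or.inr (by linarith)
  · intro x y
    rw [hsq, map_add, map_pow, map_pow, Real.isSquare_iff]
    positivity
  · intro f hf hodd
    have h1 : Irreducible (f.map (e : k →+* ℝ)) := by
      have := (MulEquiv.irreducible_iff (Polynomial.mapEquiv e)).2 hf
      simpa using this
    have h2 := h1.natDegree_le_two
    rw [Polynomial.natDegree_map] at h2
    obtain ⟨m, hm⟩ := hodd
    omega

end Rw
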