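import Pool.Agent.Lib.MP_f80667_ag.Rw.Defs

/-! Sylvester's law of inertia over real closed fields. -/

namespace Rw

theorem RC.isSquare_sum {E : Type} [Field E] (hE : RC E) {ι : Type*} (S : Finset ι) (f : ι → E)
    (hf : ∀ i ∈ S, IsSquare (f i)) : IsSquare (∑ i ∈ S, f i) := by
  classical
  induction S using Finset.induction_on with
  | empty => simp
  | insert a S ha ih =>
    rw [Finset.sum_insert ha]
    obtain ⟨x, hx⟩ := hf a (Finset.mem_insert_self a S)
    obtain ⟨y, hy⟩ := ih fun i hi => hf i (Finset.mem_insert_of_mem hi)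
    rw [hx, hy, ← pow_two, ← pow_two]
    exact hE.add x y

theorem RC.eq_zero_of_add {E : Type} [Field E] (hE : RC E) {a b : E} (ha : IsSquare a)
    (hb : IsSquare b) (h : a + b = 0) : a = 0 := by
  obtain ⟨x, rfl⟩ := ha
  obtain ⟨y, rfl⟩ := hb
  by_contra hx
  have hx' : x ≠ 0 := fun h0 => hx (by rw [h0, mul_zero])
  refine hE.neg_one ⟨y / x, ?_⟩
  field_simp
  linear_combination -h

/-- A form which is a sum of squares minus `s` squares has at most `s` negative coefficients in a
diagonalisation. (The span of the corresponding vectors meets the common kernel of the `q b` only in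
`0`, since the form is `≤ 0` on the first and `≥ 0` on the second; use `hE.add`, `hE.neg_one`.) -/
theorem syl {E : Type} [Field E] [CharZero E] (hE : RC E) {d a s : ℕ} (Q : (Fin d → E) → E)
    (l : Fin a → (Fin d → E) →ₗ[E] E) (q : Fin s → (Fin d → E) →ₗ[E] E)
    (hQ : ∀ u, Q u = ∑ b, l b u ^ 2 - ∑ b, q b u ^ 2) (P : Matrix (Fin d) (Fin d) E)
    (hP : IsUnit P.det) (β : Fin d → E) (hβ : ∀ u, Q (P.mulVec u) = ∑ i, β i * u i ^ 2)
    (hβ0 : ∀ i, β i ≠ 0) : Nat.card {i // ¬ IsSquare (β i)} ≤ s := by
  classical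
  by_contra hlt
  rw [not_le, Nat.card_eq_fintype_card] at hlt
  let ex : ({i // ¬ IsSquare (β i)} → E) →ₗ[E] (Fin d → E) :=
    { toFun := fun w i => if h : ¬ IsSquare (β i) then w ⟨i, h⟩ else 0
      map_add' := fun w v => by
        funext i
        by_cases h : IsSquare (β i) <;> simp [h]
      map_smul' := fun c w => by
        funext i
        by_cases h : IsSquare (β i) <;> simp [h] }
  let T : ({i // ¬ IsSquare (β i)} → E) →ₗ[E] (Fin s → E) :=
    LinearMap.pi fun b => (q b).comp ((Matrix.mulVecLin P).comp ex)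
  have hker : ∃ w, w ≠ 0 ∧ T w = 0 := by
    by_contra hno
    push Not at hno
    have hinj : Function.Injective T := by
      rw [injective_iff_map_eq_zero]
      intro w hw
      by_contra hw0
      exact hno w hw0 hw
    have := LinearMap.finrank_le_finrank_of_injective hinj
    rw [Module.finrank_fintype_fun_eq_card, Module.finrank_fintype_fun_eq_card, Fintype.card_fin]
      at this
    omega
  obtain ⟨w, hw0, hw⟩ := hker
  set u := ex w with hu
  have hq : ∀ b, q b (P.mulVec u) = 0 := fun b => congrFun hw b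
  have h1 := hβ u
  rw [hQ] at h1
  simp only [hq] at h1
  have hsum : ∑ i, (-β i * u i ^ 2) + ∑ b, l b (P.mulVec u) ^ 2 = 0 := by
    have e : ∑ i, (-β i * u i ^ 2) = -∑ i, β i * u i ^ 2 := by
      rw [← Finset.sum_neg_distrib]
      exact Finset.sum_congr rfl fun i _ => by ring
    rw [e, ← h1]
    simp
  have hsqi : ∀ i, IsSquare (-β i * u i ^ 2) := by
    intro i
    by_cases h : IsSquare (β i)
    · have : u i = 0 := by
        rw [hu]
        simp [ex, h]
      rw [this]
      simp
    · rcases hE.sq (β i) with h' | h'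
      · exact absurd h' h
      · exact h'.mul (IsSquare.sq _)
  have hz := hE.eq_zero_of_add (hE.isSquare_sum _ _ fun i _ => hsqi i)
    (hE.isSquare_sum _ _ fun b _ => IsSquare.sq _) hsum
  obtain ⟨⟨i, hi⟩, hwi⟩ := Function.ne_iff.mp hw0
  have hui : u i ≠ 0 := by
    rw [hu]
    simpa [ex, hi] using hwi
  rw [← Finset.add_sum_erase _ _ (Finset.mem_univ i)] at hz
  have := hE.eq_zero_of_add (hsqi i) (hE.isSquare_sum _ _ fun j _ => hsqi j) hz
  rcases mul_eq_zero.mp this with h | h
  · exact hβ0 i (neg_eq_zero.mp h)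
  · exact hui (pow_eq_zero_iff (two_ne_zero) |>.mp h)

end Rw
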