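import Pool.Agent.Lib.MP_f80667_ag.Rw.Sgn
import Pool.Agent.Lib.MP_f80667_ag.Rw.Syl
import Pool.Agent.Lib.MP_f80667_ag.Rw.Herm
import Pool.Agent.Lib.MP_f80667_ag.Rw.Trs
import Pool.Agent.Lib.MP_f80667_ag.Rw.Rcr
import Pool.Agent.Lib.MP_f80667_ag.Hm.Frm5C

/-! Roots of polynomials with a positive infinitesimal parameter. -/

namespace Rw

open Polynomial Matrix

/-- The number of negative coefficients decides whether there is a root. -/
private theorem root_iff {k L : Type} [Field k] [Field L] [CharZero L] (hL : RC L) (f : k[X][X])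
    (hf : f.Monic) (c : ℕ → k[X])
    (P : Matrix (Fin f.natDegree) (Fin f.natDegree) k[X]) (β : Fin f.natDegree → k[X])
    (hP : Pᵀ * (Matrix.of fun i j : Fin f.natDegree => c ((i : ℕ) + j)) * P = Matrix.diagonal β)
    (φ : k[X] →+* L)
    (hc : ∀ m : ℕ, Algebra.trace L (AdjoinRoot (f.map φ)) (AdjoinRoot.root (f.map φ) ^ m) =
      φ (c m))
    (hsep : (f.map φ).Separable) (hdet : φ P.det ≠ 0) (hβ : ∀ i, φ (β i) ≠ 0) :
    (∃ x, (f.map φ).IsRoot x) ↔
      2 * Nat.card {i // ¬ IsSquare (φ (β i))} < f.natDegree := by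
  classical
  have key : ∀ m : ℕ, m = (f.map φ).natDegree → ∃ (r s : ℕ) (l : Fin r → (Fin m → L) →ₗ[L] L)
      (p q : Fin s → (Fin m → L) →ₗ[L] L), m = r + 2 * s ∧
      ((∃ x, (f.map φ).IsRoot x) ↔ 0 < r) ∧
      ∀ u : Fin m → L, ∑ i : Fin m, ∑ j : Fin m, u i * u j * φ (c ((i : ℕ) + j)) =
        ∑ a, l a u ^ 2 + ∑ b, p b u ^ 2 - ∑ b, q b u ^ 2 := by
    rintro m rfl
    obtain ⟨r, s, l, p, q, hd, hr, hQ⟩ := hermite hL (f.map φ) (hf.map φ) hsep
    refine ⟨r, s, l, p, q, hd, hr, fun u => ?_⟩
    rw [← hQ u]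
    simp only [hc]
  obtain ⟨r, s, l, p, q, hd, hr, hQ⟩ := key f.natDegree (hf.natDegree_map φ).symm
  generalize f.natDegree = d at *
  -- the diagonal form
  have hPφ : (P.map φ)ᵀ * (Matrix.of fun i j : Fin d => φ (c ((i : ℕ) + j))) * P.map φ =
      Matrix.diagonal fun i => φ (β i) := by
    have h1 := congrArg (fun M => M.map φ) hP
    simp only [Matrix.map_mul, Matrix.transpose_map] at h1
    rw [Matrix.diagonal_map (map_zero φ)] at h1
    exact h1
  have hdet' : IsUnit (P.map φ).det := by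
    rw [isUnit_iff_ne_zero]
    have : (P.map φ).det = φ P.det := (RingHom.map_det φ P).symm
    rwa [this]
  have hQ1 : ∀ v : Fin d → L, ∑ i : Fin d, ∑ j : Fin d, v i * v j * φ (c ((i : ℕ) + j)) =
      v ⬝ᵥ ((Matrix.of fun i j : Fin d => φ (c ((i : ℕ) + j))) *ᵥ v) := by
    intro v
    simp only [dotProduct, mulVec, Matrix.of_apply, Finset.mul_sum]
    exact Finset.sum_congr rfl fun i _ => Finset.sum_congr rfl fun j _ => by ring
  have hβ1 : ∀ u : Fin d → L, ∑ i : Fin d, ∑ j : Fin d, (P.map φ *ᵥ u) i * (P.map φ *ᵥ u) j *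
      φ (c ((i : ℕ) + j)) = ∑ i, φ (β i) * u i ^ 2 := by
    intro u
    rw [hQ1]
    have h1 : (P.map φ *ᵥ u) ⬝ᵥ ((Matrix.of fun i j : Fin d => φ (c ((i : ℕ) + j))) *ᵥ
        (P.map φ *ᵥ u)) = u ⬝ᵥ (((P.map φ)ᵀ * (Matrix.of fun i j : Fin d =>
          φ (c ((i : ℕ) + j))) * P.map φ) *ᵥ u) := by
      rw [Matrix.mul_assoc, ← Matrix.mulVec_mulVec, ← Matrix.mulVec_mulVec,
        Matrix.dotProduct_mulVec u, Matrix.vecMul_transpose]
    rw [h1, hPφ]
    simp only [dotProduct, mulVec_diagonal]
    exact Finset.sum_congr rfl fun i _ => by ring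
  have hlp : ∀ u, ∑ b, Fin.append l p b u ^ 2 = ∑ a, l a u ^ 2 + ∑ b, p b u ^ 2 := by
    intro u
    rw [Fin.sum_univ_add]
    simp only [Fin.append_left, Fin.append_right]
  have n1 : Nat.card {i // ¬ IsSquare (φ (β i))} ≤ s := by
    refine syl hL (fun u => ∑ i : Fin d, ∑ j : Fin d, u i * u j * φ (c ((i : ℕ) + j)))
      (Fin.append l p) q (fun u => ?_) (P.map φ) hdet' _ hβ1 hβ
    rw [hlp]
    exact hQ u
  have n2 : Nat.card {i // ¬ IsSquare (-φ (β i))} ≤ r + s := by
    refine syl hL (fun u => -∑ i : Fin d, ∑ j : Fin d, u i * u j * φ (c ((i : ℕ) + j)))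
      q (Fin.append l p) (fun u => ?_) (P.map φ) hdet' (fun i => -φ (β i)) (fun u => ?_)
      (fun i => neg_ne_zero.2 (hβ i))
    · rw [hlp, hQ u]
      ring
    · simp only [hβ1, neg_mul, Finset.sum_neg_distrib]
  have n3 : d ≤ Nat.card {i // ¬ IsSquare (φ (β i))} + Nat.card {i // ¬ IsSquare (-φ (β i))} := by
    rw [Nat.card_eq_fintype_card, Nat.card_eq_fintype_card, Fintype.card_subtype,
      Fintype.card_subtype]
    calc d = (Finset.univ : Finset (Fin d)).card := by simp
      _ ≤ (Finset.univ.filter (fun i => ¬ IsSquare (φ (β i))) ∪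
            Finset.univ.filter (fun i => ¬ IsSquare (-φ (β i)))).card := by
          refine Finset.card_le_card fun i _ => ?_
          rw [Finset.mem_union, Finset.mem_filter, Finset.mem_filter]
          by_contra hcon
          push Not at hcon
          obtain ⟨a, ha⟩ := hcon.1 (Finset.mem_univ i)
          obtain ⟨b, hb⟩ := hcon.2 (Finset.mem_univ i)
          have ha0 : a ≠ 0 := by
            rintro rfl
            exact hβ i (by rw [ha, mul_zero])
          refine hL.neg_one ⟨b / a, ?_⟩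
          field_simp
          linear_combination hb + ha
      _ ≤ _ := Finset.card_union_le _ _
  rw [hr]
  omega

/-- The signs of finitely many polynomials at small positive reals. -/
private theorem sgn_fin {k E : Type} [Field k] (e : k ≃+* ℝ) [Field E] [CharZero E] [Algebra k E]
    (hE : RC E) {t : E} (ht : Infml k t) {ι : Type} (S : Finset ι) (p : ι → k[X])
    (hp : ∀ i ∈ S, p i ≠ 0) : ∃ δ : ℝ, 0 < δ ∧ ∀ t₀ : k, 0 < e t₀ → e t₀ < δ → ∀ i ∈ S,
      (p i).eval t₀ ≠ 0 ∧ (IsSquare (aeval t (p i)) ↔ IsSquare ((p i).eval t₀)) := by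
  classical
  induction S using Finset.induction_on with
  | empty => exact ⟨1, one_pos, fun _ _ _ i hi => absurd hi (Finset.notMem_empty i)⟩
  | insert a S ha ih =>
    obtain ⟨δ1, h1, h1'⟩ := ih fun i hi => hp i (Finset.mem_insert_of_mem hi)
    obtain ⟨δ2, h2, h2'⟩ := sgn e hE ht (hp a (Finset.mem_insert_self a S))
    refine ⟨min δ1 δ2, lt_min h1 h2, fun t₀ h h' i hi => ?_⟩
    rcases Finset.mem_insert.1 hi with rfl | hi
    · exact h2' t₀ h (h'.trans_le (min_le_right _ _))
    · exact h1' t₀ h (h'.trans_le (min_le_left _ _)) i hi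

/-- Bezout without denominators. -/
private theorem bezout {k : Type} [Field k] (f : k[X][X])
    (hsep : (f.map (algebraMap k[X] (RatFunc k))).Separable) :
    ∃ (a b : k[X][X]) (h : k[X]), h ≠ 0 ∧ a * f + b * derivative f = C h := by
  obtain ⟨a, b, hab⟩ := hsep
  obtain ⟨u, hu0, hu⟩ := IsLocalization.integerNormalization_spec (nonZeroDivisors k[X]) a
  obtain ⟨v, hv0, hv⟩ := IsLocalization.integerNormalization_spec (nonZeroDivisors k[X]) b
  have hinj : Function.Injective (algebraMap k[X] (RatFunc k)) :=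
    IsFractionRing.injective k[X] (RatFunc k)
  refine ⟨C v * IsLocalization.integerNormalization (nonZeroDivisors k[X]) a,
    C u * IsLocalization.integerNormalization (nonZeroDivisors k[X]) b, u * v,
    mul_ne_zero (nonZeroDivisors.ne_zero hu0) (nonZeroDivisors.ne_zero hv0), ?_⟩
  apply Polynomial.map_injective _ hinj
  have e1 : ∀ (w : k[X]) (x : (RatFunc k)[X]), w • x = C (algebraMap k[X] (RatFunc k) w) * x := by
    intro w x
    rw [← Polynomial.smul_eq_C_mul, algebraMap_smul]
  rw [e1] at hu hv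
  rw [derivative_map] at hab
  simp only [Polynomial.map_add, Polynomial.map_mul, Polynomial.map_C, hu, hv, map_mul]
  linear_combination (C (algebraMap k[X] (RatFunc k) u) * C (algebraMap k[X] (RatFunc k) v)) * hab

/-- Separability of the specialisations. -/
private theorem sep_spec {k L : Type} [Field k] [Field L] {f a b : k[X][X]} {h : k[X]}
    (hab : a * f + b * derivative f = C h) (φ : k[X] →+* L) (hh : φ h ≠ 0) :
    (f.map φ).Separable := by
  refine ⟨C (φ h)⁻¹ * a.map φ, C (φ h)⁻¹ * b.map φ, ?_⟩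
  have h1 := congrArg (Polynomial.map φ) hab
  simp only [Polynomial.map_add, Polynomial.map_mul, Polynomial.map_C] at h1
  have h2 : (C (φ h)⁻¹ : L[X]) * C (φ h) = 1 := by
    rw [← C_mul, inv_mul_cancel₀ hh, C_1]
  rw [derivative_map]
  linear_combination (C (φ h)⁻¹ : L[X]) * h1 + h2

/-- Diagonalisation without denominators. -/
private theorem diag {k : Type} [Field k] [CharZero k] {d : ℕ} (B : Matrix (Fin d) (Fin d) k[X])
    (hB : Bᵀ = B) (hdet : (B.map (algebraMap k[X] (RatFunc k))).det ≠ 0) :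
    ∃ (P : Matrix (Fin d) (Fin d) k[X]) (β : Fin d → k[X]), Pᵀ * B * P = Matrix.diagonal β ∧
      P.det ≠ 0 ∧ ∀ i, β i ≠ 0 := by
  classical
  have hinj : Function.Injective (algebraMap k[X] (RatFunc k)) :=
    IsFractionRing.injective k[X] (RatFunc k)
  have hc0 : CharZero (RatFunc k) := charZero_of_injective_algebraMap
    ((algebraMap k[X] (RatFunc k)).comp C).injective
  obtain ⟨w, P, Q, hPQ, hQP, hD⟩ := Hm.exists_diag (B.map (algebraMap k[X] (RatFunc k)))
  set A := B.map (algebraMap k[X] (RatFunc k)) with hA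
  have hAt : Aᵀ = A := by
    rw [hA, ← Matrix.transpose_map, hB]
  have hD1 : Pᵀ * A * P = Matrix.diagonal w := by
    have h1 : (Pᵀ * A * P)ᵀ = Pᵀ * A * P := by
      rw [Matrix.transpose_mul, Matrix.transpose_mul, Matrix.transpose_transpose, hAt,
        Matrix.mul_assoc]
    rw [h1, ← two_smul (RatFunc k)] at hD
    exact smul_right_injective _ (two_ne_zero (α := RatFunc k)) hD
  have hPd : P.det ≠ 0 := by
    intro h
    have := congrArg Matrix.det hPQ
    rw [Matrix.det_mul, h, zero_mul, Matrix.det_one] at this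
    exact zero_ne_one this
  obtain ⟨⟨D, hD0⟩, hDm⟩ := IsLocalization.exist_integer_multiples_of_finite
    (nonZeroDivisors k[X]) fun x : Fin d × Fin d => P x.1 x.2
  choose P' hP' using hDm
  have hD0' : algebraMap k[X] (RatFunc k) D ≠ 0 := by
    rw [Ne, map_eq_zero_iff _ hinj]
    exact nonZeroDivisors.ne_zero hD0
  set P1 : Matrix (Fin d) (Fin d) k[X] := Matrix.of fun i j => P' (i, j) with hP1
  have hP1m : P1.map (algebraMap k[X] (RatFunc k)) = algebraMap k[X] (RatFunc k) D • P := by
    ext i j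
    have := hP' (i, j)
    simp only [hP1, Matrix.map_apply, Matrix.of_apply, Matrix.smul_apply, smul_eq_mul]
    rw [this, Algebra.smul_def]
  have hm : (P1ᵀ * B * P1).map (algebraMap k[X] (RatFunc k)) =
      Matrix.diagonal fun i => algebraMap k[X] (RatFunc k) D ^ 2 * w i := by
    rw [Matrix.map_mul, Matrix.map_mul, Matrix.transpose_map, hP1m, ← hA,
      Matrix.transpose_smul, Matrix.smul_mul, Matrix.smul_mul, Matrix.mul_smul, hD1, smul_smul]
    ext i j
    by_cases hij : i = j
    · subst hij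
      simp [pow_two]
    · simp [hij]
  have hw : ∀ i, w i ≠ 0 := by
    intro i hi
    have h1 := congrArg Matrix.det hD1
    rw [Matrix.det_mul, Matrix.det_mul, Matrix.det_transpose, Matrix.det_diagonal,
      Finset.prod_eq_zero (Finset.mem_univ i) hi] at h1
    exact (mul_ne_zero (mul_ne_zero hPd hdet) hPd) h1
  refine ⟨P1, fun i => (P1ᵀ * B * P1) i i, ?_, ?_, fun i h => ?_⟩
  · refine Matrix.ext fun i j => ?_
    by_cases hij : i = j
    · subst hij
      rw [Matrix.diagonal_apply_eq]
    · rw [Matrix.diagonal_apply_ne _ hij]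
      apply hinj
      have := congrFun (congrFun hm i) j
      rw [Matrix.map_apply, Matrix.diagonal_apply_ne _ hij] at this
      rw [this, map_zero]
  · intro h
    have h1 : (P1.map (algebraMap k[X] (RatFunc k))).det = 0 := by
      have := (RingHom.map_det (algebraMap k[X] (RatFunc k)) P1).symm
      rw [h, map_zero] at this
      exact this
    rw [hP1m, Matrix.det_smul] at h1
    exact mul_ne_zero (pow_ne_zero _ hD0') hPd h1
  · have h' : (P1ᵀ * B * P1) i i = 0 := h
    have := congrFun (congrFun hm i) i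
    rw [Matrix.map_apply, h', map_zero, Matrix.diagonal_apply_eq] at this
    exact mul_ne_zero (pow_ne_zero 2 hD0') (hw i) this.symm

/-- A monic polynomial over `k[t]` with a root in a real closed field in which `t` is a positive
infinitesimal has a root for all small positive values of `t`. (Diagonalise the matrix of the traces
of `root ^ (i + j)` over `k(t)`; the signs of the diagonal are the same in `E` and at small `t₀`;
`hermite` and `syl` for `E`: less than half of them are negative; without root at `t₀`: exactly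
half.) -/
theorem core {k E : Type} [Field k] (e : k ≃+* ℝ) [Field E] [CharZero E] [Algebra k E] (hE : RC E)
    {t : E} (ht : Infml k t) (htr : Transcendental k t) (f : k[X][X]) (hf : f.Monic)
    (hsep : (f.map (algebraMap k[X] (RatFunc k))).Separable) {y : E}
    (hy : (f.map (aeval t : k[X] →ₐ[k] E).toRingHom).IsRoot y) :
    ∃ δ : ℝ, 0 < δ ∧ ∀ t₀ : k, 0 < e t₀ → e t₀ < δ → ∃ y₀ : k,
      (f.map (evalRingHom t₀)).IsRoot y₀ := by
  classical
  have hk : CharZero k := charZero_of_injective_ringHom (f := (e.symm : ℝ →+* k)) e.symm.injective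
  have hkR : RC k := rc_real e
  obtain ⟨c, hc⟩ := trace_spec.{0, 0} f hf
  set B : Matrix (Fin f.natDegree) (Fin f.natDegree) k[X] :=
    Matrix.of fun i j => c ((i : ℕ) + j) with hB
  have hBt : Bᵀ = B := by
    refine Matrix.ext fun i j => ?_
    simp only [hB, Matrix.transpose_apply, Matrix.of_apply, add_comm]
  have hdet : (B.map (algebraMap k[X] (RatFunc k))).det ≠ 0 := by
    have key : ∀ m : ℕ, m = (f.map (algebraMap k[X] (RatFunc k))).natDegree →
        (Matrix.of fun i j : Fin m => algebraMap k[X] (RatFunc k) (c ((i : ℕ) + j))).det ≠ 0 := by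
      rintro m rfl
      have := trace_det (f.map (algebraMap k[X] (RatFunc k))) (hf.map _) hsep
      simp only [hc] at this
      exact this
    exact key f.natDegree (hf.natDegree_map _).symm
  obtain ⟨P, β, hP, hPd, hβ⟩ := diag B hBt hdet
  obtain ⟨a, b, h, hh, hab⟩ := bezout f hsep
  have hinj : Function.Injective (aeval t : k[X] →ₐ[k] E) :=
    transcendental_iff_injective.1 htr
  obtain ⟨δ, hδ, hδ'⟩ := sgn_fin e hE ht (Finset.univ : Finset (Option (Option (Fin f.natDegree))))
    (fun i => i.elim h fun j => j.elim P.det β) (by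
      rintro (_ | _ | i) -
      · exact hh
      · exact hPd
      · exact hβ i)
  refine ⟨δ, hδ, fun t₀ h0 h1 => ?_⟩
  have hs := hδ' t₀ h0 h1
  have hE0 : ∀ p : k[X], p ≠ 0 → (aeval t : k[X] →ₐ[k] E).toRingHom p ≠ 0 := fun p hp h2 =>
    hp (hinj (h2.trans (map_zero (aeval t : k[X] →ₐ[k] E)).symm))
  have rE := root_iff hE f hf c P β hP (aeval t : k[X] →ₐ[k] E).toRingHom (hc E _)
    (sep_spec hab _ (hE0 h hh)) (hE0 _ hPd) fun i => hE0 _ (hβ i)
  have rk := root_iff hkR f hf c P β hP (evalRingHom t₀) (hc k _)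
    (sep_spec hab _ (hs none (Finset.mem_univ _)).1) (hs (some none) (Finset.mem_univ _)).1
    fun i => (hs (some (some i)) (Finset.mem_univ _)).1
  rw [rk]
  have h2 := rE.1 ⟨y, hy⟩
  have h3 : Nat.card {i // ¬ IsSquare (evalRingHom t₀ (β i))} =
      Nat.card {i // ¬ IsSquare ((aeval t : k[X] →ₐ[k] E).toRingHom (β i))} := by
    refine Nat.card_congr (Equiv.subtypeEquivRight fun i => not_congr ?_)
    exact (hs (some (some i)) (Finset.mem_univ _)).2.symm
  rw [h3]
  exact h2

end Rw
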