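import Pool.Agent.Lib.MP_f80667_ag.ZC.Defs

/-! Project RW (quadratic forms over function fields of real curves): definitions. -/

namespace Rw

open ZC

universe u

/-- All diagonal ternary quadratic forms over `K` have zeros. -/
def Tern (K : Type u) [Field K] : Prop :=
  ∀ a b c : K, ∃ x y z : K, (x ≠ 0 ∨ y ≠ 0 ∨ z ≠ 0) ∧ a * x ^ 2 + b * y ^ 2 + c * z ^ 2 = 0

/-- All algebraic extensions of `M` which contain a square root of `-1` satisfy `Tern`. -/
def Vcd (M : Type u) [Field M] : Prop :=
  ∀ (L : Type u) [Field L] [Algebra M L] [Algebra.IsAlgebraic M L] (i : L), i ^ 2 = -1 → Tern L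

/-- `E` is real closed in the following sense: `-1` is not a square, for every element `x` one of
`x`, `-x` is a square, and sums of two squares are squares, and there are no extensions of odd
degree. -/
structure RC (E : Type u) [Field E] : Prop where
  neg_one : ¬ IsSquare (-1 : E)
  sq : ∀ x : E, IsSquare x ∨ IsSquare (-x)
  add : ∀ x y : E, IsSquare (x ^ 2 + y ^ 2)
  odd : ∀ f : Polynomial E, Irreducible f → Odd f.natDegree → f.natDegree = 1

theorem Vcd.ext {M E : Type u} [Field M] [Field E] [Algebra M E] [Algebra.IsAlgebraic M E]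
    (hM : Vcd M) : Vcd E := by
  intro L _ _ _ i hi
  let : Algebra M L := ((algebraMap E L).comp (algebraMap M E)).toAlgebra
  have : IsScalarTower M E L := IsScalarTower.of_algebraMap_eq fun _ => rfl
  have : Algebra.IsAlgebraic M L := Algebra.IsAlgebraic.trans M E L
  exact hM L i hi

end Rw
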