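import Pool.Agent.Lib.MP_f80667_ag.Rw.Defs

/-! The fundamental theorem of algebra for real closed fields. -/

namespace Rw

universe u

open Polynomial IntermediateField

/-- Every element of `E(i)` is a square. -/
theorem RC.isSquare_ext {E K : Type u} [Field E] [CharZero E] (hE : RC E) [Field K] [Algebra E K]
    (i : K) (hi : i ^ 2 = -1)
    (hK : ∀ z : K, ∃ x y : E, z = algebraMap E K x + algebraMap E K y * i) (z : K) :
    IsSquare z := by
  have hcK : CharZero K := charZero_of_injective_algebraMap (algebraMap E K).injective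
  have hE1 : ∀ x : E, IsSquare (algebraMap E K x) := by
    intro x
    rcases hE.sq x with h | h
    · exact h.map (algebraMap E K)
    · obtain ⟨a, ha⟩ := h
      refine ⟨algebraMap E K a * i, ?_⟩
      have h1 : algebraMap E K x = -(algebraMap E K a * algebraMap E K a) := by
        rw [← map_mul, ← ha, map_neg, neg_neg]
      rw [h1]
      linear_combination (algebraMap E K a) ^ 2 * (-hi)
  obtain ⟨x, y, hz⟩ := hK z
  obtain ⟨n, hn⟩ := hE.add x y
  obtain ⟨U, hU⟩ := hE1 ((n + x) / 2)
  have h2 : (2 : K) ≠ 0 := two_ne_zero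
  have hn' : algebraMap E K x ^ 2 + algebraMap E K y ^ 2 = algebraMap E K n * algebraMap E K n := by
    rw [← map_pow, ← map_pow, ← map_add, hn, map_mul]
  have hU' : algebraMap E K n + algebraMap E K x = 2 * (U * U) := by
    rw [← hU, map_div₀, map_add, map_ofNat]
    field_simp
  by_cases h0 : U = 0
  · have h3 : n + x = 0 := by
      rw [h0, mul_zero, mul_zero, ← map_add] at hU'
      exact (map_eq_zero _).1 hU'
    have h4 : y = 0 := by
      have h5 : y ^ 2 = 0 := by
        have h6 : n = -x := by linear_combination h3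
        rw [h6] at hn
        linear_combination hn
      exact pow_eq_zero_iff (two_ne_zero) |>.1 h5
    rw [hz, h4, map_zero, zero_mul, add_zero]
    exact hE1 x
  · refine ⟨U + algebraMap E K y * i / (2 * U), ?_⟩
    have h3 : (2 * U) ^ 2 * z = (2 * U) ^ 2 * ((U + algebraMap E K y * i / (2 * U)) *
        (U + algebraMap E K y * i / (2 * U))) := by
      have h4 : (2 * U) ^ 2 * ((U + algebraMap E K y * i / (2 * U)) *
          (U + algebraMap E K y * i / (2 * U))) =
            (2 * U ^ 2 + algebraMap E K y * i) ^ 2 := by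
        field_simp
      rw [h4, hz]
      have h5 : algebraMap E K n = 2 * (U * U) - algebraMap E K x := by
        linear_combination hU'
      rw [h5] at hn'
      linear_combination (1 : K) * hn' - (algebraMap E K y) ^ 2 * hi
    exact mul_left_cancel₀ (pow_ne_zero 2 (mul_ne_zero h2 h0)) h3

/-- The Galois group of a finite Galois extension of a real closed field is a `2`-group. -/
theorem RC.isPGroup {E L : Type u} [Field E] [CharZero E] (hE : RC E) [Field L] [Algebra E L]
    [FiniteDimensional E L] [IsGalois E L] : IsPGroup 2 (L ≃ₐ[E] L) := by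
  have hp : Fact (Nat.Prime 2) := ⟨Nat.prime_two⟩
  obtain ⟨P⟩ : Nonempty (Sylow 2 (L ≃ₐ[E] L)) := inferInstance
  set F := fixedField (P : Subgroup (L ≃ₐ[E] L)) with hF
  have h1 : Module.finrank E F = (P : Subgroup (L ≃ₐ[E] L)).index := by
    rw [finrank_eq_fixingSubgroup_index, hF, fixingSubgroup_fixedField]
  have h2 : ¬ 2 ∣ (P : Subgroup (L ≃ₐ[E] L)).index := P.not_dvd_index
  have h3 : Odd (Module.finrank E F) := by
    rw [h1, ← Nat.not_even_iff_odd, even_iff_two_dvd]
    exact h2
  let pb := Field.powerBasisOfFiniteOfSeparable E F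
  have h4 : (minpoly E pb.gen).natDegree = Module.finrank E F := by
    rw [pb.natDegree_minpoly, pb.finrank]
  have h5 := hE.odd (minpoly E pb.gen) (minpoly.irreducible pb.isIntegral_gen) (by rwa [h4])
  rw [h4, h1, Subgroup.index_eq_one] at h5
  have h6 := P.isPGroup'
  rw [IsPGroup.iff_card] at h6 ⊢
  obtain ⟨m, hm⟩ := h6
  refine ⟨m, ?_⟩
  rw [← hm]
  have h7 : Nat.card (P : Subgroup (L ≃ₐ[E] L)) = Nat.card (L ≃ₐ[E] L) := by
    rw [h5]
    exact Subgroup.card_top
  exact h7.symm

/-- If the Galois group is a `2`-group, an intermediate field with square roots is everything. -/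
theorem eq_top_of_sq {E L : Type u} [Field E] [CharZero E] [Field L] [Algebra E L]
    [FiniteDimensional E L] [IsGalois E L] (hG : IsPGroup 2 (L ≃ₐ[E] L))
    (K : IntermediateField E L) (hK : ∀ z ∈ K, ∃ u ∈ K, z = u * u) : K = ⊤ := by
  have hp : Fact (Nat.Prime 2) := ⟨Nat.prime_two⟩
  have hcL : CharZero L := charZero_of_injective_algebraMap (algebraMap E L).injective
  have hG1 : IsPGroup 2 K.fixingSubgroup := hG.to_subgroup _
  rw [IsPGroup.iff_card] at hG1
  obtain ⟨m, hm⟩ := hG1
  rcases Nat.eq_zero_or_pos m with h0 | h0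
  · rw [h0, pow_zero, Subgroup.card_eq_one] at hm
    rw [← IsGalois.fixedField_fixingSubgroup K, hm, fixedField_bot]
  · exfalso
    obtain ⟨H, hH⟩ := Sylow.exists_subgroup_card_pow_prime (G := K.fixingSubgroup) 2
      (n := m - 1) (by rw [hm]; exact pow_dvd_pow 2 (Nat.sub_le m 1))
    have hidx : H.index = 2 := by
      have h1 := H.card_mul_index
      rw [hH, hm] at h1
      have h2 : 2 ^ m = 2 ^ (m - 1) * 2 := by
        rw [← pow_succ, Nat.sub_add_cancel h0]
      rw [h2] at h1
      exact Nat.eq_of_mul_eq_mul_left (pow_pos two_pos _) h1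
    have hnor : H.Normal := Subgroup.normal_of_index_eq_two hidx
    obtain ⟨σ, hσ⟩ : ∃ σ : K.fixingSubgroup, σ ∉ H := by
      by_contra hcon
      push Not at hcon
      have : H = ⊤ := by
        rw [Subgroup.eq_top_iff']
        exact hcon
      rw [this, Subgroup.index_top] at hidx
      omega
    have hmem : ∀ g : K.fixingSubgroup, g ∉ H → σ⁻¹ * g ∈ H := by
      intro g hg
      rw [Subgroup.mul_mem_iff_of_index_two hidx, inv_mem_iff]
      exact ⟨fun h => absurd h hσ, fun h => absurd h hg⟩
    -- an element fixed by `H` and not by everything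
    obtain ⟨y, hy, hyK⟩ : ∃ y : L, (∀ g ∈ H, (g : L ≃ₐ[E] L) y = y) ∧ y ∉ K := by
      by_contra hcon
      push Not at hcon
      have h1 : fixedField (H.map K.fixingSubgroup.subtype) ≤ K := by
        intro y hy
        refine hcon y fun g hg => ?_
        rw [mem_fixedField_iff] at hy
        exact hy _ (Subgroup.mem_map_of_mem _ hg)
      have h2 := fixingSubgroup_le h1
      rw [fixingSubgroup_fixedField] at h2
      obtain ⟨g, hg, hgσ⟩ := h2 σ.2
      apply hσ
      have : g = σ := Subtype.ext hgσ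
      rwa [← this]
    have hfix : ∀ z : L, (∀ g : K.fixingSubgroup, (g : L ≃ₐ[E] L) z = z) → z ∈ K := by
      intro z hz
      rw [← IsGalois.fixedField_fixingSubgroup K, mem_fixedField_iff]
      exact fun g hg => hz ⟨g, hg⟩
    have hσy : (σ : L ≃ₐ[E] L) y ≠ y := by
      intro h1
      apply hyK
      refine hfix y fun g => ?_
      by_cases hg : g ∈ H
      · exact hy g hg
      · have h2 := hy _ (hmem g hg)
        have h3 : ((σ * (σ⁻¹ * g) : K.fixingSubgroup) : L ≃ₐ[E] L) y = (σ : L ≃ₐ[E] L) y := by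
          rw [Subgroup.coe_mul, AlgEquiv.mul_apply, h2]
        rw [mul_inv_cancel_left] at h3
        rw [h3, h1]
    have hHz : ∀ g ∈ H, (g : L ≃ₐ[E] L) (y - (σ : L ≃ₐ[E] L) y) = y - (σ : L ≃ₐ[E] L) y := by
      intro g hg
      have h1 : ((g * σ : K.fixingSubgroup) : L ≃ₐ[E] L) y = (σ : L ≃ₐ[E] L) y := by
        have h2 : σ⁻¹ * g * σ ∈ H := by
          have := hnor.conj_mem g hg σ⁻¹
          rwa [inv_inv] at this
        have h3 : g * σ = σ * (σ⁻¹ * g * σ) := by group
        rw [h3, Subgroup.coe_mul, AlgEquiv.mul_apply, hy _ h2]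
      rw [Subgroup.coe_mul, AlgEquiv.mul_apply] at h1
      rw [map_sub, hy g hg, h1]
    have hσz : (σ : L ≃ₐ[E] L) (y - (σ : L ≃ₐ[E] L) y) = -(y - (σ : L ≃ₐ[E] L) y) := by
      have h1 : ((σ * σ : K.fixingSubgroup) : L ≃ₐ[E] L) y = y :=
        hy _ (Subgroup.mul_self_mem_of_index_two hidx σ)
      rw [Subgroup.coe_mul, AlgEquiv.mul_apply] at h1
      rw [map_sub, h1]
      ring
    obtain ⟨z, hz⟩ : ∃ z : L, z = y - (σ : L ≃ₐ[E] L) y := ⟨_, rfl⟩
    rw [← hz] at hHz hσz
    have hz0 : z ≠ 0 := by
      rw [hz]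
      exact sub_ne_zero.2 hσy.symm
    have hzz : z * z ∈ K := by
      refine hfix _ fun g => ?_
      rw [map_mul]
      by_cases hg : g ∈ H
      · rw [hHz g hg]
      · have h2 := hHz _ (hmem g hg)
        have h3 : ((σ * (σ⁻¹ * g) : K.fixingSubgroup) : L ≃ₐ[E] L) z = (σ : L ≃ₐ[E] L) z := by
          rw [Subgroup.coe_mul, AlgEquiv.mul_apply, h2]
        rw [mul_inv_cancel_left, hσz] at h3
        rw [h3]
        ring
    obtain ⟨u, hu, hzu⟩ := hK _ hzz
    have hzK : z ∈ K := by
      rcases mul_self_eq_mul_self_iff.1 hzu with h1 | h1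
      · rwa [h1]
      · rw [h1]
        exact K.neg_mem hu
    have h1 : (σ : L ≃ₐ[E] L) z = z := by
      have := (mem_fixingSubgroup_iff K (σ : L ≃ₐ[E] L)).1 σ.2
      exact this z hzK
    rw [hσz] at h1
    have h2 : (2 : L) * z = 0 := by linear_combination -h1
    exact (mul_ne_zero two_ne_zero hz0) h2

/-- The field `E(i)` is algebraically closed if `E` is real closed. (The degree of a finite Galois
extension of `E` which contains `E(i)` is a power of `2` by Sylow and `hE.odd`; every element of
`E(i)` is a square, so `E(i)` has no quadratic extension.) -/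
theorem RC.isAlgClosed {E K : Type u} [Field E] [CharZero E] (hE : RC E) [Field K] [Algebra E K]
    (i : K) (hi : i ^ 2 = -1)
    (hK : ∀ z : K, ∃ x y : E, z = algebraMap E K x + algebraMap E K y * i) : IsAlgClosed K := by
  have hsq := hE.isSquare_ext i hi hK
  have hfin : FiniteDimensional E K := by
    classical
    refine ⟨⟨{1, i}, ?_⟩⟩
    rw [eq_top_iff]
    intro z _
    obtain ⟨x, y, rfl⟩ := hK z
    rw [Finset.coe_insert, Finset.coe_singleton, Submodule.mem_span_pair]
    exact ⟨x, y, by rw [Algebra.smul_def, Algebra.smul_def, mul_one]⟩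
  refine IsAlgClosed.of_exists_root K fun p hp hirr => ?_
  obtain ⟨α, hα⟩ : ∃ α : AlgebraicClosure K, aeval α p = 0 :=
    IsAlgClosed.exists_aeval_eq_zero _ p hirr.degree_pos.ne'
  have halg : Algebra.IsAlgebraic E (AlgebraicClosure K) :=
    Algebra.IsAlgebraic.trans E K (AlgebraicClosure K)
  have hnor : Normal E (AlgebraicClosure K) := by
    have : IsAlgClosure E (AlgebraicClosure K) := ⟨inferInstance, halg⟩
    exact IsAlgClosure.normal E (AlgebraicClosure K)
  let j : K →ₐ[E] AlgebraicClosure K := IsScalarTower.toAlgHom E K (AlgebraicClosure K)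
  have hα1 : IsIntegral E α := (halg.isAlgebraic α).isIntegral
  have hf1 : FiniteDimensional E E⟮α⟯ := adjoin.finiteDimensional hα1
  have hf2 : FiniteDimensional E j.fieldRange :=
    (AlgEquiv.ofInjectiveField j).toLinearEquiv.finiteDimensional
  have hf3 : FiniteDimensional E (j.fieldRange ⊔ E⟮α⟯ : IntermediateField E (AlgebraicClosure K)) :=
    finiteDimensional_sup _ _
  let L : IntermediateField E (AlgebraicClosure K) :=
    normalClosure E (j.fieldRange ⊔ E⟮α⟯ : IntermediateField E (AlgebraicClosure K))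
      (AlgebraicClosure K)
  have hle : (j.fieldRange ⊔ E⟮α⟯ : IntermediateField E (AlgebraicClosure K)) ≤ L :=
    le_normalClosure _
  have hf4 : FiniteDimensional E L := inferInstance
  have hn : Normal E L := inferInstance
  have hs : Algebra.IsSeparable E L := inferInstance
  have hgal : IsGalois E L := ⟨⟩
  have hG : IsPGroup 2 (L ≃ₐ[E] L) := hE.isPGroup
  have hjL : ∀ z, j z ∈ L := fun z => hle (le_sup_left (α := IntermediateField E _) ⟨z, rfl⟩)
  have hαL : α ∈ L := hle (le_sup_right (α := IntermediateField E _) (mem_adjoin_simple_self E α))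
  let φ : K →ₐ[E] L := j.codRestrict L.toSubalgebra hjL
  have htop : φ.fieldRange = ⊤ := by
    refine eq_top_of_sq hG _ ?_
    rintro _ ⟨z, rfl⟩
    obtain ⟨u, hu⟩ := hsq z
    refine ⟨φ u, ⟨u, rfl⟩, ?_⟩
    change φ z = φ u * φ u
    rw [hu, map_mul]
  obtain ⟨a, ha⟩ : (⟨α, hαL⟩ : L) ∈ φ.fieldRange := by
    rw [htop]
    exact mem_top
  have ha' : algebraMap K (AlgebraicClosure K) a = α := congrArg Subtype.val ha
  refine ⟨a, ?_⟩
  rw [← ha', aeval_algebraMap_apply] at hα
  have := (map_eq_zero _).1 hα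
  rwa [coe_aeval_eq_eval] at this

end Rw
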