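import Pool.Agent.Lib.MP_f80667_ag.Rw.Two
import Pool.Agent.Lib.MP_f80667_ag.Hm.IsoLoc

/-! The local-global principle for ternary forms. -/

namespace Rw

universe u

/-- An orthogonal frame for a ternary form. -/
private theorem frame {E : Type*} [Field E] {a b c g : E} (ha : a ≠ 0) (hb : b ≠ 0) (hc : c ≠ 0)
    (hg : g ≠ 0) (han : ∀ x y z : E, a * x ^ 2 + b * y ^ 2 + c * z ^ 2 = 0 → x = 0 ∧ y = 0 ∧ z = 0)
    {x1 x2 x3 y1 y2 y3 : E} (h0 : a * x1 * y1 + b * x2 * y2 + c * x3 * y3 = 0)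
    (h1 : a * x1 ^ 2 + b * x2 ^ 2 + c * x3 ^ 2 = -g * (a * y1 ^ 2 + b * y2 ^ 2 + c * y3 ^ 2))
    (hy : a * y1 ^ 2 + b * y2 ^ 2 + c * y3 ^ 2 ≠ 0) :
    ∃ e : E, e ≠ 0 ∧
      (∀ w1 w2 w3 : E, ∃ α β γ : E,
        a * w1 ^ 2 + b * w2 ^ 2 + c * w3 ^ 2 = e * (α ^ 2 - g * β ^ 2) - a * b * c * g * γ ^ 2) ∧
      (∀ α β γ : E, ∃ w1 w2 w3 : E,
        a * w1 ^ 2 + b * w2 ^ 2 + c * w3 ^ 2 = e * (α ^ 2 - g * β ^ 2) - a * b * c * g * γ ^ 2) ∧
      (∀ α β γ : E, e * (α ^ 2 - g * β ^ 2) - a * b * c * g * γ ^ 2 = 0 →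
        α = 0 ∧ β = 0 ∧ γ = 0) := by
  obtain ⟨e, he⟩ : ∃ e, e = a * y1 ^ 2 + b * y2 ^ 2 + c * y3 ^ 2 := ⟨_, rfl⟩
  rw [← he] at h1 hy
  have hZ : a * (b * c * (x2 * y3 - x3 * y2)) ^ 2 + b * (c * a * (x3 * y1 - x1 * y3)) ^ 2 +
      c * (a * b * (x1 * y2 - x2 * y1)) ^ 2 = -(a * b * c * g * e ^ 2) := by
    linear_combination a * b * c * e * h1 -
      a * b * c * (a * x1 * y1 + b * x2 * y2 + c * x3 * y3) * h0
      - a * b * c * (a * x1 ^ 2 + b * x2 ^ 2 + c * x3 ^ 2) * he
  have hD : b * c * (x2 * y3 - x3 * y2) ^ 2 + c * a * (x3 * y1 - x1 * y3) ^ 2 +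
      a * b * (x1 * y2 - x2 * y1) ^ 2 = -(g * e ^ 2) := by
    linear_combination e * h1 - (a * x1 * y1 + b * x2 * y2 + c * x3 * y3) * h0
      - (a * x1 ^ 2 + b * x2 ^ 2 + c * x3 ^ 2) * he
  have hval : ∀ α β γ : E, a * (α * y1 + β * x1 + γ * (b * c * (x2 * y3 - x3 * y2))) ^ 2 +
      b * (α * y2 + β * x2 + γ * (c * a * (x3 * y1 - x1 * y3))) ^ 2 +
      c * (α * y3 + β * x3 + γ * (a * b * (x1 * y2 - x2 * y1))) ^ 2 =
      e * (α ^ 2 - g * β ^ 2) - a * b * c * g * (γ * e) ^ 2 := by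
    intro α β γ
    linear_combination 2 * α * β * h0 + β ^ 2 * h1 + γ ^ 2 * hZ - α ^ 2 * he
  have hB : ∀ α β γ : E, a * (α * y1 + β * x1 + γ / e * (b * c * (x2 * y3 - x3 * y2))) ^ 2 +
      b * (α * y2 + β * x2 + γ / e * (c * a * (x3 * y1 - x1 * y3))) ^ 2 +
      c * (α * y3 + β * x3 + γ / e * (a * b * (x1 * y2 - x2 * y1))) ^ 2 =
      e * (α ^ 2 - g * β ^ 2) - a * b * c * g * γ ^ 2 := by
    intro α β γ
    rw [hval, div_mul_cancel₀ _ hy]
  refine ⟨e, hy, ?_, fun α β γ => ⟨_, _, _, hB α β γ⟩, ?_⟩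
  · intro w1 w2 w3
    have hge : g * e ^ 2 ≠ 0 := mul_ne_zero hg (pow_ne_zero 2 hy)
    -- Cramer's rule
    set Z1 := b * c * (x2 * y3 - x3 * y2) with hZ1
    set Z2 := c * a * (x3 * y1 - x1 * y3) with hZ2
    set Z3 := a * b * (x1 * y2 - x2 * y1) with hZ3
    have hdet : x1 * (y2 * Z3 - y3 * Z2) - x2 * (y1 * Z3 - y3 * Z1) + x3 * (y1 * Z2 - y2 * Z1) =
        -(g * e ^ 2) := by
      rw [← hD, hZ1, hZ2, hZ3]
      ring
    set dX := w1 * (y2 * Z3 - y3 * Z2) - w2 * (y1 * Z3 - y3 * Z1) + w3 * (y1 * Z2 - y2 * Z1)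
    set dY := x1 * (w2 * Z3 - w3 * Z2) - x2 * (w1 * Z3 - w3 * Z1) + x3 * (w1 * Z2 - w2 * Z1)
    set dZ := x1 * (y2 * w3 - y3 * w2) - x2 * (y1 * w3 - y3 * w1) + x3 * (y1 * w2 - y2 * w1)
    have e1 : w1 = (-dY / (g * e ^ 2)) * y1 + (-dX / (g * e ^ 2)) * x1 +
        (-dZ / (g * e ^ 2)) * Z1 := by
      field_simp
      linear_combination w1 * hdet
    have e2 : w2 = (-dY / (g * e ^ 2)) * y2 + (-dX / (g * e ^ 2)) * x2 +
        (-dZ / (g * e ^ 2)) * Z2 := by
      field_simp
      linear_combination w2 * hdet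
    have e3 : w3 = (-dY / (g * e ^ 2)) * y3 + (-dX / (g * e ^ 2)) * x3 +
        (-dZ / (g * e ^ 2)) * Z3 := by
      field_simp
      linear_combination w3 * hdet
    refine ⟨-dY / (g * e ^ 2), -dX / (g * e ^ 2), -dZ / (g * e ^ 2) * e, ?_⟩
    rw [← hval (-dY / (g * e ^ 2)) (-dX / (g * e ^ 2)) (-dZ / (g * e ^ 2)), ← e1, ← e2, ← e3]
  · intro α β γ h
    obtain ⟨k1, k2, k3⟩ := han _ _ _ ((hB α β γ).trans h)
    have hα : α * e = 0 := by
      linear_combination (a * y1) * k1 + (b * y2) * k2 + (c * y3) * k3 - β * h0 + α * he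
    have hβ : β * (g * e) = 0 := by
      linear_combination -(a * x1) * k1 - (b * x2) * k2 - (c * x3) * k3 + α * h0 + β * h1
    have hγ : γ / e * (a * b * c * g * e ^ 2) = 0 := by
      linear_combination -(a * (b * c * (x2 * y3 - x3 * y2))) * k1 -
        (b * (c * a * (x3 * y1 - x1 * y3))) * k2 - (c * (a * b * (x1 * y2 - x2 * y1))) * k3 +
        γ / e * hZ
    refine ⟨(mul_eq_zero.1 hα).resolve_right hy, (mul_eq_zero.1 hβ).resolve_right
      (mul_ne_zero hg hy), ?_⟩
    have h2 : a * b * c * g * e ^ 2 ≠ 0 :=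
      mul_ne_zero (mul_ne_zero (mul_ne_zero (mul_ne_zero ha hb) hc) hg) (pow_ne_zero 2 hy)
    have h3 := (mul_eq_zero.1 hγ).resolve_right h2
    rwa [div_eq_zero_iff, or_iff_left hy] at h3


/-- Elements of `E(√g)`. -/
private theorem mem_quad {E Ω : Type*} [Field E] [Field Ω] [Algebra E Ω] {g : E} {s : Ω}
    (hs : s ^ 2 = algebraMap E Ω g) {z : Ω} (hz : z ∈ IntermediateField.adjoin E {s}) :
    ∃ u v : E, z = algebraMap E Ω u + algebraMap E Ω v * s := by
  have hint : IsAlgebraic E s := by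
    refine ⟨Polynomial.X ^ 2 - Polynomial.C g, ?_, ?_⟩
    · exact Polynomial.X_pow_sub_C_ne_zero (by norm_num) g
    · simp [hs]
  have h1 : z ∈ (IntermediateField.adjoin E {s}).toSubalgebra := hz
  rw [IntermediateField.adjoin_simple_toSubalgebra_of_isAlgebraic hint] at h1
  induction h1 using Algebra.adjoin_induction with
  | mem x hx =>
    rw [Set.mem_singleton_iff] at hx
    exact ⟨0, 1, by simp [hx]⟩
  | algebraMap r => exact ⟨r, 0, by simp⟩
  | add x y hx hy h1 h2 =>
    obtain ⟨u, v, rfl⟩ := h1 (by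
      have : x ∈ (IntermediateField.adjoin E {s}).toSubalgebra := by
        rw [IntermediateField.adjoin_simple_toSubalgebra_of_isAlgebraic hint]; exact hx
      exact this)
    obtain ⟨u', v', rfl⟩ := h2 (by
      have : y ∈ (IntermediateField.adjoin E {s}).toSubalgebra := by
        rw [IntermediateField.adjoin_simple_toSubalgebra_of_isAlgebraic hint]; exact hy
      exact this)
    exact ⟨u + u', v + v', by simp only [map_add]; ring⟩
  | mul x y hx hy h1 h2 =>
    obtain ⟨u, v, rfl⟩ := h1 (by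
      have : x ∈ (IntermediateField.adjoin E {s}).toSubalgebra := by
        rw [IntermediateField.adjoin_simple_toSubalgebra_of_isAlgebraic hint]; exact hx
      exact this)
    obtain ⟨u', v', rfl⟩ := h2 (by
      have : y ∈ (IntermediateField.adjoin E {s}).toSubalgebra := by
        rw [IntermediateField.adjoin_simple_toSubalgebra_of_isAlgebraic hint]; exact hy
      exact this)
    refine ⟨u * u' + v * v' * g, u * v' + v * u', ?_⟩
    simp only [map_add, map_mul]
    linear_combination algebraMap E Ω v * algebraMap E Ω v' * hs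

/-- A ternary form without zeros over `M` has no zeros over some real closed algebraic extension.
(A maximal algebraic extension over which it has no zeros is real closed.) -/
theorem hp3 {M : Type u} [Field M] [CharZero M] (hM : Vcd M) (a b c : M)
    (h : ∀ x y z : M, a * x ^ 2 + b * y ^ 2 + c * z ^ 2 = 0 → x = 0 ∧ y = 0 ∧ z = 0) :
    ∃ E : IntermediateField M (AlgebraicClosure M), RC E ∧
      ∀ x y z : E, algebraMap M E a * x ^ 2 + algebraMap M E b * y ^ 2 +
        algebraMap M E c * z ^ 2 = 0 → x = 0 ∧ y = 0 ∧ z = 0 := by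
  classical
  let Ω := AlgebraicClosure M
  have : CharZero Ω := charZero_of_injective_algebraMap (algebraMap M Ω).injective
  -- a maximal algebraic extension without zeros
  let S : Set (IntermediateField M Ω) := {E | ∀ x ∈ E, ∀ y ∈ E, ∀ z ∈ E,
    algebraMap M Ω a * x ^ 2 + algebraMap M Ω b * y ^ 2 + algebraMap M Ω c * z ^ 2 = 0 →
      x = 0 ∧ y = 0 ∧ z = 0}
  have hbot : (⊥ : IntermediateField M Ω) ∈ S := by
    rintro x hx y hy z hz h0
    obtain ⟨x, rfl⟩ := IntermediateField.mem_bot.1 hx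
    obtain ⟨y, rfl⟩ := IntermediateField.mem_bot.1 hy
    obtain ⟨z, rfl⟩ := IntermediateField.mem_bot.1 hz
    have h1 : a * x ^ 2 + b * y ^ 2 + c * z ^ 2 = 0 := by
      apply (algebraMap M Ω).injective
      simpa only [map_add, map_mul, map_pow, map_zero] using h0
    obtain ⟨rfl, rfl, rfl⟩ := h x y z h1
    exact ⟨map_zero _, map_zero _, map_zero _⟩
  obtain ⟨E, -, hES, hEmax⟩ : ∃ E : IntermediateField M Ω, ⊥ ≤ E ∧ Maximal (· ∈ S) E := by
    refine zorn_le_nonempty₀ S ?_ ⊥ hbot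
    intro C hC hch F₀ hF₀
    have : Nonempty C := ⟨⟨F₀, hF₀⟩⟩
    have hdir : Directed (· ≤ ·) (fun F : C => (F : IntermediateField M Ω)) :=
      hch.directedOn.directed_val
    refine ⟨⨆ F : C, (F : IntermediateField M Ω), ?_, fun F hF => le_iSup
      (fun F : C => (F : IntermediateField M Ω)) ⟨F, hF⟩⟩
    have hmem : ∀ x ∈ (⨆ F : C, (F : IntermediateField M Ω)), ∃ F : C,
        x ∈ (F : IntermediateField M Ω) := by
      intro x hx
      rw [← SetLike.mem_coe, IntermediateField.coe_iSup_of_directed hdir] at hx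
      simpa using hx
    intro x hx y hy z hz
    obtain ⟨F1, h1⟩ := hmem x hx
    obtain ⟨F2, h2⟩ := hmem y hy
    obtain ⟨F3, h3⟩ := hmem z hz
    obtain ⟨F4, h41, h42⟩ := hdir F1 F2
    obtain ⟨F5, h51, h52⟩ := hdir F4 F3
    exact hC F5.2 x (h51 (h41 h1)) y (h51 (h42 h2)) z (h52 h3)
  have hEmax' : ∀ F : IntermediateField M Ω, F ∈ S → E ≤ F → F ≤ E := fun F hF hle =>
    hEmax hF hle
  have hcE : CharZero E := charZero_of_injective_algebraMap (algebraMap M E).injective
  have hVE : Vcd E := hM.ext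
  have han : ∀ x y z : E, algebraMap M E a * x ^ 2 + algebraMap M E b * y ^ 2 +
      algebraMap M E c * z ^ 2 = 0 → x = 0 ∧ y = 0 ∧ z = 0 := by
    intro x y z h0
    have h1 := hES x x.2 y y.2 z z.2 (by
      have h2 := congrArg (algebraMap E Ω) h0
      simp only [map_add, map_mul, map_pow, map_zero] at h2
      exact h2)
    exact ⟨Subtype.ext h1.1, Subtype.ext h1.2.1, Subtype.ext h1.2.2⟩
  refine ⟨E, ?_, han⟩
  obtain ⟨a', ha'⟩ : ∃ a', a' = algebraMap M E a := ⟨_, rfl⟩
  obtain ⟨b', hb'⟩ : ∃ b', b' = algebraMap M E b := ⟨_, rfl⟩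
  obtain ⟨c', hc'⟩ : ∃ c', c' = algebraMap M E c := ⟨_, rfl⟩
  have haΩ : algebraMap M Ω a = algebraMap E Ω a' := by rw [ha']; rfl
  have hbΩ : algebraMap M Ω b = algebraMap E Ω b' := by rw [hb']; rfl
  have hcΩ : algebraMap M Ω c = algebraMap E Ω c' := by rw [hc']; rfl
  rw [← ha', ← hb', ← hc'] at han
  have ha0 : a' ≠ 0 := by
    intro h0
    have := (han 1 0 0 (by rw [h0]; ring)).1
    exact one_ne_zero this
  have hb0 : b' ≠ 0 := by
    intro h0
    have := (han 0 1 0 (by rw [h0]; ring)).2.1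
    exact one_ne_zero this
  have hc0 : c' ≠ 0 := by
    intro h0
    have := (han 0 0 1 (by rw [h0]; ring)).2.2
    exact one_ne_zero this
  -- proper extensions have zeros
  have hext : ∀ θ : Ω, θ ∉ E → ∃ x ∈ IntermediateField.adjoin E {θ},
      ∃ y ∈ IntermediateField.adjoin E {θ}, ∃ z ∈ IntermediateField.adjoin E {θ},
      (x ≠ 0 ∨ y ≠ 0 ∨ z ≠ 0) ∧ algebraMap E Ω a' * x ^ 2 + algebraMap E Ω b' * y ^ 2 +
        algebraMap E Ω c' * z ^ 2 = 0 := by
    intro θ hθ
    by_contra hcon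
    push Not at hcon
    let F : IntermediateField M Ω := (IntermediateField.adjoin E {θ}).restrictScalars M
    have hF : F ∈ S := by
      intro x hx y hy z hz h0
      by_contra h1
      rw [haΩ, hbΩ, hcΩ] at h0
      refine hcon x hx y hy z hz ?_ h0
      by_contra h2
      push Not at h2
      exact h1 h2
    have hle : E ≤ F := by
      intro x hx
      exact (IntermediateField.adjoin E {θ}).algebraMap_mem ⟨x, hx⟩
    exact hθ (hEmax' F hF hle (IntermediateField.mem_adjoin_simple_self E θ))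
  -- nonsquares
  have hquad : ∀ g : E, ¬ IsSquare g → ∃ e : E, e ≠ 0 ∧
      (∀ w1 w2 w3 : E, ∃ α β γ : E,
        a' * w1 ^ 2 + b' * w2 ^ 2 + c' * w3 ^ 2 =
          e * (α ^ 2 - g * β ^ 2) - a' * b' * c' * g * γ ^ 2) ∧
      (∀ α β γ : E, ∃ w1 w2 w3 : E,
        a' * w1 ^ 2 + b' * w2 ^ 2 + c' * w3 ^ 2 =
          e * (α ^ 2 - g * β ^ 2) - a' * b' * c' * g * γ ^ 2) ∧
      (∀ α β γ : E, e * (α ^ 2 - g * β ^ 2) - a' * b' * c' * g * γ ^ 2 = 0 →
        α = 0 ∧ β = 0 ∧ γ = 0) := by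
    intro g hg
    have hg0 : g ≠ 0 := by
      rintro rfl
      exact hg ⟨0, by ring⟩
    obtain ⟨s, hs⟩ := IsAlgClosed.exists_pow_nat_eq (algebraMap E Ω g) (n := 2) (by norm_num)
    have hsE : s ∉ E := by
      intro hs'
      refine hg ⟨⟨s, hs'⟩, ?_⟩
      apply (algebraMap E Ω).injective
      rw [← hs, map_mul, sq]
      rfl
    have hind : ∀ u v : E, algebraMap E Ω u + algebraMap E Ω v * s = 0 → u = 0 ∧ v = 0 := by
      intro u v huv
      by_cases hv : v = 0
      · subst hv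
        refine ⟨?_, rfl⟩
        apply (algebraMap E Ω).injective
        rw [map_zero]
        simpa using huv
      · exfalso
        apply hsE
        have hv' : algebraMap E Ω v ≠ 0 := by
          rw [Ne, map_eq_zero]
          exact hv
        have : s = algebraMap E Ω (-u / v) := by
          rw [map_div₀, map_neg, eq_div_iff hv']
          linear_combination huv
        rw [this]
        exact (-u / v).2
    obtain ⟨x, hx, y, hy, z, hz, hne, h0⟩ := hext s hsE
    obtain ⟨x1, y1, rfl⟩ := mem_quad hs hx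
    obtain ⟨x2, y2, rfl⟩ := mem_quad hs hy
    obtain ⟨x3, y3, rfl⟩ := mem_quad hs hz
    obtain ⟨k1, k2⟩ := hind ((a' * x1 ^ 2 + b' * x2 ^ 2 + c' * x3 ^ 2) +
        g * (a' * y1 ^ 2 + b' * y2 ^ 2 + c' * y3 ^ 2))
      (2 * (a' * x1 * y1 + b' * x2 * y2 + c' * x3 * y3)) (by
        simp only [map_add, map_mul, map_pow, map_ofNat]
        linear_combination h0 - (algebraMap E Ω a' * algebraMap E Ω y1 ^ 2 +
          algebraMap E Ω b' * algebraMap E Ω y2 ^ 2 +
          algebraMap E Ω c' * algebraMap E Ω y3 ^ 2) * hs)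
    have k3 : a' * x1 * y1 + b' * x2 * y2 + c' * x3 * y3 = 0 :=
      (mul_eq_zero.1 k2).resolve_left two_ne_zero
    refine frame ha0 hb0 hc0 hg0 han (x1 := x1) (x2 := x2) (x3 := x3) (y1 := y1) (y2 := y2)
      (y3 := y3) k3 (by linear_combination k1) ?_
    intro hy0
    obtain ⟨rfl, rfl, rfl⟩ := han _ _ _ hy0
    obtain ⟨rfl, rfl, rfl⟩ := han x1 x2 x3 (by linear_combination k1 - g * hy0)
    simp at hne
  have hneg : ¬ IsSquare (-1 : E) := by
    rintro ⟨r, hr⟩
    obtain ⟨x, y, z, hne, h0⟩ := hVE E r (by rw [sq, ← hr]) a' b' c'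
    obtain ⟨rfl, rfl, rfl⟩ := han x y z h0
    simp at hne
  have hadd : ∀ x y : E, IsSquare (x ^ 2 + y ^ 2) := by
    intro x y
    by_contra hs
    have hs0 : x ^ 2 + y ^ 2 ≠ 0 := by
      intro h0
      exact hs (by rw [h0]; exact ⟨0, by ring⟩)
    obtain ⟨e, he, -, -, hC⟩ := hquad _ hs
    obtain ⟨u, v, huv⟩ := universal hVE hs0 (a' * b' * c' * (x ^ 2 + y ^ 2) / e)
    have h1 := (hC u v 1 (by
      rw [← huv]
      field_simp
      ring)).2.2
    exact one_ne_zero h1
  refine ⟨hneg, ?_, hadd, ?_⟩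
  · intro g
    by_contra hcon
    push Not at hcon
    obtain ⟨hg1, hg2⟩ := hcon
    obtain ⟨e, he, hA, -, hC⟩ := hquad g hg1
    obtain ⟨e', he', -, hB', -⟩ := hquad (-g) hg2
    obtain ⟨w1, w2, w3, hw⟩ := hB' 0 0 1
    obtain ⟨α, β, γ, hαβγ⟩ := hA w1 w2 w3
    rw [hw] at hαβγ
    obtain ⟨δ, hδ⟩ := hadd 1 γ
    have hδ0 : δ ≠ 0 := by
      rintro rfl
      exact hneg ⟨γ, by linear_combination -hδ⟩
    have h1 := (hC α β δ (by
      linear_combination -hαβγ + a' * b' * c' * g * hδ)).2.2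
    exact hδ0 h1
  · intro f hf hodd
    obtain ⟨θ, hθ⟩ := IsAlgClosed.exists_aeval_eq_zero Ω f (by
      exact Polynomial.degree_ne_of_natDegree_ne (by
        intro h0
        rw [h0] at hodd
        exact absurd hodd (by decide)))
    by_cases hθE : θ ∈ E
    · have hroot : f.IsRoot (⟨θ, hθE⟩ : E) := by
        rw [Polynomial.IsRoot]
        apply (algebraMap E Ω).injective
        rw [map_zero, ← hθ, ← Polynomial.aeval_algebraMap_apply_eq_algebraMap_eval]
        rfl
      exact Polynomial.natDegree_eq_of_degree_eq_some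
        (Polynomial.degree_eq_one_of_irreducible_of_root hf hroot)
    · exfalso
      obtain ⟨x, hx, y, hy, z, hz, hne, h0⟩ := hext θ hθE
      have hint : IsIntegral E θ := by
        have : IsAlgebraic E θ := ⟨f, hf.ne_zero, hθ⟩
        exact this.isIntegral
      have hfd : FiniteDimensional E (IntermediateField.adjoin E {θ}) :=
        IntermediateField.adjoin.finiteDimensional hint
      have hrk : Odd (Module.finrank E (IntermediateField.adjoin E {θ})) := by
        rw [IntermediateField.adjoin.finrank hint]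
        have hass : Associated (minpoly E θ) f := associated_of_dvd_dvd (minpoly.dvd E θ hθ)
          ((minpoly.irreducible hint).dvd_symm hf (minpoly.dvd E θ hθ))
        rw [Polynomial.natDegree_eq_of_degree_eq (Polynomial.degree_eq_degree_of_associated hass)]
        exact hodd
      obtain ⟨w, hw, hw0⟩ := Hm.springer hrk (Matrix.diagonal ![a', b', c'])
        ![⟨x, hx⟩, ⟨y, hy⟩, ⟨z, hz⟩] (by
          intro h1
          have e1 := congrFun h1 0
          have e2 := congrFun h1 1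
          have e3 := congrFun h1 2
          simp only [Matrix.cons_val_zero, Matrix.cons_val_one, Matrix.cons_val, Pi.zero_apply,
            Subtype.ext_iff, ZeroMemClass.coe_zero] at e1 e2 e3
          rcases hne with h2 | h2 | h2
          · exact h2 e1
          · exact h2 e2
          · exact h2 e3) (by
          apply Subtype.ext
          simp only [dotProduct, Matrix.diagonal_map (map_zero _), Matrix.mulVec_diagonal,
            Fin.sum_univ_three]
          simp
          have h0' : (a' : Ω) * x ^ 2 + (b' : Ω) * y ^ 2 + (c' : Ω) * z ^ 2 = 0 := h0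
          linear_combination h0')
      have h1 : a' * w 0 ^ 2 + b' * w 1 ^ 2 + c' * w 2 ^ 2 = 0 := by
        rw [← hw0]
        simp only [dotProduct, Matrix.mulVec_diagonal, Fin.sum_univ_three]
        simp
        ring
      obtain ⟨k1, k2, k3⟩ := han _ _ _ h1
      apply hw
      funext i
      fin_cases i
      · exact k1
      · exact k2
      · exact k3

end Rw
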