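import Pool.Agent.Lib.MP_f80667_ag.Rw.Hp3
import Pool.Agent.Lib.MP_f80667_ag.Hm.Frm5C

/-! The local-global principle for quadratic forms in at least three variables. -/

namespace Rw

universe u

section Signs

theorem maj_aux1 {A B C : Prop} (k1 : A → B → ¬ C) (k2 : ¬ A → ¬ B → ¬ ¬ C) :
    ¬ ((A ↔ B) ↔ C) ↔ (A ∧ B) ∨ (B ∧ C) ∨ (A ∧ C) := by
  by_cases hA : A <;> by_cases hB : B <;> by_cases hC : C <;> simp_all

theorem maj_aux2 {A B C Q : Prop} (k1 : (A → B → Q) ∧ (¬ A → ¬ B → ¬ Q))
    (k2 : (B → C → Q) ∧ (¬ B → ¬ C → ¬ Q)) (k3 : (A → C → Q) ∧ (¬ A → ¬ C → ¬ Q)) :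
    Q ↔ (A ∧ B) ∨ (B ∧ C) ∨ (A ∧ C) := by
  by_cases hA : A <;> by_cases hB : B <;> by_cases hC : C <;> simp_all

theorem maj_aux3 {A B C Q I J : Prop} (h1 : Q ↔ (A ∧ B) ∨ (B ∧ ¬ C) ∨ (A ∧ ¬ C))
    (h2 : (A ∨ B ∨ I) ∧ (¬ A ∨ ¬ B ∨ J)) (h3 : C → I) (h4 : ¬ C → J) : (Q ∨ I) ∧ (¬ Q ∨ J) := by
  by_cases hA : A <;> by_cases hB : B <;> by_cases hC : C <;> simp_all

variable {E : Type u} [Field E]

theorem RC.sq_ne (hE : RC E) (r : E) : r ^ 2 ≠ -1 := fun h =>
  hE.neg_one ⟨r, by rw [← h, pow_two]⟩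

theorem RC.eq_zero_of (hE : RC E) {x : E} (h1 : IsSquare x) (h2 : IsSquare (-x)) : x = 0 := by
  by_contra hx
  apply hE.neg_one
  have : (-1 : E) = -x / x := by field_simp
  rw [this]
  exact h2.div h1

theorem RC.not_iff (hE : RC E) {x : E} (hx : x ≠ 0) : ¬ IsSquare x ↔ IsSquare (-x) := by
  constructor
  · exact fun h => (hE.sq x).resolve_left h
  · exact fun h h1 => hx (hE.eq_zero_of h1 h)

theorem RC.neg_iff (hE : RC E) {x : E} (hx : x ≠ 0) : IsSquare (-x) ↔ ¬ IsSquare x :=
  (hE.not_iff hx).symm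

theorem RC.mul_iff (hE : RC E) {x y : E} (hx : x ≠ 0) (hy : y ≠ 0) :
    IsSquare (x * y) ↔ (IsSquare x ↔ IsSquare y) := by
  constructor
  · intro h
    constructor
    · intro h1
      have : y = x * y / x := by field_simp
      rw [this]
      exact h.div h1
    · intro h1
      have : x = x * y / y := by field_simp
      rw [this]
      exact h.div h1
  · intro h
    by_cases h1 : IsSquare x
    · exact h1.mul (h.1 h1)
    · have h2 : ¬ IsSquare y := fun h3 => h1 (h.2 h3)
      rw [hE.not_iff hx] at h1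
      rw [hE.not_iff hy] at h2
      have : x * y = -x * -y := by ring
      rw [this]
      exact h1.mul h2

theorem RC.add' (hE : RC E) {x y : E} (hx : IsSquare x) (hy : IsSquare y) : IsSquare (x + y) := by
  obtain ⟨a, rfl⟩ := hx
  obtain ⟨b, rfl⟩ := hy
  rw [← pow_two, ← pow_two]
  exact hE.add a b

theorem RC.add_zero' (hE : RC E) {x y : E} (hx : IsSquare x) (hy : IsSquare y) (h : x + y = 0) :
    x = 0 ∧ y = 0 := by
  have h1 : -x = y := by linear_combination -h
  have h2 := hE.eq_zero_of hx (by rwa [h1])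
  exact ⟨h2, by rw [← h1, h2, neg_zero]⟩

theorem RC.sum (hE : RC E) {ι : Type*} (s : Finset ι) (f : ι → E) (hf : ∀ i, IsSquare (f i)) :
    IsSquare (∑ i ∈ s, f i) ∧ (∑ i ∈ s, f i = 0 → ∀ i ∈ s, f i = 0) := by
  classical
  induction s using Finset.induction_on with
  | empty => simp
  | insert i s hi ih =>
    rw [Finset.sum_insert hi]
    refine ⟨hE.add' (hf i) ih.1, fun h => ?_⟩
    obtain ⟨h1, h2⟩ := hE.add_zero' (hf i) ih.1 h
    intro j hj
    rcases Finset.mem_insert.1 hj with rfl | h3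
    · exact h1
    · exact ih.2 h2 j h3

/-- The form `<a, b>` is positive if `a`, `b` are squares. -/
theorem RC.two_pos (hE : RC E) {a b : E} (ha : IsSquare a) (hb : IsSquare b) (u v : E) :
    IsSquare (a * u ^ 2 + b * v ^ 2) :=
  hE.add' (ha.mul (IsSquare.sq u)) (hb.mul (IsSquare.sq v))

theorem RC.contra (hE : RC E) {a b e α β u v : E} (he : e ≠ 0) (hαβ : α ≠ 0 ∨ β ≠ 0)
    (h : e * (α ^ 2 + β ^ 2) = a * u ^ 2 + b * v ^ 2) (ha : IsSquare a) (hb : IsSquare b) :
    IsSquare e := by
  by_contra hcon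
  rw [hE.not_iff he] at hcon
  have h1 : IsSquare (-(e * (α ^ 2 + β ^ 2))) := by
    rw [← neg_mul]
    exact hcon.mul (hE.add α β)
  have h2 := hE.two_pos ha hb u v
  rw [← h] at h2
  have h3 := hE.eq_zero_of h2 h1
  have h4 := (mul_eq_zero.1 h3).resolve_left he
  have h5 := hE.add_zero' (IsSquare.sq α) (IsSquare.sq β) h4
  rcases hαβ with h6 | h6
  · exact h6 (pow_eq_zero_iff two_ne_zero |>.1 h5.1)
  · exact h6 (pow_eq_zero_iff two_ne_zero |>.1 h5.2)

end Signs

variable {M : Type u} [Field M] [CharZero M]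

/-- A linear equation in two variables. -/
theorem exists_lin (x y : M) : ∃ α β : M, (α ≠ 0 ∨ β ≠ 0) ∧ α * x + β * y = 0 := by
  by_cases h : y = 0
  · exact ⟨0, 1, Or.inr one_ne_zero, by rw [h]; ring⟩
  · exact ⟨y, -x, Or.inl h, by ring⟩

/-- The sign of the majority. -/
theorem exists_maj (hM : Vcd M) {a b c : M} (ha : a ≠ 0) (hb : b ≠ 0) (hc : c ≠ 0) :
    ∃ e : M, e ≠ 0 ∧ ∀ E : IntermediateField M (AlgebraicClosure M), RC E →
      (IsSquare (algebraMap M E e) ↔
        (IsSquare (algebraMap M E a) ∧ IsSquare (algebraMap M E b)) ∨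
        (IsSquare (algebraMap M E b) ∧ IsSquare (algebraMap M E c)) ∨
        (IsSquare (algebraMap M E a) ∧ IsSquare (algebraMap M E c))) := by
  by_cases hi : ∃ i : M, i ^ 2 = -1
  · obtain ⟨i, hi⟩ := hi
    refine ⟨a, ha, fun E hE => absurd ?_ (hE.sq_ne (algebraMap M E i))⟩
    rw [← map_pow, hi, map_neg, map_one]
  · push Not at hi
    obtain ⟨x1, x2, y1, y2, z1, z2, hne, h1, h2⟩ := hM.coord hi a 0 b 0 c 0
    have hq : a * x1 ^ 2 + b * y1 ^ 2 + c * z1 ^ 2 = a * x2 ^ 2 + b * y2 ^ 2 + c * z2 ^ 2 := by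
      linear_combination h1
    have hB : a * x1 * x2 + b * y1 * y2 + c * z1 * z2 = 0 := by
      have : (2 : M) * (a * x1 * x2 + b * y1 * y2 + c * z1 * z2) = 2 * 0 := by
        linear_combination h2
      exact mul_left_cancel₀ two_ne_zero this
    by_cases he : a * x1 ^ 2 + b * y1 ^ 2 + c * z1 ^ 2 = 0
    · -- the form is isotropic
      obtain ⟨x, y, z, hxyz, h0⟩ : ∃ x y z : M, (x ≠ 0 ∨ y ≠ 0 ∨ z ≠ 0) ∧
          a * x ^ 2 + b * y ^ 2 + c * z ^ 2 = 0 := by
        by_cases hx : x1 ≠ 0 ∨ y1 ≠ 0 ∨ z1 ≠ 0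
        · exact ⟨x1, y1, z1, hx, he⟩
        · refine ⟨x2, y2, z2, ?_, by rw [← hq, he]⟩
          push Not at hx
          obtain ⟨hx1, hy1, hz1⟩ := hx
          simpa [hx1, hy1, hz1] using hne
      refine ⟨-(a * b * c), neg_ne_zero.2 (mul_ne_zero (mul_ne_zero ha hb) hc), fun E hE => ?_⟩
      have hm : ∀ t : M, t ≠ 0 → algebraMap M E t ≠ 0 := fun t ht => by
        rwa [Ne, map_eq_zero]
      have ha' := hm a ha
      have hb' := hm b hb
      have hc' := hm c hc
      have h0' : algebraMap M E a * algebraMap M E x ^ 2 + algebraMap M E b * algebraMap M E y ^ 2 +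
          algebraMap M E c * algebraMap M E z ^ 2 = 0 := by
        rw [← map_pow, ← map_pow, ← map_pow, ← map_mul, ← map_mul, ← map_mul, ← map_add, ← map_add,
          h0, map_zero]
      have hall : ∀ a b c x y z : E, a ≠ 0 → b ≠ 0 → c ≠ 0 → (x ≠ 0 ∨ y ≠ 0 ∨ z ≠ 0) →
          a * x ^ 2 + b * y ^ 2 + c * z ^ 2 = 0 → IsSquare a → IsSquare b → ¬ IsSquare c := by
        intro a b c x y z ha hb hc hxyz h0 h1 h2 h3
        obtain ⟨h4, h5⟩ := hE.add_zero' (hE.two_pos h1 h2 x y) (h3.mul (IsSquare.sq z)) h0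
        obtain ⟨h6, h7⟩ := hE.add_zero' (h1.mul (IsSquare.sq x)) (h2.mul (IsSquare.sq y)) h4
        simp only [mul_eq_zero, ha, hb, hc, false_or, pow_eq_zero_iff two_ne_zero] at h5 h6 h7
        simp [h5, h6, h7] at hxyz
      have hxyz' : algebraMap M E x ≠ 0 ∨ algebraMap M E y ≠ 0 ∨ algebraMap M E z ≠ 0 :=
        hxyz.imp (hm x) (Or.imp (hm y) (hm z))
      have k1 := hall _ _ _ _ _ _ ha' hb' hc' hxyz' h0'
      have k2 := hall (-algebraMap M E a) (-algebraMap M E b) (-algebraMap M E c) _ _ _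
        (neg_ne_zero.2 ha') (neg_ne_zero.2 hb') (neg_ne_zero.2 hc') hxyz'
        (by linear_combination -h0')
      rw [hE.neg_iff ha', hE.neg_iff hb', hE.neg_iff hc'] at k2
      rw [map_neg, map_mul, map_mul, hE.neg_iff (mul_ne_zero (mul_ne_zero ha' hb') hc'),
        hE.mul_iff (mul_ne_zero ha' hb') hc', hE.mul_iff ha' hb']
      exact maj_aux1 k1 k2
    · refine ⟨_, he, fun E hE => ?_⟩
      have hm : ∀ t : M, t ≠ 0 → algebraMap M E t ≠ 0 := fun t ht => by
        rwa [Ne, map_eq_zero]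
      have ha' := hm a ha
      have hb' := hm b hb
      have hc' := hm c hc
      set e := a * x1 ^ 2 + b * y1 ^ 2 + c * z1 ^ 2 with hedef
      have he' := hm e he
      have key : ∀ α β : M, e * (α ^ 2 + β ^ 2) = a * (α * x1 + β * x2) ^ 2 +
          b * (α * y1 + β * y2) ^ 2 + c * (α * z1 + β * z2) ^ 2 := by
        intro α β
        linear_combination α ^ 2 * hedef + β ^ 2 * hq - 2 * α * β * hB
      -- the three pairs
      have k : ∀ p q r p1 q1 r1 p2 q2 r2 : M, p ≠ 0 → q ≠ 0 →
          (∀ α β : M, e * (α ^ 2 + β ^ 2) = p * (α * p1 + β * p2) ^ 2 +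
            q * (α * q1 + β * q2) ^ 2 + r * (α * r1 + β * r2) ^ 2) →
          (IsSquare (algebraMap M E p) → IsSquare (algebraMap M E q) →
            IsSquare (algebraMap M E e)) ∧
          (¬ IsSquare (algebraMap M E p) → ¬ IsSquare (algebraMap M E q) →
            ¬ IsSquare (algebraMap M E e)) := by
        intro p q r p1 q1 r1 p2 q2 r2 hp hq hk
        obtain ⟨α, β, hαβ, h0⟩ := exists_lin r1 r2
        have h1 := hk α β
        rw [h0, zero_pow two_ne_zero, mul_zero, add_zero] at h1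
        have h2 := congrArg (algebraMap M E) h1
        simp only [map_mul, map_add, map_pow] at h2
        have hαβ' : algebraMap M E α ≠ 0 ∨ algebraMap M E β ≠ 0 := hαβ.imp (hm α) (hm β)
        refine ⟨fun h3 h4 => hE.contra he' hαβ' h2 h3 h4, fun h3 h4 => ?_⟩
        rw [hE.not_iff (hm p hp)] at h3
        rw [hE.not_iff (hm q hq)] at h4
        rw [hE.not_iff he']
        refine hE.contra (u := algebraMap M E α * algebraMap M E p1 +
          algebraMap M E β * algebraMap M E p2) (v := algebraMap M E α * algebraMap M E q1 +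
          algebraMap M E β * algebraMap M E q2) (neg_ne_zero.2 he') hαβ' ?_ h3 h4
        linear_combination -h2
      have k1 := k a b c x1 y1 z1 x2 y2 z2 ha hb key
      have k2 := k b c a y1 z1 x1 y2 z2 x2 hb hc (fun α β => by rw [key]; ring)
      have k3 := k a c b x1 z1 y1 x2 z2 y2 ha hc (fun α β => by rw [key]; ring)
      exact maj_aux2 k1 k2 k3

/-- Elements whose sign is always the sign of `a` or of `b` are values of `<a, b>`. -/
theorem exists_repr (hM : Vcd M) {a b e : M} (ha : a ≠ 0) (hb : b ≠ 0) (he : e ≠ 0)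
    (h : ∀ E : IntermediateField M (AlgebraicClosure M), RC E →
      ((IsSquare (algebraMap M E e) ↔ IsSquare (algebraMap M E a)) ∨
        (IsSquare (algebraMap M E e) ↔ IsSquare (algebraMap M E b)))) :
    ∃ x y : M, e = a * x ^ 2 + b * y ^ 2 := by
  by_cases h0 : ∀ x y z : M, a * x ^ 2 + b * y ^ 2 + -e * z ^ 2 = 0 → x = 0 ∧ y = 0 ∧ z = 0
  · exfalso
    obtain ⟨E, hE, h1⟩ := hp3 hM a b (-e) h0
    have hm : ∀ t : M, t ≠ 0 → algebraMap M E t ≠ 0 := fun t ht => by
      rwa [Ne, map_eq_zero]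
    have ha' := hm a ha
    have hb' := hm b hb
    have he' := hm e he
    rcases h E hE with h2 | h2
    · have h3 := (hE.mul_iff he' ha').2 h2
      obtain ⟨r, hr⟩ := h3
      have h4 := h1 r 0 (algebraMap M E a) (by
        rw [map_neg]
        linear_combination -algebraMap M E a * hr)
      exact ha' h4.2.2
    · have h3 := (hE.mul_iff he' hb').2 h2
      obtain ⟨r, hr⟩ := h3
      have h4 := h1 0 r (algebraMap M E b) (by
        rw [map_neg]
        linear_combination -algebraMap M E b * hr)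
      exact hb' h4.2.2
  · push Not at h0
    obtain ⟨x, y, z, h1, h2⟩ := h0
    by_cases hz : z = 0
    · subst hz
      have hx : x ≠ 0 := by
        rintro rfl
        have : y = 0 := by simpa [hb] using h1
        exact h2 rfl this rfl
      have hy : y ≠ 0 := by
        rintro rfl
        have : x = 0 := by simpa [ha] using h1
        exact hx this
      refine ⟨(e / a + 1) / 2, (e / a - 1) * y / (2 * x), ?_⟩
      have h3 : b = -(a * x ^ 2) / y ^ 2 := by
        field_simp
        linear_combination h1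
      rw [h3]
      field_simp
      ring
    · refine ⟨x / z, y / z, ?_⟩
      field_simp
      linear_combination -h1

/-- Two coefficients can be replaced by their maximum and minimum. -/
theorem exists_minmax {M : Type u} [Field M] [CharZero M] (hM : Vcd M) {a b : M} (ha : a ≠ 0)
    (hb : b ≠ 0) : ∃ d : M, d ≠ 0 ∧ (∃ x y : M, d = a * x ^ 2 + b * y ^ 2) ∧
      ∀ E : IntermediateField M (AlgebraicClosure M), RC E →
        (IsSquare (algebraMap M E d) ↔ IsSquare (algebraMap M E a) ∧ IsSquare (algebraMap M E b)) := by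
  have h1 : (1 : M) ≠ 0 := one_ne_zero
  obtain ⟨d, hd, hs⟩ := exists_maj hM ha hb (neg_ne_zero.2 h1)
  have hs' : ∀ E : IntermediateField M (AlgebraicClosure M), RC E →
      (IsSquare (algebraMap M E d) ↔
        IsSquare (algebraMap M E a) ∧ IsSquare (algebraMap M E b)) := by
    intro E hE
    rw [hs E hE, map_neg, map_one]
    have := hE.neg_one
    tauto
  refine ⟨d, hd, exists_repr hM ha hb hd fun E hE => ?_, hs'⟩
  have := hs' E hE
  tauto

/-- The local-global principle for diagonal forms. -/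
theorem hpd (hM : Vcd M) : ∀ (n : ℕ) (w : Fin (n + 3) → M), (∀ i, w i ≠ 0) →
    (∀ E : IntermediateField M (AlgebraicClosure M), RC E →
      (∃ i, IsSquare (algebraMap M E (w i))) ∧ ∃ i, ¬ IsSquare (algebraMap M E (w i))) →
    ∃ x : Fin (n + 3) → M, x ≠ 0 ∧ ∑ i, w i * x i ^ 2 = 0 := by
  intro n
  induction n with
  | zero =>
    intro w hw h
    by_contra hcon
    push Not at hcon
    obtain ⟨E, hE, h1⟩ := hp3 hM (w 0) (w 1) (w 2) (by
      intro x y z hxyz
      by_contra h2
      refine hcon ![x, y, z] (fun h3 => h2 ?_) ?_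
      · exact ⟨congrFun h3 0, congrFun h3 1, congrFun h3 2⟩
      · rw [Fin.sum_univ_three]
        exact hxyz)
    obtain ⟨⟨i, hi⟩, ⟨j, hj⟩⟩ := h E hE
    have hm : ∀ t : M, t ≠ 0 → algebraMap M E t ≠ 0 := fun t ht => by
      rwa [Ne, map_eq_zero]
    rw [hE.not_iff (hm _ (hw j))] at hj
    obtain ⟨r, hr⟩ := hi
    obtain ⟨s, hs⟩ := hj
    have hij : i ≠ j := by
      rintro rfl
      exact hm _ (hw i) (hE.eq_zero_of ⟨r, hr⟩ ⟨s, hs⟩)
    have hr0 : r ≠ 0 := by
      rintro rfl
      exact hm _ (hw i) (by rw [hr, mul_zero])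
    have h2 : algebraMap M E (w i) * s ^ 2 + algebraMap M E (w j) * r ^ 2 = 0 := by
      rw [hr]
      linear_combination -r ^ 2 * hs
    have h3 : ∀ k : Fin 3, (if k = i then s else if k = j then r else 0) = 0 := by
      have := h1 (if 0 = i then s else if 0 = j then r else 0)
        (if 1 = i then s else if 1 = j then r else 0)
        (if 2 = i then s else if 2 = j then r else 0) (by
          fin_cases i <;> fin_cases j <;> simp at hij h2 ⊢ <;> linear_combination h2)
      intro k
      fin_cases k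
      · exact this.1
      · exact this.2.1
      · exact this.2.2
    have h4 := h3 j
    rw [if_neg (Ne.symm hij), if_pos rfl] at h4
    exact hr0 h4
  | succ n ih =>
    intro w hw h
    obtain ⟨e, he, hs⟩ := exists_maj hM (hw 0) (hw 1) (neg_ne_zero.2 (hw 2))
    have hs' : ∀ E : IntermediateField M (AlgebraicClosure M), RC E →
        (IsSquare (algebraMap M E e) ↔
          (IsSquare (algebraMap M E (w 0)) ∧ IsSquare (algebraMap M E (w 1))) ∨
          (IsSquare (algebraMap M E (w 1)) ∧ ¬ IsSquare (algebraMap M E (w 2))) ∨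
          (IsSquare (algebraMap M E (w 0)) ∧ ¬ IsSquare (algebraMap M E (w 2)))) := by
      intro E hE
      rw [hs E hE, map_neg, hE.neg_iff (by rw [Ne, map_eq_zero]; exact hw 2)]
    obtain ⟨p, q, hpq⟩ := exists_repr hM (hw 0) (hw 1) he fun E hE => by
      have := hs' E hE
      tauto
    have hpq0 : p ≠ 0 ∨ q ≠ 0 := by
      by_contra hcon
      push Not at hcon
      apply he
      rw [hpq, hcon.1, hcon.2]
      ring
    obtain ⟨x, hx0, hx⟩ := ih (Fin.cons e fun i : Fin (n + 2) => w i.succ.succ) (by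
      intro i
      refine Fin.cases he (fun i => ?_) i
      rw [Fin.cons_succ]
      exact hw _) (by
      intro E hE
      have h1 := hs' E hE
      have h2 := h E hE
      have e1 : ∀ P : M → Prop, (∃ i, P ((Fin.cons e fun i : Fin (n + 2) => w i.succ.succ :
          Fin (n + 3) → M) i)) ↔ P e ∨ ∃ i : Fin (n + 2), P (w i.succ.succ) := by
        intro P
        rw [Fin.exists_fin_succ, Fin.cons_zero]
        simp only [Fin.cons_succ]
      have e2 : ∀ P : M → Prop, (∃ i, P (w i)) ↔ P (w 0) ∨ P (w 1) ∨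
          ∃ i : Fin (n + 2), P (w i.succ.succ) := by
        intro P
        rw [Fin.exists_fin_succ, Fin.exists_fin_succ]
        rfl
      have e3 : ∀ P : M → Prop, P (w 2) → ∃ i : Fin (n + 2), P (w i.succ.succ) :=
        fun P hP => ⟨0, hP⟩
      rw [e2 fun t => IsSquare (algebraMap M E t), e2 fun t => ¬ IsSquare (algebraMap M E t)] at h2
      rw [e1 fun t => IsSquare (algebraMap M E t), e1 fun t => ¬ IsSquare (algebraMap M E t)]
      exact maj_aux3 h1 h2 (e3 fun t => IsSquare (algebraMap M E t))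
        (e3 fun t => ¬ IsSquare (algebraMap M E t)))
    refine ⟨Fin.cons (p * x 0) (Fin.cons (q * x 0) fun i => x i.succ), ?_, ?_⟩
    · intro h0
      apply hx0
      have h1 : p * x 0 = 0 := congrFun h0 0
      have h2 : q * x 0 = 0 := congrFun h0 1
      have h3 : ∀ i : Fin (n + 2), x i.succ = 0 := fun i => congrFun h0 i.succ.succ
      have h4 : x 0 = 0 := by
        rcases hpq0 with h5 | h5
        · exact (mul_eq_zero.1 h1).resolve_left h5
        · exact (mul_eq_zero.1 h2).resolve_left h5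
      funext i
      refine Fin.cases h4 (fun i => h3 i) i
    · have h5 : ∀ z : Fin (n + 1 + 3) → M, ∑ i, w i * z i ^ 2 =
          w 0 * z 0 ^ 2 + (w 1 * z 1 ^ 2 + ∑ i : Fin (n + 2), w i.succ.succ * z i.succ.succ ^ 2) := by
        intro z
        rw [Fin.sum_univ_succ, Fin.sum_univ_succ]
        rfl
      rw [Fin.sum_univ_succ] at hx
      change e * x 0 ^ 2 + ∑ i : Fin (n + 2), w i.succ.succ * x i.succ ^ 2 = 0 at hx
      rw [h5]
      change w 0 * (p * x 0) ^ 2 + (w 1 * (q * x 0) ^ 2 +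
        ∑ i : Fin (n + 2), w i.succ.succ * x i.succ ^ 2) = 0
      linear_combination hx - x 0 ^ 2 * hpq

theorem val_of_diag {F : Type*} [Field F] (h2 : (2 : F) ≠ 0) {m : ℕ}
    {A P : Matrix (Fin m) (Fin m) F} {w : Fin m → F}
    (hD : P.transpose * A * P + (P.transpose * A * P).transpose = (2 : F) • Matrix.diagonal w)
    (x : Fin m → F) :
    dotProduct (P.mulVec x) (A.mulVec (P.mulVec x)) = ∑ i, w i * x i ^ 2 := by
  have h1 : dotProduct (P.mulVec x) (A.mulVec (P.mulVec x)) =
      dotProduct x ((P.transpose * A * P).mulVec x) := by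
    rw [Matrix.mul_assoc, ← Matrix.mulVec_mulVec, ← Matrix.mulVec_mulVec,
      Matrix.dotProduct_mulVec x, Matrix.vecMul_transpose]
  have h3 : dotProduct x ((P.transpose * A * P).transpose.mulVec x) =
      dotProduct x ((P.transpose * A * P).mulVec x) := by
    rw [Matrix.mulVec_transpose, dotProduct_comm, Matrix.dotProduct_mulVec]
  have h4 : dotProduct x (((2 : F) • Matrix.diagonal w).mulVec x) = 2 * ∑ i, w i * x i ^ 2 := by
    rw [Matrix.smul_mulVec, dotProduct_smul, smul_eq_mul]
    congr 1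
    simp only [dotProduct, Matrix.mulVec_diagonal]
    exact Finset.sum_congr rfl fun i _ => by ring
  have h5 : 2 * (dotProduct x ((P.transpose * A * P).mulVec x)) = 2 * ∑ i, w i * x i ^ 2 := by
    rw [← h4, ← hD, Matrix.add_mulVec, dotProduct_add, h3]
    ring
  rw [h1]
  exact mul_left_cancel₀ h2 h5

/-- **Local-global principle** for quadratic forms in at least three variables. -/
theorem hpn {M : Type u} [Field M] [CharZero M] (hM : Vcd M) {n : ℕ} (hn : 3 ≤ n)
    (A : Matrix (Fin n) (Fin n) M)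
    (h : ∀ E : IntermediateField M (AlgebraicClosure M), RC E →
      ∃ x : Fin n → E, x ≠ 0 ∧ dotProduct x ((A.map (algebraMap M E)).mulVec x) = 0) :
    ∃ x : Fin n → M, x ≠ 0 ∧ dotProduct x (A.mulVec x) = 0 := by
  classical
  obtain ⟨w, P, Q, hPQ, hQP, hD⟩ := Hm.exists_diag A
  have h2 : (2 : M) ≠ 0 := two_ne_zero
  have hval := val_of_diag h2 hD
  have hinj : ∀ x : Fin n → M, P.mulVec x = 0 → x = 0 := by
    intro x hx
    have : Q.mulVec (P.mulVec x) = x := by rw [Matrix.mulVec_mulVec, hQP, Matrix.one_mulVec]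
    rw [← this, hx, Matrix.mulVec_zero]
  suffices hs : ∃ x : Fin n → M, x ≠ 0 ∧ ∑ i, w i * x i ^ 2 = 0 by
    obtain ⟨x, hx0, hx⟩ := hs
    exact ⟨P.mulVec x, fun h => hx0 (hinj x h), by rw [hval, hx]⟩
  by_cases hw : ∃ i, w i = 0
  · obtain ⟨i, hi⟩ := hw
    refine ⟨Pi.single i 1, fun h => ?_, ?_⟩
    · have := congrFun h i
      simp at this
    · rw [Finset.sum_eq_single i]
      · rw [hi, zero_mul]
      · intro j _ hj
        rw [Pi.single_eq_of_ne hj]
        ring
      · intro h
        exact absurd (Finset.mem_univ i) h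
  · push Not at hw
    obtain ⟨m, rfl⟩ := Nat.exists_eq_add_of_le' hn
    refine hpd hM m w hw fun E hE => ?_
    obtain ⟨x, hx0, hx⟩ := h E hE
    set φ := algebraMap M E with hφ
    have hw' : ∀ i, φ (w i) ≠ 0 := fun i => by
      have := hw i
      rwa [Ne, map_eq_zero]
    have hDφ : (P.map φ).transpose * A.map φ * P.map φ +
        ((P.map φ).transpose * A.map φ * P.map φ).transpose =
        (2 : E) • Matrix.diagonal fun i => φ (w i) := by
      have h1 := congrArg (fun M : Matrix (Fin (m + 3)) (Fin (m + 3)) M => M.map φ) hD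
      simp only [Matrix.map_add φ (map_add φ), Matrix.map_mul, Matrix.transpose_map] at h1
      rw [h1]
      ext i j
      rw [Matrix.map_apply, Matrix.smul_apply, Matrix.smul_apply, smul_eq_mul, smul_eq_mul,
        map_mul, map_ofNat]
      by_cases hij : i = j
      · subst hij
        rw [Matrix.diagonal_apply_eq, Matrix.diagonal_apply_eq]
      · rw [Matrix.diagonal_apply_ne _ hij, Matrix.diagonal_apply_ne _ hij, map_zero]
    have hPQφ : P.map φ * Q.map φ = 1 := by
      rw [← Matrix.map_mul, hPQ, Matrix.map_one _ (map_zero φ) (map_one φ)]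
    set y := (Q.map φ).mulVec x with hy
    have hPy : (P.map φ).mulVec y = x := by
      rw [hy, Matrix.mulVec_mulVec, hPQφ, Matrix.one_mulVec]
    have hy0 : y ≠ 0 := by
      intro h
      rw [h, Matrix.mulVec_zero] at hPy
      exact hx0 hPy.symm
    have hzero : ∑ i, φ (w i) * y i ^ 2 = 0 := by
      rw [← val_of_diag two_ne_zero hDφ y, hPy, hx]
    have key : ∀ v : Fin (m + 3) → E, (∀ i, v i ≠ 0) → (∀ i, IsSquare (v i)) →
        ∑ i, v i * y i ^ 2 = 0 → False := by
      intro v hv0 hv hv1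
      apply hy0
      funext i
      have h3 := (hE.sum Finset.univ (fun i => v i * y i ^ 2)
        fun i => (hv i).mul (IsSquare.sq (y i))).2 hv1 i (Finset.mem_univ i)
      have h4 := (mul_eq_zero.1 h3).resolve_left (hv0 i)
      exact pow_eq_zero_iff two_ne_zero |>.1 h4
    constructor
    · by_contra hcon
      push Not at hcon
      refine key (fun i => -φ (w i)) (fun i => neg_ne_zero.2 (hw' i))
        (fun i => (hE.not_iff (hw' i)).1 (hcon i)) ?_
      have : ∑ i, -φ (w i) * y i ^ 2 = -∑ i, φ (w i) * y i ^ 2 := by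
        rw [← Finset.sum_neg_distrib]
        exact Finset.sum_congr rfl fun i _ => by ring
      rw [this, hzero, neg_zero]
    · by_contra hcon
      push Not at hcon
      exact key (fun i => φ (w i)) hw' hcon hzero

end Rw
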