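import Pool.Agent.Lib.MP_f80667_ag.Rw.Tsen
import Pool.Agent.Lib.MP_f80667_ag.Cu.CycB

/-! Function fields of one variable over a field isomorphic to the real numbers. -/

namespace Rw

open ZC

/-- A function field of one variable over a field isomorphic to the real numbers which contains a
square root of `-1` satisfies `Tern` (it is a function field over the complex numbers). -/
theorem tern_of_sqrt {k L : Type} [Field k] (e : k ≃+* ℝ) [Field L] [Algebra k L]
    (hL : IsFunField k L) {i : L} (hi : i ^ 2 = -1) : Tern L := by
  let algR : Algebra ℝ L := ((algebraMap k L).comp (e.symm : ℝ →+* k)).toAlgebra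
  let ψ : ℂ →ₐ[ℝ] L := Complex.lift ⟨i, by rw [← sq, hi]⟩
  let algC : Algebra ℂ L := (ψ : ℂ →+* L).toAlgebra
  have hst : IsScalarTower ℝ ℂ L := IsScalarTower.of_algebraMap_eq fun r => (ψ.commutes r).symm
  have hk : ∀ x : k, algebraMap k L x = algebraMap ℂ L (algebraMap ℝ ℂ (e x)) := by
    intro x
    rw [← IsScalarTower.algebraMap_apply ℝ ℂ L]
    change _ = algebraMap k L (e.symm (e x))
    rw [e.symm_apply_apply]
  obtain ⟨t, ht, hfin⟩ := hL
  have htr : Transcendental ℂ t := by
    intro h
    apply ht
    have hC : Algebra.IsAlgebraic ℝ ℂ := inferInstance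
    have h1 : IsAlgebraic ℝ t := h.restrictScalars ℝ
    obtain ⟨p, hp, hp0⟩ := h1
    refine ⟨p.map (e.symm : ℝ →+* k), ?_, ?_⟩
    · exact (Polynomial.map_ne_zero_iff e.symm.injective).2 hp
    · rw [Polynomial.aeval_def, Polynomial.eval₂_map]
      rw [Polynomial.aeval_def] at hp0
      exact hp0
  have hsub : ∀ a : IntermediateField.adjoin k {t}, (a : L) ∈ IntermediateField.adjoin ℂ {t} := by
    rintro ⟨a, ha⟩
    induction ha using IntermediateField.adjoin_induction with
    | mem x hx => exact IntermediateField.subset_adjoin _ _ hx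
    | algebraMap x =>
      change algebraMap k L x ∈ _
      rw [hk]
      exact IntermediateField.algebraMap_mem _ _
    | add x y _ _ hx hy => exact add_mem hx hy
    | inv x _ hx => exact inv_mem hx
    | mul x y _ _ hx hy => exact mul_mem hx hy
  have hfin' : FiniteDimensional (IntermediateField.adjoin ℂ {t}) L := by
    obtain ⟨s, hs⟩ := Module.finite_def.1 hfin
    refine Module.finite_def.2 ⟨s, ?_⟩
    rw [eq_top_iff]
    intro x _
    have hx : x ∈ Submodule.span (IntermediateField.adjoin k {t}) (s : Set L) := by
      rw [hs]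
      trivial
    induction hx using Submodule.span_induction with
    | mem x hx => exact Submodule.subset_span hx
    | zero => exact Submodule.zero_mem _
    | add x y _ _ hx hy => exact Submodule.add_mem _ (hx trivial) (hy trivial)
    | smul a x _ hx =>
      have h1 : a • x = (⟨a, hsub a⟩ : IntermediateField.adjoin ℂ {t}) • x := rfl
      rw [h1]
      exact Submodule.smul_mem _ _ (hx trivial)
  exact tsen (C := ℂ) ⟨t, htr, hfin'⟩

/-- Function fields of one variable over a field isomorphic to the real numbers satisfy `Vcd`. (Given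
`a, b, c ∈ L`, the subfield `L₀` generated over `M` by `i, a, b, c` is finite over `M`, and it is a
function field of one variable over `k(i) ≃ ℂ`, which is algebraically closed.) -/
theorem vcd_of_funField {k M : Type} [Field k] (e : k ≃+* ℝ) [Field M] [Algebra k M]
    (hM : IsFunField k M) : Vcd M := by
  intro L _ _ _ i hi a b c
  let L₀ : IntermediateField M L := IntermediateField.adjoin M {i, a, b, c}
  have hfd : FiniteDimensional M L₀ := by
    have hf : Finite ({i, a, b, c} : Set L) := Set.toFinite _
    exact IntermediateField.finiteDimensional_adjoin fun x _ => Algebra.IsIntegral.isIntegral x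
  let algk : Algebra k L₀ := ((algebraMap M L₀).comp (algebraMap k M)).toAlgebra
  have hst : IsScalarTower k M L₀ := IsScalarTower.of_algebraMap_eq fun _ => rfl
  have hF : IsFunField k L₀ := Cu.isFunField_ext hM
  have hmem : ∀ x ∈ ({i, a, b, c} : Set L), x ∈ L₀ := fun x hx =>
    IntermediateField.subset_adjoin _ _ hx
  have hi' : (⟨i, hmem i (by simp)⟩ : L₀) ^ 2 = -1 := by
    apply Subtype.ext
    exact hi
  obtain ⟨x, y, z, h0, h⟩ := tern_of_sqrt e hF hi' ⟨a, hmem a (by simp)⟩ ⟨b, hmem b (by simp)⟩
    ⟨c, hmem c (by simp)⟩
  refine ⟨x, y, z, ?_, ?_⟩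
  · rcases h0 with h0 | h0 | h0
    · left
      exact fun h => h0 (Subtype.ext h)
    · right
      left
      exact fun h => h0 (Subtype.ext h)
    · right
      right
      exact fun h => h0 (Subtype.ext h)
  · have := congrArg (algebraMap L₀ L) h
    simpa using this

end Rw
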