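import Pool.Agent.Lib.MP_f80667_ag.Rw.Hpn
import Pool.Agent.Lib.MP_f80667_ag.Rw.Al
import Pool.Agent.Lib.MP_f80667_ag.Rw.Vcd
import Pool.Agent.Lib.MP_f80667_ag.Rw.Rcr
import Pool.Agent.Lib.MP_f80667_ag.Hm.Frm5C

/-! Quadratic forms over function fields of real curves which have zeros at all real points. -/

namespace Rw

open ZC Matrix

private theorem val_diag {F : Type*} [Field F] (h2 : (2 : F) ≠ 0) {m : ℕ}
    {A P : Matrix (Fin m) (Fin m) F} {w : Fin m → F}
    (hD : Pᵀ * A * P + (Pᵀ * A * P)ᵀ = (2 : F) • diagonal w) (x : Fin m → F) :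
    (P *ᵥ x) ⬝ᵥ (A *ᵥ (P *ᵥ x)) = ∑ i, w i * x i ^ 2 := by
  have h1 : (P *ᵥ x) ⬝ᵥ (A *ᵥ (P *ᵥ x)) = x ⬝ᵥ ((Pᵀ * A * P) *ᵥ x) := by
    rw [Matrix.mul_assoc, ← Matrix.mulVec_mulVec, ← Matrix.mulVec_mulVec,
      Matrix.dotProduct_mulVec x, Matrix.vecMul_transpose]
  have h3 : x ⬝ᵥ ((Pᵀ * A * P)ᵀ *ᵥ x) = x ⬝ᵥ ((Pᵀ * A * P) *ᵥ x) := by
    rw [Matrix.mulVec_transpose, dotProduct_comm, Matrix.dotProduct_mulVec]
  have h4 : x ⬝ᵥ (((2 : F) • diagonal w) *ᵥ x) = 2 * ∑ i, w i * x i ^ 2 := by
    rw [Matrix.smul_mulVec, dotProduct_smul, smul_eq_mul]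
    congr 1
    simp only [dotProduct, mulVec_diagonal]
    exact Finset.sum_congr rfl fun i _ => by ring
  have h5 : 2 * (x ⬝ᵥ ((Pᵀ * A * P) *ᵥ x)) = 2 * ∑ i, w i * x i ^ 2 := by
    rw [← h4, ← hD, Matrix.add_mulVec, dotProduct_add, h3]
    ring
  rw [h1]
  exact mul_left_cancel₀ h2 h5

private theorem map_diag {R F : Type*} [CommRing R] [Field F] (f : R →+* F) {m : ℕ}
    {A P : Matrix (Fin m) (Fin m) R} {w : Fin m → R}
    (hD : Pᵀ * A * P + (Pᵀ * A * P)ᵀ = (2 : R) • diagonal w) :
    (P.map f)ᵀ * A.map f * P.map f + ((P.map f)ᵀ * A.map f * P.map f)ᵀ =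
      (2 : F) • diagonal fun i => f (w i) := by
  have h1 := congrArg (fun M : Matrix (Fin m) (Fin m) R => M.map f) hD
  simp only [Matrix.map_add f (map_add f), Matrix.map_mul, Matrix.transpose_map] at h1
  rw [h1]
  ext i j
  by_cases hij : i = j
  · subst hij
    simp only [Matrix.map_apply, Matrix.smul_apply, diagonal_apply_eq, smul_eq_mul, map_mul,
      map_ofNat]
  · simp [hij]

/-- A sum of squares vanishes only trivially. -/
private theorem sum_sq {k : Type} [Field k] (e : k ≃+* ℝ) {n : ℕ} (u y : Fin n → k)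
    (h : ∑ i, (u i * y i) ^ 2 = 0) (i : Fin n) : u i * y i = 0 := by
  have h1 : ∑ i, (e (u i * y i)) ^ 2 = 0 := by
    have := congrArg e h
    simpa only [map_sum, map_pow, map_zero] using this
  rw [Finset.sum_eq_zero_iff_of_nonneg fun i _ => sq_nonneg _] at h1
  have h2 := h1 i (Finset.mem_univ i)
  rw [sq_eq_zero_iff] at h2
  exact (map_eq_zero_iff e e.injective).1 h2

/-- If all fibres of a family of quadrics over the real points of the base have real points, the
fibre over a point of the base over a function field `M` of one variable has a point over `M`. -/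
theorem iso_fun {k M : Type} [Field k] (e : k ≃+* ℝ) [Field M] [Algebra k M]
    (hM : IsFunField k M) {n N : ℕ} {κ : Type} (hn : 3 ≤ n) (h : κ → MvPolynomial (Fin N) k)
    (A : Matrix (Fin n) (Fin n) (MvPolynomial (Fin N) k)) (w : Fin N → M) (hw : w ≠ 0)
    (hZ : Zer h M w)
    (hreal : ∀ w : Fin N → k, w ≠ 0 → Zer h k w → ∃ x : Fin n → k, x ≠ 0 ∧
      dotProduct x ((A.map (MvPolynomial.aeval w)).mulVec x) = 0) :
    ∃ x : Fin n → M, x ≠ 0 ∧ dotProduct x ((A.map (MvPolynomial.aeval w)).mulVec x) = 0 := by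
  classical
  have hck : CharZero k := charZero_of_injective_ringHom (f := (e.symm : ℝ →+* k)) e.symm.injective
  have hcM : CharZero M := charZero_of_injective_algebraMap (algebraMap k M).injective
  refine hpn (vcd_of_funField e hM) hn _ fun E hE => ?_
  set B : Matrix (Fin n) (Fin n) M := A.map (MvPolynomial.aeval w) with hB
  obtain ⟨a, P, Q, hPQ, hQP, hD⟩ := Hm.exists_diag B
  have hcE : CharZero E := charZero_of_injective_algebraMap (algebraMap M E).injective
  have hval := val_diag (two_ne_zero) (map_diag (algebraMap M E) hD)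
  have hQPE : Q.map (algebraMap M E) * P.map (algebraMap M E) = 1 := by
    rw [← Matrix.map_mul, hQP, Matrix.map_one _ (map_zero _) (map_one _)]
  have hinj : ∀ x : Fin n → E, P.map (algebraMap M E) *ᵥ x = 0 → x = 0 := by
    intro x hx
    have : Q.map (algebraMap M E) *ᵥ (P.map (algebraMap M E) *ᵥ x) = x := by
      rw [Matrix.mulVec_mulVec, hQPE, Matrix.one_mulVec]
    rw [← this, hx, Matrix.mulVec_zero]
  suffices hs : ∃ x : Fin n → E, x ≠ 0 ∧ ∑ i, algebraMap M E (a i) * x i ^ 2 = 0 by
    obtain ⟨x, hx0, hx⟩ := hs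
    exact ⟨P.map (algebraMap M E) *ᵥ x, fun h => hx0 (hinj x h), by rw [hval, hx]⟩
  by_contra hno
  push Not at hno
  -- all coefficients are nonzero
  have ha0 : ∀ i, a i ≠ 0 := by
    intro i hi
    refine hno (Pi.single i 1) (fun h => ?_) ?_
    · have := congrFun h i
      simp at this
    · rw [Finset.sum_eq_single i]
      · rw [hi, map_zero, zero_mul]
      · intro j _ hj
        rw [Pi.single_eq_of_ne hj]
        ring
      · intro h
        exact absurd (Finset.mem_univ i) h
  have haE : ∀ i, algebraMap M E (a i) ≠ 0 := fun i => by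
    rw [Ne, map_eq_zero]
    exact ha0 i
  -- all have the same sign
  have hsame : ∀ i j, IsSquare (algebraMap M E (a i)) → IsSquare (algebraMap M E (a j)) := by
    intro i j hi
    rcases hE.sq (algebraMap M E (a j)) with hj | hj
    · exact hj
    exfalso
    obtain ⟨u, hu⟩ := hi
    obtain ⟨v, hv⟩ := hj
    have hij : i ≠ j := by
      rintro rfl
      have hu0 : u ≠ 0 := by
        rintro rfl
        exact haE i (by rw [hu, mul_zero])
      refine hE.neg_one ⟨v / u, ?_⟩
      field_simp
      linear_combination hu + hv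
    refine hno (Pi.single i v + Pi.single j u) (fun h => ?_) ?_
    · have := congrFun h j
      rw [Pi.add_apply, Pi.single_eq_same, Pi.single_eq_of_ne (Ne.symm hij), zero_add] at this
      refine haE i ?_
      rw [hu]
      rw [show u = 0 from this, mul_zero]
    · rw [← Finset.add_sum_erase _ _ (Finset.mem_univ i),
        ← Finset.add_sum_erase _ _ (Finset.mem_erase.2 ⟨Ne.symm hij, Finset.mem_univ j⟩)]
      rw [Finset.sum_eq_zero, Pi.add_apply, Pi.add_apply, Pi.single_eq_same, Pi.single_eq_same,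
        Pi.single_eq_of_ne hij, Pi.single_eq_of_ne (Ne.symm hij)]
      · linear_combination v ^ 2 * hu - u ^ 2 * hv
      · intro l hl
        simp only [Finset.mem_erase, Finset.mem_univ, and_true] at hl
        rw [Pi.add_apply, Pi.single_eq_of_ne hl.2, Pi.single_eq_of_ne hl.1]
        ring
  -- the finite set
  let S : Finset M := Finset.univ.image w ∪ Finset.univ.image (fun p : Fin n × Fin n => P p.1 p.2) ∪
    Finset.univ.image (fun p : Fin n × Fin n => Q p.1 p.2) ∪ Finset.univ.image a
  have hwS : ∀ i, w i ∈ S := fun i => by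
    refine Finset.mem_union_left _ (Finset.mem_union_left _ (Finset.mem_union_left _ ?_))
    exact Finset.mem_image_of_mem _ (Finset.mem_univ _)
  have hPS : ∀ i j, P i j ∈ S := fun i j => by
    refine Finset.mem_union_left _ (Finset.mem_union_left _ (Finset.mem_union_right _ ?_))
    exact Finset.mem_image_of_mem (fun p : Fin n × Fin n => P p.1 p.2) (Finset.mem_univ (i, j))
  have hQS : ∀ i j, Q i j ∈ S := fun i j => by
    refine Finset.mem_union_left _ (Finset.mem_union_right _ ?_)
    exact Finset.mem_image_of_mem (fun p : Fin n × Fin n => Q p.1 p.2) (Finset.mem_univ (i, j))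
  have haS : ∀ i, a i ∈ S := fun i => by
    refine Finset.mem_union_right _ ?_
    exact Finset.mem_image_of_mem _ (Finset.mem_univ _)
  obtain ⟨φ, hφ⟩ := artin_lang e hM hE S
  let R := Algebra.adjoin k (S : Set M)
  let w' : Fin N → R := fun i => ⟨w i, Algebra.subset_adjoin (hwS i)⟩
  let P' : Matrix (Fin n) (Fin n) R := fun i j => ⟨P i j, Algebra.subset_adjoin (hPS i j)⟩
  let Q' : Matrix (Fin n) (Fin n) R := fun i j => ⟨Q i j, Algebra.subset_adjoin (hQS i j)⟩
  let a' : Fin n → R := fun i => ⟨a i, Algebra.subset_adjoin (haS i)⟩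
  have hw' : ∀ p : MvPolynomial (Fin N) k,
      (MvPolynomial.aeval w' p : M) = MvPolynomial.aeval w p := by
    intro p
    have h1 := MvPolynomial.comp_aeval_apply w' R.val p
    exact h1
  have hφw : ∀ p : MvPolynomial (Fin N) k,
      φ (MvPolynomial.aeval w' p) = MvPolynomial.aeval (fun i => φ (w' i)) p := by
    intro p
    exact MvPolynomial.comp_aeval_apply w' φ p
  let B' : Matrix (Fin n) (Fin n) R := A.map (MvPolynomial.aeval w')
  have hB' : B'.map (algebraMap R M) = B := by
    ext i j
    exact hw' (A i j)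
  have hRM : Function.Injective (fun X : Matrix (Fin n) (Fin n) R => X.map (algebraMap R M)) := by
    intro X Y hXY
    ext i j
    exact congrFun (congrFun hXY i) j
  have hD' : P'ᵀ * B' * P' + (P'ᵀ * B' * P')ᵀ = (2 : R) • diagonal a' := by
    apply hRM
    show (P'ᵀ * B' * P' + (P'ᵀ * B' * P')ᵀ).map (algebraMap R M) =
      ((2 : R) • diagonal a').map (algebraMap R M)
    simp only [Matrix.map_add _ (map_add _), Matrix.map_mul, Matrix.transpose_map]
    rw [hB']
    refine Eq.trans hD ?_
    ext i j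
    by_cases hij : i = j
    · subst hij
      simp only [Matrix.map_apply, Matrix.smul_apply, diagonal_apply_eq, smul_eq_mul, map_mul,
        map_ofNat]
      rfl
    · simp [hij]
  have hPQ' : P' * Q' = 1 := by
    apply hRM
    show (P' * Q').map (algebraMap R M) = (1 : Matrix (Fin n) (Fin n) R).map (algebraMap R M)
    rw [Matrix.map_mul, Matrix.map_one _ (map_zero _) (map_one _)]
    exact hPQ
  -- specialise
  have hw0 : (fun i => φ (w' i)) ≠ 0 := by
    intro h0
    apply hw
    funext i
    by_contra hi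
    exact (hφ (w i) (hwS i)).1 hi (congrFun h0 i)
  have hZ0 : Zer h k (fun i => φ (w' i)) := by
    intro j
    rw [← hφw]
    have : MvPolynomial.aeval w' (h j) = 0 := by
      apply Subtype.val_injective
      rw [hw' (h j)]
      exact hZ j
    rw [this, map_zero]
  obtain ⟨x, hx0, hx⟩ := hreal _ hw0 hZ0
  have hB0 : A.map (MvPolynomial.aeval fun i => φ (w' i)) = B'.map (φ : R →+* k) := by
    ext i j
    exact (hφw (A i j)).symm
  rw [hB0] at hx
  have hval0 := val_diag two_ne_zero (map_diag (φ : R →+* k) hD')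
  have hPQ0 : P'.map (φ : R →+* k) * Q'.map (φ : R →+* k) = 1 := by
    rw [← Matrix.map_mul, hPQ', Matrix.map_one _ (map_zero _) (map_one _)]
  set y : Fin n → k := Q'.map (φ : R →+* k) *ᵥ x with hy
  have hxy : P'.map (φ : R →+* k) *ᵥ y = x := by
    rw [hy, Matrix.mulVec_mulVec, hPQ0, Matrix.one_mulVec]
  have hsum : ∑ i, (φ : R →+* k) (a' i) * y i ^ 2 = 0 := by
    rw [← hval0, hxy, hx]
  have hφa : ∀ i, φ (a' i) ≠ 0 := fun i => (hφ (a i) (haS i)).1 (ha0 i)
  have hk := rc_real e
  have hy0 : y = 0 := by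
    by_cases hsg : ∃ i, IsSquare (algebraMap M E (a i))
    · obtain ⟨i0, hi0⟩ := hsg
      have hall : ∀ i, IsSquare (φ (a' i)) := fun i =>
        ((hφ (a i) (haS i)).2).1 (hsame i0 i hi0)
      choose u hu using hall
      funext i
      have h1 : ∑ i, (u i * y i) ^ 2 = 0 := by
        rw [← hsum]
        refine Finset.sum_congr rfl fun i _ => ?_
        show _ = φ (a' i) * y i ^ 2
        rw [hu i]
        ring
      have h2 := sum_sq e u y h1 i
      rcases mul_eq_zero.1 h2 with h3 | h3
      · exact absurd (by rw [hu i, h3, mul_zero]) (hφa i)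
      · exact h3
    · push Not at hsg
      have hall : ∀ i, IsSquare (-φ (a' i)) := fun i => by
        rcases hk.sq (φ (a' i)) with h1 | h1
        · exact absurd (((hφ (a i) (haS i)).2).2 h1) (hsg i)
        · exact h1
      choose u hu using hall
      funext i
      have h1 : ∑ i, (u i * y i) ^ 2 = 0 := by
        rw [← neg_eq_zero, ← hsum, ← Finset.sum_neg_distrib]
        refine Finset.sum_congr rfl fun i _ => ?_
        show _ = φ (a' i) * y i ^ 2
        linear_combination (y i ^ 2) * hu i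
      have h2 := sum_sq e u y h1 i
      rcases mul_eq_zero.1 h2 with h3 | h3
      · refine absurd ?_ (hφa i)
        rw [← neg_eq_zero, hu i, h3, mul_zero]
      · exact h3
  apply hx0
  rw [← hxy, hy0, Matrix.mulVec_zero]

end Rw
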