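import Pool.Agent.Lib.MP_f80667_ag.ZC.RkC

/-! Common zeros of quadratic forms over an algebraically closed field. -/

namespace Rw

universe u

/-- `m` quadratic forms in more than `m` variables over an algebraically closed field have a common
zero. -/
theorem exists_zero {C : Type u} [Field C] [IsAlgClosed C] {m n : ℕ} (h : m < n)
    (f : Fin m → MvPolynomial (Fin n) C) (hf : ∀ i, (f i).IsHomogeneous 2) :
    ∃ x : Fin n → C, x ≠ 0 ∧ ∀ i, MvPolynomial.eval x (f i) = 0 := by
  refine ZC.exists_common_zero (by simpa using h) f fun i => ?_
  have h1 : MvPolynomial.eval (0 : Fin n → C) (f i) = MvPolynomial.constantCoeff (f i) := by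
    have := MvPolynomial.eval₂_zero_apply (σ := Fin n) (RingHom.id C) (f i)
    simpa [MvPolynomial.eval] using this
  rw [h1, MvPolynomial.constantCoeff_eq]
  exact (hf i).coeff_eq_zero (by simp)

end Rw
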