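import Pool.Agent.Lib.MP_f80667_ag.Rw.SgnA

/-! Signs of polynomials at positive infinitesimals. -/

namespace Rw

open Polynomial

/-- `t` is positive and smaller than all positive elements of `k`. -/
def Infml (k : Type) {E : Type} [Field k] [Field E] [Algebra k E] (t : E) : Prop :=
  t ≠ 0 ∧ IsSquare t ∧ ∀ c : k, c ≠ 0 → IsSquare c → IsSquare (algebraMap k E c - t)

/-- Squares in a field isomorphic to the real numbers. -/
theorem isSquare_iff_e {k : Type} [Field k] (e : k ≃+* ℝ) (x : k) : IsSquare x ↔ 0 ≤ e x := by
  rw [← Real.isSquare_iff]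
  exact ⟨fun h => h.map e, fun h => by simpa using h.map e.symm⟩

/-- The sign of a polynomial at a positive infinitesimal is its sign at small positive reals. -/
theorem sgn {k E : Type} [Field k] (e : k ≃+* ℝ) [Field E] [CharZero E] [Algebra k E] (hE : RC E)
    {t : E} (ht : Infml k t) {p : k[X]} (hp : p ≠ 0) : ∃ δ : ℝ, 0 < δ ∧ ∀ t₀ : k, 0 < e t₀ →
      e t₀ < δ → p.eval t₀ ≠ 0 ∧ (IsSquare (aeval t p) ↔ IsSquare (p.eval t₀)) := by
  obtain ⟨δ, c, hδ, hc, key⟩ := sign_small e hp
  refine ⟨e δ, hδ, fun t₀ h0 h1 => ?_⟩
  obtain ⟨k1, k2⟩ := key ℝ (e : k →+* ℝ) (fun a ha => ha) (e t₀) h0 h1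
  have hev : eval₂ (e : k →+* ℝ) (e t₀) p = e (p.eval t₀) := by
    have := Polynomial.hom_eval₂ p (RingHom.id k) (e : k →+* ℝ) t₀
    rw [← Polynomial.eval₂_id]
    simpa using this.symm
  let := hE.ord
  have := hE.strict
  have hle : ∀ a : E, 0 ≤ a ↔ IsSquare a := fun a => by
    change IsSquare (a - 0) ↔ _
    rw [sub_zero]
  obtain ⟨htne, htsq, htlt⟩ := ht
  have hmap : ∀ a : k, 0 ≤ e a → 0 ≤ algebraMap k E a := by
    intro a ha
    rw [hle]
    exact ((isSquare_iff_e e a).2 ha).map (algebraMap k E)
  have ht0 : 0 < t := lt_of_le_of_ne ((hle t).2 htsq) htne.symm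
  have hδ0 : δ ≠ 0 := by
    rintro rfl
    simp at hδ
  have htd : t < algebraMap k E δ := by
    have h2 : e (δ / 2) = e δ / 2 := by rw [map_div₀, map_ofNat]
    have h3 := htlt (δ / 2) (div_ne_zero hδ0 (by
      have : CharZero k := ⟨fun m n hmn => by
        have := congrArg e hmn
        simpa using this⟩
      norm_num)) ((isSquare_iff_e e _).2 (by rw [h2]; linarith))
    rw [← hle, map_div₀, map_ofNat] at h3
    have h4 : 0 ≤ algebraMap k E δ := hmap δ hδ.le
    have h5 : 0 < algebraMap k E δ :=
      lt_of_le_of_ne h4 (fun h => hδ0 ((map_eq_zero (algebraMap k E)).1 h.symm))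
    linarith
  obtain ⟨k3, k4⟩ := key E (algebraMap k E) hmap t ht0 htd
  refine ⟨?_, ?_⟩
  · intro h
    rw [hev, h, map_zero] at k1
    exact k1 rfl
  · rw [isSquare_iff_e e, ← hev, k2, ← hle, aeval_def, k4]

/-- Every element transcendental over `k` gives a positive infinitesimal with the same field. -/
theorem exists_infml {k E : Type} [Field k] (e : k ≃+* ℝ) [Field E] [CharZero E] [Algebra k E]
    (hE : RC E) {x : E} (hx : Transcendental k x) : ∃ t : E, Infml k t ∧ Transcendental k t ∧
      IntermediateField.adjoin k {t} = IntermediateField.adjoin k {x} := by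
  let := hE.ord
  have := hE.strict
  have hle : ∀ a : E, 0 ≤ a ↔ IsSquare a := fun a => by
    change IsSquare (a - 0) ↔ _
    rw [sub_zero]
  have hmap : ∀ a : k, 0 ≤ e a → 0 ≤ algebraMap k E a := by
    intro a ha
    rw [hle]
    exact ((isSquare_iff_e e a).2 ha).map (algebraMap k E)
  have hmono : ∀ a b : k, e a ≤ e b → algebraMap k E a ≤ algebraMap k E b := by
    intro a b h
    have := hmap (b - a) (by rw [map_sub]; linarith)
    rw [map_sub] at this
    linarith
  -- it is enough to find `y` with the same field and small absolute value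
  suffices h : ∃ y : E, Transcendental k y ∧
      IntermediateField.adjoin k {y} = IntermediateField.adjoin k {x} ∧
      ∀ c : k, 0 < e c → |y| ≤ algebraMap k E c by
    obtain ⟨y, hy, hyx, hyc⟩ := h
    have hyne : y ≠ 0 := fun h0 => hy (h0 ▸ isAlgebraic_zero)
    have hcases : |y| = y ∨ |y| = -y := abs_choice y
    refine ⟨|y|, ⟨abs_ne_zero.2 hyne, (hle _).1 (abs_nonneg y), ?_⟩, ?_, ?_⟩
    · intro c hc0 hcs
      rw [← hle]
      have : 0 < e c := lt_of_le_of_ne ((isSquare_iff_e e c).1 hcs)
        (fun h => hc0 (by simpa using h.symm))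
      linarith [hyc c this]
    · rcases hcases with h | h
      · rwa [h]
      · rw [h]
        intro halg
        apply hy
        have := halg.neg
        rwa [neg_neg] at this
    · rw [← hyx]
      rcases hcases with h | h
      · rw [h]
      · rw [h]
        apply le_antisymm
        · rw [IntermediateField.adjoin_simple_le_iff]
          exact neg_mem (IntermediateField.mem_adjoin_simple_self k y)
        · rw [IntermediateField.adjoin_simple_le_iff]
          have := neg_mem (IntermediateField.mem_adjoin_simple_self k (-y))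
          rwa [neg_neg] at this
  by_cases hb : ∃ c : k, |x| ≤ algebraMap k E c
  · obtain ⟨c0, hc0⟩ := hb
    set A : Set ℝ := {a | algebraMap k E (e.symm a) ≤ x} with hA
    have hAne : A.Nonempty := by
      refine ⟨e (-c0), ?_⟩
      change algebraMap k E (e.symm (e (-c0))) ≤ x
      rw [RingEquiv.symm_apply_apply, map_neg]
      linarith [(abs_le.1 hc0).1]
    have hAbdd : BddAbove A := by
      refine ⟨e c0 + 1, fun a ha => ?_⟩
      by_contra hcon
      push Not at hcon
      have h1 : algebraMap k E (c0 + 1) ≤ algebraMap k E (e.symm a) :=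
        hmono _ _ (by rw [map_add, map_one, RingEquiv.apply_symm_apply]; exact hcon.le)
      rw [map_add, map_one] at h1
      have h2 : algebraMap k E (e.symm a) ≤ x := ha
      have h3 := (abs_le.1 hc0).2
      linarith
    set s := sSup A with hs
    set c := e.symm s with hcdef
    have hec : e c = s := by simp [hcdef]
    refine ⟨x - algebraMap k E c, ?_, ?_, ?_⟩
    · intro halg
      apply hx
      have := halg.add (isAlgebraic_algebraMap c)
      rwa [sub_add_cancel] at this
    · apply le_antisymm
      · rw [IntermediateField.adjoin_simple_le_iff]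
        exact sub_mem (IntermediateField.mem_adjoin_simple_self k x)
          (IntermediateField.algebraMap_mem _ c)
      · rw [IntermediateField.adjoin_simple_le_iff]
        have := add_mem (IntermediateField.mem_adjoin_simple_self k (x - algebraMap k E c))
          (IntermediateField.algebraMap_mem (IntermediateField.adjoin k {x - algebraMap k E c}) c)
        rwa [sub_add_cancel] at this
    · intro d hd
      rw [abs_le]
      constructor
      · obtain ⟨a, ha, hlt⟩ := exists_lt_of_lt_csSup hAne (show s - e d < sSup A by
          rw [← hs]; linarith)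
        have h1 : algebraMap k E (e.symm a) ≤ x := ha
        have h2 : algebraMap k E (c - d) ≤ algebraMap k E (e.symm a) :=
          hmono _ _ (by rw [map_sub, hec, RingEquiv.apply_symm_apply]; exact hlt.le)
        rw [map_sub] at h2
        linarith
      · by_contra hcon
        push Not at hcon
        have h1 : e (c + d) ∈ A := by
          change algebraMap k E (e.symm (e (c + d))) ≤ x
          rw [RingEquiv.symm_apply_apply, map_add]
          linarith
        have h2 := le_csSup hAbdd h1
        rw [map_add, hec, ← hs] at h2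
        linarith
  · push Not at hb
    have hxne : x ≠ 0 := fun h0 => hx (h0 ▸ isAlgebraic_zero)
    refine ⟨x⁻¹, ?_, ?_, ?_⟩
    · intro halg
      apply hx
      have := halg.inv
      rwa [inv_inv] at this
    · apply le_antisymm
      · rw [IntermediateField.adjoin_simple_le_iff]
        exact inv_mem (IntermediateField.mem_adjoin_simple_self k x)
      · rw [IntermediateField.adjoin_simple_le_iff]
        have := inv_mem (IntermediateField.mem_adjoin_simple_self k x⁻¹)
        rwa [inv_inv] at this
    · intro c hc
      have hcne : c ≠ 0 := by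
        rintro rfl
        simp at hc
      have h1 := hb c⁻¹
      rw [map_inv₀] at h1
      have h2 : 0 < algebraMap k E c := lt_of_le_of_ne (hmap c hc.le)
        (fun h => hcne ((map_eq_zero (algebraMap k E)).1 h.symm))
      rw [abs_inv]
      have h3 : 0 < |x| := abs_pos.2 hxne
      rw [inv_le_comm₀ h3 h2]
      exact h1.le

end Rw
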