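import Pool.Agent.Lib.MP_f80667_ag.Rw.Defs

/-! The order of a real closed field (in the sense of `RC`) and signs of polynomials near zero. -/

namespace Rw

open Polynomial

theorem RC.add_sq {E : Type*} [Field E] (hE : RC E) {a b : E} (ha : IsSquare a)
    (hb : IsSquare b) : IsSquare (a + b) := by
  obtain ⟨r, rfl⟩ := ha
  obtain ⟨s, rfl⟩ := hb
  have := hE.add r s
  rwa [pow_two, pow_two] at this

theorem RC.anti {E : Type*} [Field E] (hE : RC E) {a : E} (ha : IsSquare a)
    (hb : IsSquare (-a)) : a = 0 := by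
  by_contra h0
  obtain ⟨r, hr⟩ := ha
  obtain ⟨s, hs⟩ := hb
  have hr0 : r ≠ 0 := by
    rintro rfl
    exact h0 (by simpa using hr)
  apply hE.neg_one
  refine ⟨s / r, ?_⟩
  have : s * s = -(r * r) := by rw [← hs, hr]
  field_simp
  linear_combination -this

/-- The order of a real closed field. -/
@[instance_reducible]
noncomputable def RC.ord {E : Type*} [Field E] (hE : RC E) : LinearOrder E where
  le a b := IsSquare (b - a)
  le_refl a := by simp
  le_trans a b c h1 h2 := by
    have := hE.add_sq h1 h2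
    rwa [show b - a + (c - b) = c - a by ring] at this
  le_antisymm a b h1 h2 := by
    have h3 : IsSquare (-(b - a)) := by rwa [neg_sub]
    have := hE.anti h1 h3
    exact (sub_eq_zero.1 this).symm
  le_total a b := by
    rcases hE.sq (b - a) with h | h
    · exact Or.inl h
    · exact Or.inr (by rwa [neg_sub] at h)
  toDecidableLE := Classical.decRel _

theorem RC.strict {E : Type*} [Field E] (hE : RC E) :
    let := hE.ord
    IsStrictOrderedRing E := by
  let := hE.ord
  have hle : ∀ a b : E, a ≤ b ↔ IsSquare (b - a) := fun a b => Iff.rfl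
  have hadd : ∀ a b : E, a ≤ b → ∀ c : E, c + a ≤ c + b := by
    intro a b h c
    rw [hle] at h ⊢
    rwa [show c + b - (c + a) = b - a by ring]
  have : IsOrderedAddMonoid E := { add_le_add_left := fun a b h c => by
                                      have := hadd a b h c
                                      rwa [add_comm c a, add_comm c b] at this }
  have : ZeroLEOneClass E := ⟨by rw [hle]; simp⟩
  refine IsStrictOrderedRing.of_mul_pos ?_
  intro a b ha hb
  have h1 : a * b ≠ 0 := mul_ne_zero ha.ne' hb.ne'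
  refine lt_of_le_of_ne ?_ h1.symm
  have h2 := (hle 0 a).1 ha.le
  have h3 := (hle 0 b).1 hb.le
  rw [sub_zero] at h2 h3
  rw [hle, sub_zero]
  exact h2.mul h3

/-- The sign of a polynomial at small positive elements. -/
theorem sign_small {k : Type*} [Field k] (e : k ≃+* ℝ) {p : k[X]} (hp : p ≠ 0) :
    ∃ δ c : k, 0 < e δ ∧ c ≠ 0 ∧ ∀ (F : Type) [Field F] [LinearOrder F] [IsStrictOrderedRing F]
      (φ : k →+* F), (∀ a, 0 ≤ e a → 0 ≤ φ a) → ∀ x : F, 0 < x → x < φ δ →
        (eval₂ φ x p ≠ 0 ∧ (0 ≤ eval₂ φ x p ↔ 0 ≤ e c)) := by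
  obtain ⟨q, hq, hq0⟩ := Polynomial.exists_eq_pow_rootMultiplicity_mul_and_not_dvd p hp 0
  rw [C_0, sub_zero] at hq hq0
  set m := p.rootMultiplicity 0
  have hc : q.coeff 0 ≠ 0 := fun h => hq0 (X_dvd_iff.2 h)
  set c := q.coeff 0 with hcdef
  set g := q.divX with hg
  have hqg : q = g * X + C c := (divX_mul_X_add q).symm
  -- absolute values
  set ab : k → k := fun a => e.symm |e a| with hab
  have heab : ∀ a, e (ab a) = |e a| := fun a => by simp [hab]
  set B : k := g.sum (fun _ a => ab a) + 1 with hB
  have hB0 : 1 ≤ e B := by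
    rw [hB, map_add, map_one, Polynomial.sum_def, map_sum]
    have : 0 ≤ ∑ i ∈ g.support, e (ab (g.coeff i)) :=
      Finset.sum_nonneg fun i _ => by rw [heab]; exact abs_nonneg _
    linarith
  set δ : k := e.symm (min 1 (|e c| / (2 * e B))) with hδ
  have heδ : e δ = min 1 (|e c| / (2 * e B)) := by simp [hδ]
  have hec : 0 < |e c| := abs_pos.2 (by simpa using hc)
  refine ⟨δ, c, ?_, hc, ?_⟩
  · rw [heδ]
    refine lt_min one_pos (div_pos hec (by linarith))
  intro F _ _ _ φ hφ x hx0 hxδ
  have hmono : ∀ a b : k, e a ≤ e b → φ a ≤ φ b := by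
    intro a b h
    have := hφ (b - a) (by rw [map_sub]; linarith)
    rw [map_sub] at this
    linarith
  have habs : ∀ a : k, |φ a| ≤ φ (ab a) := by
    intro a
    rw [abs_le]
    constructor
    · have := hmono (-ab a) a (by rw [map_neg, heab]; exact neg_abs_le _)
      rwa [map_neg] at this
    · exact hmono a (ab a) (by rw [heab]; exact le_abs_self _)
  have hx1 : x < 1 := by
    refine lt_of_lt_of_le hxδ ?_
    have := hmono δ 1 (by rw [heδ, map_one]; exact min_le_left _ _)
    rwa [map_one] at this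
  have hgx : |eval₂ φ x g| ≤ φ B := by
    rw [eval₂_eq_sum, Polynomial.sum_def, hB, map_add, Polynomial.sum_def, map_sum, map_one]
    have h1 : |∑ i ∈ g.support, φ (g.coeff i) * x ^ i| ≤ ∑ i ∈ g.support, φ (ab (g.coeff i)) := by
      refine (Finset.abs_sum_le_sum_abs _ _).trans (Finset.sum_le_sum fun i _ => ?_)
      rw [abs_mul, abs_of_nonneg (pow_nonneg hx0.le i)]
      calc |φ (g.coeff i)| * x ^ i ≤ |φ (g.coeff i)| * 1 :=
            mul_le_mul_of_nonneg_left (pow_le_one₀ hx0.le hx1.le) (abs_nonneg _)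
        _ ≤ _ := by rw [mul_one]; exact habs _
    linarith
  have hBpos : 0 < φ B := by
    have := hmono 1 B (by rw [map_one]; exact hB0)
    rw [map_one] at this
    linarith
  have hsmall : |eval₂ φ x g * x| < φ (ab c) := by
    rw [abs_mul, abs_of_pos hx0]
    have h2 : φ δ * φ B ≤ φ (ab c) / 2 := by
      have h3 : e (δ * B) ≤ e (ab c / 2) := by
        rw [map_mul, map_div₀, heδ, heab, map_ofNat]
        have h4 : min 1 (|e c| / (2 * e B)) * e B ≤ |e c| / (2 * e B) * e B :=
          mul_le_mul_of_nonneg_right (min_le_right _ _) (by linarith)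
        have h5 : |e c| / (2 * e B) * e B = |e c| / 2 := by
          have : e B ≠ 0 := by linarith
          field_simp
        linarith
      have := hmono _ _ h3
      rwa [map_mul, map_div₀, map_ofNat] at this
    have h3 : 0 < φ (ab c) := by
      refine lt_of_le_of_ne (hφ _ (by rw [heab]; exact abs_nonneg _)) ?_
      intro h
      have : ab c = 0 := (map_eq_zero φ).1 h.symm
      have h5 := heab c
      rw [this, map_zero] at h5
      linarith
    calc |eval₂ φ x g| * x ≤ φ B * x := mul_le_mul_of_nonneg_right hgx hx0.le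
      _ < φ B * φ δ := mul_lt_mul_of_pos_left hxδ hBpos
      _ = φ δ * φ B := mul_comm _ _
      _ ≤ φ (ab c) / 2 := h2
      _ < φ (ab c) := by linarith
  have hpx : eval₂ φ x p = x ^ m * (eval₂ φ x g * x + φ c) := by
    rw [hq, eval₂_mul, eval₂_pow, eval₂_X, hqg, eval₂_add, eval₂_mul, eval₂_X, eval₂_C]
  have hxm : 0 < x ^ m := pow_pos hx0 m
  rw [abs_lt] at hsmall
  rcases lt_or_ge (e c) 0 with hneg | hpos
  · have h1 : φ (ab c) = - φ c := by
      rw [← map_neg]
      congr 1
      apply e.injective
      rw [heab, map_neg, abs_of_neg hneg]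
    have h2 : eval₂ φ x g * x + φ c < 0 := by linarith [hsmall.2]
    have h3 : eval₂ φ x p < 0 := by
      rw [hpx]
      exact mul_neg_of_pos_of_neg hxm h2
    exact ⟨h3.ne, ⟨fun h => absurd h (not_le.2 h3), fun h => absurd h (not_le.2 hneg)⟩⟩
  · have h1 : φ (ab c) = φ c := by
      congr 1
      apply e.injective
      rw [heab, abs_of_nonneg hpos]
    have h2 : 0 < eval₂ φ x g * x + φ c := by linarith [hsmall.1]
    have h3 : 0 < eval₂ φ x p := by
      rw [hpx]
      exact mul_pos hxm h2
    exact ⟨h3.ne', ⟨fun _ => hpos, fun _ => h3.le⟩⟩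

end Rw
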