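import Pool.Agent.Lib.MP_f80667_ag.Rw.Defs
import Pool.Agent.Lib.MP_f80667_ag.ZC.RkC
import Pool.Agent.Lib.MP_f80667_ag.Fa.FH

/-! Tsen's theorem for ternary quadratic forms. -/

namespace Rw

open ZC Module MvPolynomial

universe u

/-- **Tsen's theorem** for ternary quadratic forms. -/
theorem tsen {C K : Type u} [Field C] [IsAlgClosed C] [Field K] [Algebra C K]
    (hK : IsFunField C K) : Tern K := by
  classical
  obtain ⟨t, ht, hfin⟩ := hK
  intro a b c
  obtain ⟨V, U, hV, hU, hd, hUV⟩ := Fa.exists_growth t ht {a, b, c} 3 1 (by norm_num)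
  obtain ⟨d, hdd⟩ : ∃ d, d = finrank C V := ⟨_, rfl⟩
  obtain ⟨e, hee⟩ : ∃ e, e = finrank C U := ⟨_, rfl⟩
  rw [← hdd, ← hee, one_mul] at hd
  obtain ⟨v⟩ : Nonempty (Basis (Fin d) C V) := ⟨Module.finBasisOfFinrankEq _ _ hdd.symm⟩
  obtain ⟨u⟩ : Nonempty (Basis (Fin e) C U) := ⟨Module.finBasisOfFinrankEq _ _ hee.symm⟩
  let α : Fin 3 → K := ![a, b, c]
  have hα : ∀ i, α i ∈ ({a, b, c} : Finset K) := by
    intro i
    fin_cases i <;> simp [α]
  have hγ : ∀ i s s', ∃ γ : Fin e → C, (v s : K) * (v s' : K) * α i = ∑ q, γ q • (u q : K) := by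
    intro i s s'
    refine ⟨fun q => u.repr ⟨(v s : K) * (v s' : K) * α i, hUV _ (v s).2 _ (v s').2 _ (hα i)⟩ q, ?_⟩
    have h1 := congrArg Subtype.val (u.sum_repr
      ⟨(v s : K) * (v s' : K) * α i, hUV _ (v s).2 _ (v s').2 _ (hα i)⟩)
    rw [Submodule.coe_sum] at h1
    exact h1.symm
  choose γ hγ using hγ
  obtain ⟨y, hy0, hy⟩ := exists_common_zero (ι := Fin e) (σ := Fin 3 × Fin d) (by simpa using hd)
    (fun q => ∑ i, ∑ s, ∑ s', MvPolynomial.C (γ i s s' q) * X (i, s) * X (i, s') :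
      Fin e → MvPolynomial (Fin 3 × Fin d) C) (by intro q; simp)
  let x : Fin 3 → K := fun i => ∑ s, y (i, s) • (v s : K)
  have hx : ∀ i, x i = 0 → ∀ s, y (i, s) = 0 := by
    intro i h0
    have h2 := v.linearIndependent.map' V.subtype V.ker_subtype
    exact Fintype.linearIndependent_iff.1 h2 (fun s => y (i, s)) (by simpa using h0)
  have hsum : ∑ i, α i * x i ^ 2 = 0 := by
    have h1 : ∀ i, α i * x i ^ 2 =
        ∑ s, ∑ s', ∑ q, (γ i s s' q * y (i, s) * y (i, s')) • (u q : K) := by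
      intro i
      have h2 : α i * x i ^ 2 = ∑ s, ∑ s', (y (i, s) * y (i, s')) • ((v s : K) * (v s' : K) * α i) := by
        rw [pow_two, Finset.sum_mul_sum, Finset.mul_sum]
        refine Finset.sum_congr rfl fun s _ => ?_
        rw [Finset.mul_sum]
        refine Finset.sum_congr rfl fun s' _ => ?_
        simp only [Algebra.smul_def, map_mul]
        ring
      rw [h2]
      refine Finset.sum_congr rfl fun s _ => Finset.sum_congr rfl fun s' _ => ?_
      rw [hγ, Finset.smul_sum]
      refine Finset.sum_congr rfl fun q _ => ?_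
      rw [smul_smul]
      congr 1
      ring
    have h3 : ∑ i, α i * x i ^ 2 =
        ∑ q, (∑ i, ∑ s, ∑ s', γ i s s' q * y (i, s) * y (i, s')) • (u q : K) := by
      simp only [h1, Finset.sum_smul]
      symm
      rw [Finset.sum_comm]
      refine Finset.sum_congr rfl fun i _ => ?_
      rw [Finset.sum_comm]
      refine Finset.sum_congr rfl fun s _ => ?_
      rw [Finset.sum_comm]
    rw [h3]
    refine Finset.sum_eq_zero fun q _ => ?_
    have h4 := hy q
    simp only [map_sum, map_mul, eval_C, eval_X] at h4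
    rw [h4, zero_smul]
  refine ⟨x 0, x 1, x 2, ?_, ?_⟩
  · by_contra hcon
    push Not at hcon
    apply hy0
    funext ⟨i, s⟩
    have : x i = 0 := by
      fin_cases i
      · exact hcon.1
      · exact hcon.2.1
      · exact hcon.2.2
    exact hx i this s
  · rw [Fin.sum_univ_three] at hsum
    exact hsum

end Rw
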