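import Pool.Agent.Lib.MP_f80667_ag.Rw.Defs

/-! Sums of two squares. -/

namespace Rw

universe u

section

variable {M : Type u} [Field M]

/-- Zeros of ternary forms over `M(i)` in coordinates. -/
theorem Vcd.coord (hM : Vcd M) (hi : ∀ r : M, r ^ 2 ≠ -1) (a1 a2 b1 b2 c1 c2 : M) :
    ∃ x1 x2 y1 y2 z1 z2 : M, ((x1 ≠ 0 ∨ x2 ≠ 0) ∨ (y1 ≠ 0 ∨ y2 ≠ 0) ∨ (z1 ≠ 0 ∨ z2 ≠ 0)) ∧
      (a1 * (x1 ^ 2 - x2 ^ 2) - 2 * a2 * x1 * x2) + (b1 * (y1 ^ 2 - y2 ^ 2) - 2 * b2 * y1 * y2) +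
        (c1 * (z1 ^ 2 - z2 ^ 2) - 2 * c2 * z1 * z2) = 0 ∧
      (a2 * (x1 ^ 2 - x2 ^ 2) + 2 * a1 * x1 * x2) + (b2 * (y1 ^ 2 - y2 ^ 2) + 2 * b1 * y1 * y2) +
        (c2 * (z1 ^ 2 - z2 ^ 2) + 2 * c1 * z1 * z2) = 0 := by
  have : Fact (∀ r : M, r ^ 2 ≠ -1 + 0 * r) := ⟨fun r => by simpa using hi r⟩
  have hω : (QuadraticAlgebra.omega : QuadraticAlgebra M (-1) 0) ^ 2 = -1 := by
    rw [pow_two]
    ext <;> simp [QuadraticAlgebra.re_mul, QuadraticAlgebra.im_mul, QuadraticAlgebra.omega_re,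
      QuadraticAlgebra.omega_im, QuadraticAlgebra.re_one, QuadraticAlgebra.im_one]
  obtain ⟨x, y, z, hne, h0⟩ := hM (QuadraticAlgebra M (-1) 0) QuadraticAlgebra.omega hω
    ⟨a1, a2⟩ ⟨b1, b2⟩ ⟨c1, c2⟩
  have hz : ∀ w : QuadraticAlgebra M (-1) 0, w ≠ 0 → w.re ≠ 0 ∨ w.im ≠ 0 := by
    intro w hw
    by_contra hcon
    push Not at hcon
    exact hw (QuadraticAlgebra.ext hcon.1 hcon.2)
  refine ⟨x.re, x.im, y.re, y.im, z.re, z.im, ?_, ?_, ?_⟩
  · rcases hne with h | h | h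
    · exact Or.inl (hz _ h)
    · exact Or.inr (Or.inl (hz _ h))
    · exact Or.inr (Or.inr (hz _ h))
  · have h1 := congrArg QuadraticAlgebra.re h0
    simp only [pow_two, QuadraticAlgebra.re_add, QuadraticAlgebra.re_mul, QuadraticAlgebra.im_mul,
      QuadraticAlgebra.re_zero] at h1
    linear_combination h1
  · have h1 := congrArg QuadraticAlgebra.im h0
    simp only [pow_two, QuadraticAlgebra.im_add, QuadraticAlgebra.re_mul, QuadraticAlgebra.im_mul,
      QuadraticAlgebra.im_zero] at h1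
    linear_combination h1

theorem sq_add_sq (hi : ∀ r : M, r ^ 2 ≠ -1) {x y : M} (h : x ^ 2 + y ^ 2 = 0) : x = 0 ∧ y = 0 := by
  by_cases hy : y = 0
  · subst hy
    exact ⟨by simpa using h, rfl⟩
  · exfalso
    apply hi (x / y)
    field_simp
    linear_combination h

end

variable {M : Type u} [Field M] [CharZero M]

/-- Hyperbolic planes are universal. -/
theorem hyp {r : M} (hr : r ≠ 0) (s : M) : ∃ u v : M, s = u ^ 2 - r ^ 2 * v ^ 2 :=
  ⟨(s + 1) / 2, (s - 1) / (2 * r), by field_simp; ring⟩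

/-- Sums of two squares have the form `u² - t v²` for every `t ≠ 0`. -/
theorem sum_two_mem (hM : Vcd M) {t : M} (ht : t ≠ 0) (x y : M) :
    ∃ u v : M, x ^ 2 + y ^ 2 = u ^ 2 - t * v ^ 2 := by
  by_cases h : ∃ i : M, i ^ 2 = -1
  · obtain ⟨i, hi⟩ := h
    obtain ⟨X, Y, Z, hne, h0⟩ := hM M i hi 1 (-t) (-(x ^ 2 + y ^ 2))
    by_cases hZ : Z = 0
    · subst hZ
      have hY : Y ≠ 0 := by
        rintro rfl
        have : X = 0 := by simpa using h0
        simp [this] at hne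
      have hX : X ≠ 0 := by
        rintro rfl
        simp [ht, hY] at h0
      obtain ⟨u, v, huv⟩ := hyp (div_ne_zero hX hY) (x ^ 2 + y ^ 2)
      refine ⟨u, v, huv.trans ?_⟩
      have h1 : (X / Y) ^ 2 = t := by
        field_simp
        linear_combination h0
      rw [h1]
    · refine ⟨X / Z, Y / Z, ?_⟩
      field_simp
      linear_combination -h0
  · push Not at h
    obtain ⟨p1, p2, q1, q2, r1, r2, hne, h1, h2⟩ := hM.coord h 1 0 (-t) 0 (-x) (-y)
    have key : (p1 ^ 2 + p2 ^ 2 + t * (q1 ^ 2 + q2 ^ 2)) ^ 2 -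
        t * (2 * (p1 * q1 + p2 * q2)) ^ 2 = (x ^ 2 + y ^ 2) * (r1 ^ 2 + r2 ^ 2) ^ 2 := by
      linear_combination (p1 ^ 2 - p2 ^ 2 - t * (q1 ^ 2 - q2 ^ 2) +
        (x * (r1 ^ 2 - r2 ^ 2) - 2 * y * r1 * r2)) * h1 +
        (2 * p1 * p2 - 2 * t * q1 * q2 + (y * (r1 ^ 2 - r2 ^ 2) + 2 * x * r1 * r2)) * h2
    by_cases hr : r1 ^ 2 + r2 ^ 2 = 0
    · obtain ⟨hr1, hr2⟩ := sq_add_sq h hr
      subst hr1 hr2
      have e1 : p1 ^ 2 - p2 ^ 2 = t * (q1 ^ 2 - q2 ^ 2) := by linear_combination h1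
      have e2 : p1 * p2 = t * q1 * q2 := by
        have : (2 : M) * (p1 * p2) = 2 * (t * q1 * q2) := by linear_combination h2
        exact mul_left_cancel₀ two_ne_zero this
      by_cases hV : p1 * q1 + p2 * q2 = 0
      · have hU : p1 ^ 2 + p2 ^ 2 = -t * (q1 ^ 2 + q2 ^ 2) := by
          have : (p1 ^ 2 + p2 ^ 2 + t * (q1 ^ 2 + q2 ^ 2)) ^ 2 = 0 := by
            rw [hV] at key
            linear_combination key
          have := pow_eq_zero_iff (two_ne_zero) |>.1 this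
          linear_combination this
        have e3 : p1 ^ 2 = -t * q2 ^ 2 := by
          have : (2 : M) * p1 ^ 2 = 2 * (-t * q2 ^ 2) := by linear_combination e1 + hU
          exact mul_left_cancel₀ two_ne_zero this
        have e4 : p2 ^ 2 = -t * q1 ^ 2 := by
          have : (2 : M) * p2 ^ 2 = 2 * (-t * q1 ^ 2) := by linear_combination hU - e1
          exact mul_left_cancel₀ two_ne_zero this
        by_cases hq1 : q1 = 0
        · have hq2 : q2 ≠ 0 := by
            rintro rfl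
            subst hq1
            have a1 : p1 = 0 := by simpa using e3
            have a2 : p2 = 0 := by simpa using e4
            simp [a1, a2] at hne
          have hp1 : p1 ≠ 0 := by
            rintro rfl
            simp [ht, hq2] at e3
          refine ⟨x, y * q2 / p1, ?_⟩
          field_simp
          linear_combination y ^ 2 * e3
        · have hp2 : p2 ≠ 0 := by
            rintro rfl
            simp [ht, hq1] at e4
          refine ⟨x, y * q1 / p2, ?_⟩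
          field_simp
          linear_combination y ^ 2 * e4
      · have hU : p1 ^ 2 + p2 ^ 2 + t * (q1 ^ 2 + q2 ^ 2) ≠ 0 := by
          intro hU
          rw [hU] at key
          have : t * (2 * (p1 * q1 + p2 * q2)) ^ 2 = 0 := by linear_combination -key
          rw [mul_eq_zero, pow_eq_zero_iff two_ne_zero, mul_eq_zero] at this
          rcases this with h3 | h3 | h3
          · exact ht h3
          · exact two_ne_zero h3
          · exact hV h3
        have hV2 : 2 * (p1 * q1 + p2 * q2) ≠ 0 := mul_ne_zero two_ne_zero hV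
        obtain ⟨u, v, huv⟩ := hyp (div_ne_zero hU hV2) (x ^ 2 + y ^ 2)
        refine ⟨u, v, huv.trans ?_⟩
        have h3 : ((p1 ^ 2 + p2 ^ 2 + t * (q1 ^ 2 + q2 ^ 2)) / (2 * (p1 * q1 + p2 * q2))) ^ 2 =
            t := by
          rw [div_pow, div_eq_iff (pow_ne_zero 2 hV2)]
          linear_combination key
        rw [h3]
    · refine ⟨(p1 ^ 2 + p2 ^ 2 + t * (q1 ^ 2 + q2 ^ 2)) / (r1 ^ 2 + r2 ^ 2),
        (2 * (p1 * q1 + p2 * q2)) / (r1 ^ 2 + r2 ^ 2), ?_⟩
      rw [div_pow, div_pow, mul_div_assoc', ← sub_div, eq_div_iff (pow_ne_zero 2 hr)]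
      exact key.symm

/-- Sums of three squares are sums of two squares. -/
theorem sum_three (hM : Vcd M) (x y z : M) : ∃ u v : M, x ^ 2 + y ^ 2 + z ^ 2 = u ^ 2 + v ^ 2 := by
  by_cases hr : x ^ 2 + y ^ 2 + z ^ 2 = 0
  · exact ⟨0, 0, by rw [hr]; ring⟩
  · obtain ⟨u, v, huv⟩ := sum_two_mem hM hr x y
    by_cases hv : 1 + v ^ 2 = 0
    · refine ⟨((x ^ 2 + y ^ 2 + z ^ 2) + 1) / 2, v * ((x ^ 2 + y ^ 2 + z ^ 2) - 1) / 2, ?_⟩
      have : v ^ 2 = -1 := by linear_combination hv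
      rw [div_pow, div_pow, mul_pow, this]
      ring
    · refine ⟨(z + u * v) / (1 + v ^ 2), (u - z * v) / (1 + v ^ 2), ?_⟩
      rw [div_pow, div_pow, ← add_div, eq_div_iff (pow_ne_zero 2 hv)]
      linear_combination (1 + v ^ 2) * huv

/-- If `s ≠ 0` is a sum of two squares, `<1, -s>` is universal. -/
theorem universal (hM : Vcd M) {x y : M} (hs : x ^ 2 + y ^ 2 ≠ 0) (t : M) :
    ∃ u v : M, t = u ^ 2 - (x ^ 2 + y ^ 2) * v ^ 2 := by
  by_cases ht : t = 0
  · exact ⟨0, 0, by rw [ht]; ring⟩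
  · obtain ⟨u, v, huv⟩ := sum_two_mem hM ht x y
    by_cases hv : v = 0
    · subst hv
      have hu : u ≠ 0 := by
        rintro rfl
        apply hs
        rw [huv]
        ring
      obtain ⟨a, b, hab⟩ := hyp hu t
      exact ⟨a, b, by rw [hab, huv]; ring⟩
    · refine ⟨u / v, 1 / v, ?_⟩
      rw [huv]
      field_simp
      ring

end Rw
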